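import Pool.Agent.TH735.QM.Units

/-!
Borel's theorem with polynomial coefficients.
-/

set_option autoImplicit false

namespace Pool.Agent.TH735.QM

open Set Filter Topology Complex Polynomial

theorem poly_borel {ι : Type} [Fintype ι] [DecidableEq ι] (μ : ι → ℂ → ℂ)
    (hμ : ∀ i, Differentiable ℂ (μ i)) (P : ι → ℂ[X]) (x : ι → ℂ)
    (hx : ∀ i j (c : ℂ), (∀ z, μ i z = μ j z + c) → x i = exp c * x j)
    (h : ∀ z, ∑ i, (P i).eval z * exp (μ i z) = 0) : ∑ i, C (x i) * P i = 0 := by
  classical
  obtain ⟨N, hN⟩ : ∃ N : ℕ, ∀ i, (P i).natDegree < N := by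
    refine ⟨(∑ i, (P i).natDegree) + 1, fun i => Nat.lt_succ_of_le ?_⟩
    exact Finset.single_le_sum (f := fun i => (P i).natDegree) (fun _ _ => Nat.zero_le _)
      (Finset.mem_univ i)
  have key := Pool.Agent.H159R3.Exp.borel_spec (B := ℂ[X]) (ι := ι × ℕ)
    (fun p w => (p.2 : ℂ) * w + μ p.1 (exp w))
    (by
      rintro ⟨i, a⟩
      exact ((differentiable_const _).mul differentiable_id).add ((hμ i).comp differentiable_exp))
    (fun p => monomial p.2 (x p.1))
    (by
      rintro ⟨i, a⟩ ⟨j, b⟩ c hc
      simp only at hc ⊢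
      have hab : a = b := by
        have h0 := hc 0
        have h1 := hc (2 * Real.pi * I)
        rw [exp_two_pi_mul_I] at h1
        simp only [mul_zero, zero_add, exp_zero] at h0
        have h2 : ((a : ℂ) - b) * (2 * Real.pi * I) = 0 := by linear_combination h1 - h0
        have h3 : (2 * Real.pi * I : ℂ) ≠ 0 := by
          simp [Real.pi_ne_zero, I_ne_zero]
        have h4 := (mul_eq_zero.1 h2).resolve_right h3
        exact_mod_cast sub_eq_zero.1 h4
      subst hab
      have hz : ∀ z : ℂ, z ≠ 0 → μ i z = μ j z + c := by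
        intro z hz
        have := hc (log z)
        rw [exp_log hz] at this
        linear_combination this
      have hz' : ∀ z, μ i z = μ j z + c := by
        have h1 : (fun z => μ i z) =ᶠ[𝓝[≠] (0 : ℂ)] fun z => μ j z + c := by
          filter_upwards [self_mem_nhdsWithin] with z hz0
          exact hz z hz0
        have h2 := (ContinuousAt.eventuallyEq_nhds_iff_eventuallyEq_nhdsNE
          ((hμ i).continuous.continuousAt)
          (((hμ j).continuous.add continuous_const).continuousAt)).1 h1
        intro z
        by_cases hz0 : z = 0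
        · rw [hz0]; exact h2.eq_of_nhds
        · exact hz z hz0
      rw [hx i j c hz', smul_monomial, smul_eq_mul])
    (Finset.univ ×ˢ Finset.range N) (fun p => (P p.1).coeff p.2)
    (by
      intro w
      rw [Finset.sum_product, ← h (exp w)]
      refine Finset.sum_congr rfl fun i _ => ?_
      rw [eval_eq_sum_range' (hN i), Finset.sum_mul]
      refine Finset.sum_congr rfl fun a _ => ?_
      rw [exp_add, ← exp_nat_mul]
      ring)
  rw [Finset.sum_product] at key
  rw [← key]
  refine Finset.sum_congr rfl fun i _ => ?_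
  conv_lhs => rw [(P i).as_sum_range' N (hN i)]
  rw [Finset.mul_sum]
  refine Finset.sum_congr rfl fun a _ => ?_
  rw [C_mul_monomial, smul_monomial, smul_eq_mul, mul_comm]

end Pool.Agent.TH735.QM
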