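import Mathlib

/-!
Countable or cocountable sets of complex numbers, and zero sets of entire functions.
-/

set_option autoImplicit false

namespace Pool.Agent.TH735.QM

open Set Filter Topology

/-- countable or cocountable -/
def Qm (S : Set ℂ) : Prop := S.Countable ∨ Sᶜ.Countable

theorem Qm.compl {S : Set ℂ} (h : Qm S) : Qm Sᶜ := by
  rcases h with h | h
  · right; rwa [compl_compl]
  · left; exact h

theorem Qm.iUnion {ι : Type*} [Countable ι] {S : ι → Set ℂ} (h : ∀ i, Qm (S i)) :
    Qm (⋃ i, S i) := by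
  by_cases hc : ∀ i, (S i).Countable
  · left; exact countable_iUnion hc
  · push Not at hc
    obtain ⟨i, hi⟩ := hc
    right
    have := (h i).resolve_left hi
    exact this.mono (compl_subset_compl.2 (subset_iUnion S i))

theorem Qm.iInter {ι : Type*} [Countable ι] {S : ι → Set ℂ} (h : ∀ i, Qm (S i)) :
    Qm (⋂ i, S i) := by
  have := (Qm.iUnion (fun i => (h i).compl)).compl
  rwa [compl_iUnion, iInter_congr (fun i => compl_compl (S i))] at this

theorem Qm.biUnion {ι : Type*} {I : Set ι} (hI : I.Countable) {S : ι → Set ℂ}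
    (h : ∀ i ∈ I, Qm (S i)) : Qm (⋃ i ∈ I, S i) := by
  rw [biUnion_eq_iUnion]
  have := hI.to_subtype
  exact Qm.iUnion (fun i => h i i.2)

theorem Qm.inter {S T : Set ℂ} (hS : Qm S) (hT : Qm T) : Qm (S ∩ T) := by
  have := Qm.iInter (S := fun b : Bool => if b then S else T) (by
    intro b; cases b <;> simp [hS, hT])
  convert this using 1
  ext x
  simp [and_comm]

theorem Qm.union {S T : Set ℂ} (hS : Qm S) (hT : Qm T) : Qm (S ∪ T) := by
  have := (hS.compl.inter hT.compl).compl
  rwa [compl_inter, compl_compl, compl_compl] at this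

theorem Qm.empty : Qm (∅ : Set ℂ) := Or.inl countable_empty

theorem Qm.univ : Qm (Set.univ : Set ℂ) := Or.inr (by simp)

/-- two sets which agree outside a countable set -/
theorem Qm.congr {S T C : Set ℂ} (hC : C.Countable) (hS : Qm S)
    (h : ∀ s, s ∉ C → (s ∈ S ↔ s ∈ T)) : Qm T := by
  rcases hS with hS | hS
  · left
    refine (hS.union hC).mono ?_
    intro s hs
    by_cases hsC : s ∈ C
    · exact Or.inr hsC
    · exact Or.inl ((h s hsC).2 hs)
  · right
    refine (hS.union hC).mono ?_
    intro s hs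
    by_cases hsC : s ∈ C
    · exact Or.inr hsC
    · exact Or.inl (fun h' => hs ((h s hsC).1 h'))

theorem uncountable_univ : ¬ (Set.univ : Set ℂ).Countable := not_countable_complex

theorem nonempty_of_cocountable {D : Set ℂ} (h : Dᶜ.Countable) : D.Nonempty := by
  by_contra hD
  rw [Set.not_nonempty_iff_eq_empty] at hD
  rw [hD, compl_empty] at h
  exact uncountable_univ h

/-- The zero set of an analytic function on a connected open set, not identically zero. -/
theorem zeros_countableOn {U : Set ℂ} (hUc : IsPreconnected U) {f : ℂ → ℂ}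
    (hf : AnalyticOnNhd ℂ f U) (h : ∃ z ∈ U, f z ≠ 0) : (U ∩ {z | f z = 0}).Countable := by
  obtain ⟨x, hxU, hx⟩ := h
  rcases AnalyticOnNhd.eqOn_zero_or_eventually_ne_zero_of_preconnected
      (f := f) (U := U) hf hUc with h | h
  · exact absurd (h hxU) hx
  · have h2 : IsDiscrete ({z | f z = 0} ∩ U) := by
      apply isDiscrete_of_codiscreteWithin
      filter_upwards [h] with z hz
      exact hz
    rw [inter_comm] at h2
    exact (HereditarilyLindelofSpace.isLindelof _).countable_of_isDiscrete h2

/-- The zero set of an entire function that is not identically zero is countable. -/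
theorem zeros_countable {f : ℂ → ℂ} (hf : Differentiable ℂ f) (h : ∃ z, f z ≠ 0) :
    {z | f z = 0}.Countable := by
  obtain ⟨x, hx⟩ := h
  have := zeros_countableOn (U := univ) isPreconnected_univ (fun z _ => hf.analyticAt z)
    ⟨x, mem_univ x, hx⟩
  rwa [univ_inter] at this

theorem zeros_Qm {f : ℂ → ℂ} (hf : Differentiable ℂ f) : Qm {z | f z = 0} := by
  by_cases h : ∃ z, f z ≠ 0
  · exact Or.inl (zeros_countable hf h)
  · push Not at h
    right
    have : {z | f z = 0} = Set.univ := by ext z; simp [h z]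
    rw [this]; simp

/-- an entire function vanishing on an uncountable set vanishes -/
theorem eq_zero_of_uncountable {f : ℂ → ℂ} (hf : Differentiable ℂ f) {S : Set ℂ}
    (hS : ¬ S.Countable) (h : ∀ s ∈ S, f s = 0) : ∀ s, f s = 0 := by
  by_contra hc
  push Not at hc
  exact hS ((zeros_countable hf hc).mono h)

/-- an analytic function on a connected open set vanishing on an uncountable set vanishes -/
theorem eq_zero_of_uncountableOn {U : Set ℂ} (hUc : IsPreconnected U) {f : ℂ → ℂ}
    (hf : AnalyticOnNhd ℂ f U) {S : Set ℂ} (hSU : S ⊆ U)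
    (hS : ¬ S.Countable) (h : ∀ s ∈ S, f s = 0) : ∀ s ∈ U, f s = 0 := by
  by_contra hc
  push Not at hc
  refine hS ((zeros_countableOn hUc hf hc).mono ?_)
  intro s hs
  exact ⟨hSU hs, h s hs⟩

/-- countable or cocountable in `U` -/
def QmOn (U S : Set ℂ) : Prop := (U ∩ S).Countable ∨ (U \ S).Countable

theorem QmOn.compl {U S : Set ℂ} (h : QmOn U S) : QmOn U Sᶜ := by
  rcases h with h | h
  · right
    convert h using 1
    ext z; simp
  · left
    exact h

theorem QmOn.iUnion {U : Set ℂ} {ι : Type*} [Countable ι] {S : ι → Set ℂ}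
    (h : ∀ i, QmOn U (S i)) : QmOn U (⋃ i, S i) := by
  by_cases hc : ∀ i, (U ∩ S i).Countable
  · left
    rw [inter_iUnion]
    exact countable_iUnion hc
  · push Not at hc
    obtain ⟨i, hi⟩ := hc
    right
    have := (h i).resolve_left hi
    exact this.mono (sdiff_subset_sdiff_right (subset_iUnion S i))

theorem QmOn.iInter {U : Set ℂ} {ι : Type*} [Countable ι] {S : ι → Set ℂ}
    (h : ∀ i, QmOn U (S i)) : QmOn U (⋂ i, S i) := by
  have := (QmOn.iUnion (fun i => (h i).compl)).compl
  rwa [compl_iUnion, iInter_congr (fun i => compl_compl (S i))] at this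

theorem QmOn.inter {U S T : Set ℂ} (hS : QmOn U S) (hT : QmOn U T) : QmOn U (S ∩ T) := by
  have := QmOn.iInter (U := U) (S := fun b : Bool => if b then S else T) (by
    intro b; cases b <;> simp [hS, hT])
  convert this using 1
  ext x
  simp [and_comm]

theorem QmOn.union {U S T : Set ℂ} (hS : QmOn U S) (hT : QmOn U T) : QmOn U (S ∪ T) := by
  have := (hS.compl.inter hT.compl).compl
  rwa [compl_inter, compl_compl, compl_compl] at this

/-- two sets which agree outside a countable set -/
theorem QmOn.congr {U S T C : Set ℂ} (hC : C.Countable) (hS : QmOn U S)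
    (h : ∀ s ∈ U, s ∉ C → (s ∈ S ↔ s ∈ T)) : QmOn U T := by
  rcases hS with hS | hS
  · left
    refine (hS.union hC).mono ?_
    rintro s ⟨hsU, hs⟩
    by_cases hsC : s ∈ C
    · exact Or.inr hsC
    · exact Or.inl ⟨hsU, (h s hsU hsC).2 hs⟩
  · right
    refine (hS.union hC).mono ?_
    rintro s ⟨hsU, hs⟩
    by_cases hsC : s ∈ C
    · exact Or.inr hsC
    · exact Or.inl ⟨hsU, fun h' => hs ((h s hsU hsC).1 h')⟩

theorem QmOn.congr' {U S T : Set ℂ} (hS : QmOn U S) (h : ∀ s ∈ U, (s ∈ S ↔ s ∈ T)) :
    QmOn U T :=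
  hS.congr countable_empty fun s hs _ => h s hs

theorem zeros_QmOn {U : Set ℂ} (hUc : IsPreconnected U) {f : ℂ → ℂ}
    (hf : AnalyticOnNhd ℂ f U) : QmOn U {z | f z = 0} := by
  by_cases h : ∃ z ∈ U, f z ≠ 0
  · exact Or.inl (zeros_countableOn hUc hf h)
  · push Not at h
    right
    convert countable_empty using 1
    ext z
    simp only [Set.mem_sdiff, Set.mem_ofPred_eq, mem_empty_iff_false, iff_false, not_and, not_not]
    exact h z

theorem QmOn_univ_iff {S : Set ℂ} : QmOn univ S ↔ Qm S := by
  unfold QmOn Qm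
  rw [univ_inter, ← compl_eq_univ_sdiff]

end Pool.Agent.TH735.QM
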