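import Pool.Agent.TH735.QM.Card

/-!
From local to global.
-/

set_option autoImplicit false

namespace Pool.Agent.TH735.QM

open Set Filter Topology Complex Metric

theorem ball_not_countable (c : ℂ) {r : ℝ} (hr : 0 < r) : ¬ (ball c r).Countable := by
  intro h
  have h1 := Set.Countable.dense_compl ℝ h
  obtain ⟨x, hx, hx'⟩ := h1.exists_mem_open isOpen_ball (nonempty_ball.2 hr)
  exact hx hx'

theorem ball_sdiff_connected (c : ℂ) {r : ℝ} (hr : 0 < r) {B : Set ℂ} (hB : B.Countable) :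
    IsConnected (ball c r \ B) := by
  set φ := OpenPartialHomeomorph.univBall (E := ℂ) c r with hφ
  have hsrc : φ.source = univ := OpenPartialHomeomorph.univBall_source c r
  have htgt : φ.target = ball c r := OpenPartialHomeomorph.univBall_target c hr
  have hinj : InjOn φ univ := by rw [← hsrc]; exact φ.injOn
  have hcont : Continuous φ := by
    rw [← continuousOn_univ, ← hsrc]
    exact φ.continuousOn
  have hc : (φ ⁻¹' B).Countable := hB.preimage_of_injOn (hinj.mono (subset_univ _))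
  have hconn : IsConnected (φ ⁻¹' B)ᶜ :=
    Set.Countable.isConnected_compl_of_one_lt_rank (by simp) hc
  have himg : φ '' (φ ⁻¹' B)ᶜ = ball c r \ B := by
    ext y
    constructor
    · rintro ⟨x, hx, rfl⟩
      refine ⟨?_, hx⟩
      rw [← htgt]
      exact φ.map_source (by rw [hsrc]; exact mem_univ x)
    · rintro ⟨hy, hyB⟩
      rw [← htgt] at hy
      refine ⟨φ.symm y, ?_, φ.right_inv hy⟩
      show φ (φ.symm y) ∉ B
      rw [φ.right_inv hy]
      exact hyB
  rw [← himg]
  exact hconn.image φ hcont.continuousOn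

/-- points near which `E` is countable -/
def thinAt (E : Set ℂ) : Set ℂ := {t | ∃ r > 0, (ball t r ∩ E).Countable}

theorem isOpen_thinAt (E : Set ℂ) : IsOpen (thinAt E) := by
  rw [Metric.isOpen_iff]
  rintro t ⟨r, hr, h⟩
  refine ⟨r, hr, ?_⟩
  intro t' ht'
  obtain ⟨r', hr', hsub⟩ := Metric.isOpen_iff.1 isOpen_ball t' ht'
  exact ⟨r', hr', h.mono (inter_subset_inter_left _ hsub)⟩

theorem thinAt_disjoint (E : Set ℂ) : Disjoint (thinAt E) (thinAt Eᶜ) := by
  rw [Set.disjoint_left]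
  rintro t ⟨r, hr, h⟩ ⟨r', hr', h'⟩
  apply ball_not_countable t (lt_min hr hr')
  refine (h.union h').mono ?_
  intro x hx
  by_cases hE : x ∈ E
  · exact Or.inl ⟨ball_subset_ball (min_le_left _ _) hx, hE⟩
  · exact Or.inr ⟨ball_subset_ball (min_le_right _ _) hx, hE⟩

theorem countable_of_subset_thinAt {A E : Set ℂ} (h : A ⊆ thinAt E) : (A ∩ E).Countable := by
  have h' : ∀ t ∈ A, ∃ r : ℝ, 0 < r ∧ (ball t r ∩ E).Countable := fun t ht => h ht
  choose! r hr hc using h'
  obtain ⟨T, hTA, hT, hcov⟩ := TopologicalSpace.countable_cover_nhdsWithin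
    (f := fun t => ball t (r t)) (s := A) (fun t ht =>
      mem_nhdsWithin_of_mem_nhds (ball_mem_nhds t (hr t ht)))
  refine (hT.biUnion fun t ht => hc t (hTA ht)).mono ?_
  rintro x ⟨hxA, hxE⟩
  obtain ⟨t, ht, hxt⟩ := mem_iUnion₂.1 (hcov hxA)
  exact mem_iUnion₂.2 ⟨t, ht, hxt, hxE⟩

theorem QmOn.of_local {U : Set ℂ} (hU : IsOpen U) (hUc : IsPreconnected U) {B E : Set ℂ}
    (hB : B.Countable) (h : ∀ t ∈ U, t ∉ B → ∃ r > 0, QmOn (ball t r) E) : QmOn U E := by
  have h1 : U \ B ⊆ thinAt E ∪ thinAt Eᶜ := by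
    rintro t ⟨ht, htB⟩
    obtain ⟨r, hr, h | h⟩ := h t ht htB
    · exact Or.inl ⟨r, hr, h⟩
    · exact Or.inr ⟨r, hr, h⟩
  have h2 : U ⊆ thinAt E ∪ thinAt Eᶜ := by
    intro u hu
    obtain ⟨r, hr, hball⟩ := Metric.isOpen_iff.1 hU u hu
    have hconn := (ball_sdiff_connected u hr hB).isPreconnected
    have hsub : ball u r \ B ⊆ thinAt E ∪ thinAt Eᶜ :=
      (sdiff_subset_sdiff_left hball).trans h1
    rcases hconn.subset_or_subset (isOpen_thinAt E) (isOpen_thinAt Eᶜ) (thinAt_disjoint E) hsub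
      with h3 | h3
    · left
      refine ⟨r, hr, ((countable_of_subset_thinAt h3).union hB).mono ?_⟩
      rintro x ⟨hx, hxE⟩
      by_cases hxB : x ∈ B
      · exact Or.inr hxB
      · exact Or.inl ⟨⟨hx, hxB⟩, hxE⟩
    · right
      refine ⟨r, hr, ((countable_of_subset_thinAt h3).union hB).mono ?_⟩
      rintro x ⟨hx, hxE⟩
      by_cases hxB : x ∈ B
      · exact Or.inr hxB
      · exact Or.inl ⟨⟨hx, hxB⟩, hxE⟩
  rcases hUc.subset_or_subset (isOpen_thinAt E) (isOpen_thinAt Eᶜ) (thinAt_disjoint E) h2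
    with h3 | h3
  · exact Or.inl (countable_of_subset_thinAt h3)
  · exact Or.inr (countable_of_subset_thinAt h3)

end Pool.Agent.TH735.QM
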