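import Pool.Agent.TH735.QM.Alg

/-!
Families of sets whose cardinality is constant outside of a countable set of parameters.
-/

set_option autoImplicit false

namespace Pool.Agent.TH735.QM

open Set Filter Topology Complex Polynomial Metric Cardinal

/-- the cardinality of `{x | T t x}` is the same for all `t ∈ U` outside of a countable set -/
def GenCard (U : Set ℂ) (T : ℂ → ℂ → Prop) : Prop :=
  ∃ B : Set ℂ, B.Countable ∧ ∀ t ∈ U, t ∉ B → ∀ t' ∈ U, t' ∉ B →
    #({x | T t x} : Set ℂ) = #({x | T t' x} : Set ℂ)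

theorem GenCard.qm {U : Set ℂ} {T : ℂ → ℂ → Prop} (h : GenCard U T) (κ : Cardinal.{0}) :
    QmOn U {t | κ ≤ #({x | T t x} : Set ℂ)} := by
  obtain ⟨B, hB, h⟩ := h
  by_cases hUB : ∃ t₀ ∈ U, t₀ ∉ B
  · obtain ⟨t₀, ht₀, ht₀B⟩ := hUB
    refine (QmOn.const (κ ≤ #({x | T t₀ x} : Set ℂ))).congr hB ?_
    intro t ht htB
    simp only [Set.mem_ofPred_eq]
    rw [h t ht htB t₀ ht₀ ht₀B]
  · push Not at hUB
    left
    exact hB.mono fun t ht => hUB t ht.1

theorem generic_set {U : Set ℂ} {ι : Type*} [Countable ι] {S : ι → Set ℂ}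
    (h : ∀ i, QmOn U (S i)) : ∃ B : Set ℂ, B.Countable ∧ ∀ t ∈ U, t ∉ B → ∀ t' ∈ U, t' ∉ B →
      ∀ i, (t ∈ S i ↔ t' ∈ S i) := by
  classical
  refine ⟨⋃ i, if (U ∩ S i).Countable then U ∩ S i else U \ S i, ?_, ?_⟩
  · refine countable_iUnion fun i => ?_
    by_cases hc : (U ∩ S i).Countable
    · rw [if_pos hc]; exact hc
    · rw [if_neg hc]; exact (h i).resolve_left hc
  · intro t ht htB t' ht' htB' i
    simp only [mem_iUnion, not_exists] at htB htB'
    have h1 := htB i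
    have h2 := htB' i
    by_cases hc : (U ∩ S i).Countable
    · rw [if_pos hc] at h1 h2
      exact ⟨fun h => absurd ⟨ht, h⟩ h1, fun h => absurd ⟨ht', h⟩ h2⟩
    · rw [if_neg hc] at h1 h2
      refine ⟨fun _ => ?_, fun _ => ?_⟩
      · by_contra h'; exact h2 ⟨ht', h'⟩
      · by_contra h'; exact h1 ⟨ht, h'⟩

theorem genCard_of_encard {U : Set ℂ} {T : ℂ → ℂ → Prop}
    (h : ∀ k : ℕ, QmOn U {t | (k : ℕ∞) ≤ {x | T t x}.encard}) {B₀ : Set ℂ} (hB₀ : B₀.Countable)
    (hc : ∀ t ∈ U, t ∉ B₀ → {x | T t x}.Countable) : GenCard U T := by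
  obtain ⟨B, hB, hgen⟩ := generic_set h
  refine ⟨B ∪ B₀, hB.union hB₀, ?_⟩
  intro t ht htB t' ht' htB'
  have e : {x | T t x}.encard = {x | T t' x}.encard := by
    apply ENat.eq_of_forall_natCast_le_iff
    intro k
    exact hgen t ht (fun h => htB (Or.inl h)) t' ht' (fun h => htB' (Or.inl h)) k
  rw [Set.encard, Set.encard, ENat.card, ENat.card] at e
  refine Cardinal.toENat_injOn ?_ ?_ e
  · exact Cardinal.le_aleph0_iff_set_countable.2 (hc t ht fun h => htB (Or.inr h))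
  · exact Cardinal.le_aleph0_iff_set_countable.2 (hc t' ht' fun h => htB' (Or.inr h))

theorem GenCard.alg {U : Set ℂ} (hU : IsOpen U) (hUc : IsPreconnected U) {P : ℂ → ℂ[X]} {d : ℕ}
    (hd : ∀ t ∈ U, (P t).natDegree ≤ d)
    (hP : ∀ j, AnalyticOnNhd ℂ (fun t => (P t).coeff j) U) {T : ℂ → ℂ → Prop} (hT : LQ U T) :
    GenCard U fun t x => (P t ≠ 0 ∧ (P t).eval x = 0) ∧ T t x := by
  refine genCard_of_encard (alg_family hU hUc hd hP hT) countable_empty ?_
  intro t _ _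
  by_cases h0 : P t = 0
  · convert countable_empty using 1
    ext x; simp [h0]
  · refine ((P t).roots.toFinset.finite_toSet.countable).mono ?_
    rintro z ⟨⟨-, hz⟩, -⟩
    rw [Finset.mem_coe, Multiset.mem_toFinset, mem_roots h0]
    exact hz

theorem GenCard.congr {U : Set ℂ} {T T' : ℂ → ℂ → Prop} (h : GenCard U T) {B₀ : Set ℂ}
    (hB₀ : B₀.Countable) (hTT' : ∀ t ∈ U, t ∉ B₀ → ∀ x, (T t x ↔ T' t x)) : GenCard U T' := by
  obtain ⟨B, hB, h⟩ := h
  refine ⟨B ∪ B₀, hB.union hB₀, ?_⟩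
  intro t ht htB t' ht' htB'
  have e1 : {x | T' t x} = {x | T t x} := by
    ext x; exact (hTT' t ht (fun h => htB (Or.inr h)) x).symm
  have e2 : {x | T' t' x} = {x | T t' x} := by
    ext x; exact (hTT' t' ht' (fun h => htB' (Or.inr h)) x).symm
  rw [e1, e2]
  exact h t ht (fun h => htB (Or.inl h)) t' ht' (fun h => htB' (Or.inl h))

theorem GenCard.const {U : Set ℂ} (X : Set ℂ) : GenCard U fun _ x => x ∈ X :=
  ⟨∅, countable_empty, fun _ _ _ _ _ _ => rfl⟩

theorem genCard_countable {U : Set ℂ} (hU : IsOpen U) (hUc : IsPreconnected U)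
    {T : ℂ → ℂ → Prop} (hT : LQ U T) {X : Set ℂ} (hX : X.Countable) :
    GenCard U fun t x => x ∈ X ∧ T t x := by
  have := hX.to_subtype
  obtain ⟨B, hB, h⟩ := generic_set (U := U) (ι := X) (S := fun x => {t | T t x}) (fun x =>
    hT U Subset.rfl hU hUc (fun _ => (x : ℂ)) (fun _ _ => analyticAt_const))
  refine ⟨B, hB, ?_⟩
  intro t ht htB t' ht' htB'
  have e : {x | x ∈ X ∧ T t x} = {x | x ∈ X ∧ T t' x} := by
    ext x
    simp only [Set.mem_ofPred_eq]
    refine and_congr_right fun hx => ?_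
    exact h t ht htB t' ht' htB' ⟨x, hx⟩
  rw [e]

/-- if the function of a datum is not identically zero then it is generically not identically
zero -/
theorem Data.generic_ne {U : Set ℂ} (hUc : IsPreconnected U) (D : Data U)
    (h : ∃ t ∈ U, ∃ x, D.F (t, x) ≠ 0) :
    ∃ B : Set ℂ, B.Countable ∧ ∀ t ∈ U, t ∉ B → ∃ x, D.F (t, x) ≠ 0 := by
  obtain ⟨t₀, ht₀, x₀, hx₀⟩ := h
  refine ⟨_, zeros_countableOn hUc (slice_left D.analytic x₀) ⟨t₀, ht₀, hx₀⟩, ?_⟩
  intro t ht htB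
  exact ⟨x₀, fun h => htB ⟨ht, h⟩⟩

theorem GenCard.data {U : Set ℂ} (hU : IsOpen U) (hUc : IsPreconnected U) (D : Data U)
    {X : Set ℂ} (hX : Qm X) : GenCard U fun t x => x ∈ X ∧ D.F (t, x) = 0 := by
  by_cases hne : ∃ t ∈ U, ∃ x, D.F (t, x) ≠ 0
  · obtain ⟨B, hB, h⟩ := D.generic_ne hUc hne
    refine genCard_of_encard (card_fin hU hUc D hX) hB ?_
    intro t ht htB
    exact (zeros_countable (slice_right D.analytic ht) (h t ht htB)).mono fun x hx => hx.2
  · push Not at hne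
    refine (GenCard.const X).congr countable_empty ?_
    intro t ht _ x
    simp [hne t ht x]

theorem LQ.not {U : Set ℂ} {T : ℂ → ℂ → Prop} (h : LQ U T) : LQ U fun t x => ¬ T t x :=
  fun W hW hWo hWc z hz => (h W hW hWo hWc z hz).compl

theorem LQ.and {U : Set ℂ} {T T' : ℂ → ℂ → Prop} (h : LQ U T) (h' : LQ U T') :
    LQ U fun t x => T t x ∧ T' t x :=
  fun W hW hWo hWc z hz => (h W hW hWo hWc z hz).inter (h' W hW hWo hWc z hz)

theorem LQ.or {U : Set ℂ} {T T' : ℂ → ℂ → Prop} (h : LQ U T) (h' : LQ U T') :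
    LQ U fun t x => T t x ∨ T' t x :=
  fun W hW hWo hWc z hz => (h W hW hWo hWc z hz).union (h' W hW hWo hWc z hz)

theorem LQ.all {U : Set ℂ} {ι : Type*} [Countable ι] {T : ι → ℂ → ℂ → Prop}
    (h : ∀ i, LQ U (T i)) : LQ U fun t x => ∀ i, T i t x := by
  intro W hW hWo hWc z hz
  refine (QmOn.iInter fun i => h i W hW hWo hWc z hz).congr' ?_
  intro t _
  simp

theorem LQ.ex {U : Set ℂ} {ι : Type*} [Countable ι] {T : ι → ℂ → ℂ → Prop}
    (h : ∀ i, LQ U (T i)) : LQ U fun t x => ∃ i, T i t x := by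
  intro W hW hWo hWc z hz
  refine (QmOn.iUnion fun i => h i W hW hWo hWc z hz).congr' ?_
  intro t _
  simp

theorem LQ.const {U : Set ℂ} (p : Prop) : LQ U fun _ _ => p := fun _ _ _ _ _ _ => QmOn.const p

theorem LQ.zero {U : Set ℂ} {F : ℂ × ℂ → ℂ} (hF : AnalyticOnNhd ℂ F (U ×ˢ Set.univ)) :
    LQ U fun t x => F (t, x) = 0 := by
  intro W hW _ hWc z hz
  refine zeros_QmOn hWc (f := fun t => F (t, z t)) ?_
  intro t ht
  exact (hF (t, z t) ⟨hW ht, mem_univ _⟩).comp (f := fun t => (t, z t))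
    (analyticAt_id.prod (hz t ht))

theorem LQ.qm {U : Set ℂ} {X : Set ℂ} (hX : Qm X) : LQ U fun _ x => x ∈ X := by
  have hcount : ∀ Y : Set ℂ, Y.Countable → LQ U fun _ x => x ∈ Y := by
    intro Y hY W _ _ hWc z hz
    have := hY.to_subtype
    refine (QmOn.iUnion (U := W) (ι := Y) (S := fun c => {t | z t - c = 0}) fun c =>
      zeros_QmOn hWc fun t ht => (hz t ht).sub analyticAt_const).congr' ?_
    intro t _
    simp only [mem_iUnion, Set.mem_ofPred_eq, sub_eq_zero]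
    constructor
    · rintro ⟨c, hc⟩
      rw [hc]; exact c.2
    · intro h
      exact ⟨⟨z t, h⟩, rfl⟩
  rcases hX with h | h
  · exact hcount X h
  · have := (hcount _ h).not
    intro W hW hWo hWc z hz
    refine (this W hW hWo hWc z hz).congr' ?_
    intro t _
    simp

theorem LQ.root {U : Set ℂ} (hU : IsOpen U) {P : ℂ → ℂ[X]} {d : ℕ}
    (hd : ∀ t ∈ U, (P t).natDegree ≤ d)
    (hP : ∀ j, AnalyticOnNhd ℂ (fun t => (P t).coeff j) U) :
    LQ U fun t x => P t ≠ 0 ∧ (P t).eval x = 0 := by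
  refine LQ.and ?_ ?_
  · intro W hW hWo hWc z hz
    exact ne_zero_Qm hWc P fun j t ht => hP j t (hW ht)
  · have h1 : AnalyticOnNhd ℂ (fun p : ℂ × ℂ => (P p.1).eval p.2) (U ×ˢ Set.univ) := by
      rintro ⟨t, x⟩ ⟨ht, -⟩
      have h1 : AnalyticAt ℂ (fun p : ℂ × ℂ =>
          ∑ j ∈ Finset.range (d + 1), (P p.1).coeff j * p.2 ^ j) (t, x) :=
        Finset.analyticAt_fun_sum _ fun j _ =>
          ((hP j t ht).comp (f := fun p : ℂ × ℂ => p.1) (x := (t, x)) analyticAt_fst).mul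
            (analyticAt_snd.pow j)
      refine h1.congr ?_
      have h2 : ∀ᶠ p : ℂ × ℂ in 𝓝 (t, x), p.1 ∈ U :=
        continuousAt_fst (hU.mem_nhds ht)
      filter_upwards [h2] with p hp
      rw [eval_eq_sum_range' (n := d + 1) (Nat.lt_succ_of_le (hd p.1 hp))]
    exact LQ.zero h1

theorem GenCard.data_ne {U : Set ℂ} (hU : IsOpen U) (hUc : IsPreconnected U) (D : Data U)
    {X : Set ℂ} (hX : Qm X) : GenCard U fun t x => x ∈ X ∧ D.F (t, x) ≠ 0 := by
  rcases hX with hX | hX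
  · exact genCard_countable hU hUc (LQ.zero D.analytic).not hX
  · by_cases hne : ∃ t ∈ U, ∃ x, D.F (t, x) ≠ 0
    · obtain ⟨B, hB, h⟩ := D.generic_ne hUc hne
      refine ⟨B, hB, ?_⟩
      have key : ∀ t ∈ U, t ∉ B → #({x | x ∈ X ∧ D.F (t, x) ≠ 0} : Set ℂ) = #ℂ := by
        intro t ht htB
        have h1 : ({x | x ∈ X ∧ D.F (t, x) ≠ 0} : Set ℂ)ᶜ.Countable := by
          refine (hX.union (zeros_countable (slice_right D.analytic ht) (h t ht htB))).mono ?_
          intro x hx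
          by_cases hxX : x ∈ X
          · right
            by_contra h0
            exact hx ⟨hxX, h0⟩
          · exact Or.inl hxX
        have h2 : #(({x | x ∈ X ∧ D.F (t, x) ≠ 0} : Set ℂ)ᶜ : Set ℂ) < #ℂ := by
          refine lt_of_le_of_lt (Cardinal.le_aleph0_iff_set_countable.2 h1) ?_
          rw [Cardinal.mk_complex]
          exact Cardinal.aleph0_lt_continuum
        have h3 := Cardinal.mk_compl_of_infinite _ h2
        rwa [compl_compl] at h3
      intro t ht htB t' ht' htB'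
      rw [key t ht htB, key t' ht' htB']
    · push Not at hne
      refine (GenCard.const (∅ : Set ℂ)).congr countable_empty ?_
      intro t ht _ x
      simp [hne t ht x]

theorem GenCard.or {U : Set ℂ} {T T' : ℂ → ℂ → Prop} (h : GenCard U T) (h' : GenCard U T')
    (hd : ∀ t x, T t x → ¬ T' t x) : GenCard U fun t x => T t x ∨ T' t x := by
  obtain ⟨B, hB, h⟩ := h
  obtain ⟨B', hB', h'⟩ := h'
  refine ⟨B ∪ B', hB.union hB', ?_⟩
  have key : ∀ t, #({x | T t x ∨ T' t x} : Set ℂ) =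
      #({x | T t x} : Set ℂ) + #({x | T' t x} : Set ℂ) := by
    intro t
    have : ({x | T t x ∨ T' t x} : Set ℂ) = {x | T t x} ∪ {x | T' t x} := by
      ext x; simp
    rw [this, Cardinal.mk_union_of_disjoint]
    rw [Set.disjoint_left]
    intro x hx hx'
    exact hd t x hx hx'
  intro t ht htB t' ht' htB'
  rw [key, key, h t ht (fun h => htB (Or.inl h)) t' ht' (fun h => htB' (Or.inl h)),
    h' t ht (fun h => htB (Or.inr h)) t' ht' (fun h => htB' (Or.inr h))]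

theorem GenCard.fin {U : Set ℂ} {ι : Type*} [Finite ι] {T : ι → ℂ → ℂ → Prop}
    (h : ∀ i, GenCard U (T i)) (hd : ∀ i j, i ≠ j → ∀ t x, T i t x → ¬ T j t x) :
    GenCard U fun t x => ∃ i, T i t x := by
  classical
  have : Fintype ι := Fintype.ofFinite ι
  have key : ∀ s : Finset ι, GenCard U fun t x => ∃ i ∈ s, T i t x := by
    intro s
    induction s using Finset.induction_on with
    | empty =>
      refine (GenCard.const (∅ : Set ℂ)).congr countable_empty ?_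
      intro t _ _ x
      simp
    | insert a s ha ih =>
      refine ((h a).or ih ?_).congr countable_empty ?_
      · rintro t x hx ⟨i, hi, hx'⟩
        exact hd a i (fun h => ha (h ▸ hi)) t x hx hx'
      · intro t _ _ x
        simp
  refine (key Finset.univ).congr countable_empty ?_
  intro t _ _ x
  simp

/-- modification at the roots of a polynomial -/
theorem GenCard.patch {U : Set ℂ} (hU : IsOpen U) (hUc : IsPreconnected U) {P : ℂ → ℂ[X]} {d : ℕ}
    (hd : ∀ t ∈ U, (P t).natDegree ≤ d)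
    (hP : ∀ j, AnalyticOnNhd ℂ (fun t => (P t).coeff j) U) {T Y : ℂ → ℂ → Prop} (hT : LQ U T)
    (hY : LQ U Y) (hYg : GenCard U Y) {B₀ : Set ℂ} (hB₀ : B₀.Countable)
    (h : ∀ t ∈ U, t ∉ B₀ → ∀ x, ¬ (P t ≠ 0 ∧ (P t).eval x = 0) → (T t x ↔ Y t x)) :
    GenCard U T := by
  classical
  obtain ⟨B₁, hB₁, h₁⟩ := GenCard.alg hU hUc hd hP hT
  obtain ⟨B₂, hB₂, h₂⟩ := GenCard.alg hU hUc hd hP hY
  obtain ⟨B₃, hB₃, h₃⟩ := hYg
  refine ⟨B₀ ∪ (B₁ ∪ (B₂ ∪ B₃)), hB₀.union (hB₁.union (hB₂.union hB₃)), ?_⟩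
  have split : ∀ (S : ℂ → ℂ → Prop) (t : ℂ), #({x | S t x} : Set ℂ) =
      #({x | ¬ (P t ≠ 0 ∧ (P t).eval x = 0) ∧ S t x} : Set ℂ) +
      #({x | (P t ≠ 0 ∧ (P t).eval x = 0) ∧ S t x} : Set ℂ) := by
    intro S t
    rw [← Cardinal.mk_union_of_disjoint]
    · congr 1
      have : ({x | S t x} : Set ℂ) = {x | ¬ (P t ≠ 0 ∧ (P t).eval x = 0) ∧ S t x} ∪
          {x | (P t ≠ 0 ∧ (P t).eval x = 0) ∧ S t x} := by
        ext x
        simp only [Set.mem_ofPred_eq, mem_union]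
        tauto
      rw [← this]
    · rw [Set.disjoint_left]
      intro x hx hx'
      exact hx.1 hx'.1
  have hfin : ∀ t, #({x | (P t ≠ 0 ∧ (P t).eval x = 0) ∧ Y t x} : Set ℂ) < ℵ₀ := by
    intro t
    rw [Cardinal.lt_aleph0_iff_set_finite]
    by_cases h0 : P t = 0
    · convert Set.finite_empty using 1
      ext x; simp [h0]
    · refine ((P t).roots.toFinset.finite_toSet).subset ?_
      rintro z ⟨⟨-, hz⟩, -⟩
      rw [Finset.mem_coe, Multiset.mem_toFinset, mem_roots h0]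
      exact hz
  have hout : ∀ t ∈ U, t ∉ B₀ → ({x | ¬ (P t ≠ 0 ∧ (P t).eval x = 0) ∧ T t x} : Set ℂ) =
      {x | ¬ (P t ≠ 0 ∧ (P t).eval x = 0) ∧ Y t x} := by
    intro t ht htB
    ext x
    simp only [Set.mem_ofPred_eq]
    exact and_congr_right fun hx => h t ht htB x hx
  intro t ht htB t' ht' htB'
  simp only [mem_union, not_or] at htB htB'
  have e1 := h₁ t ht htB.2.1 t' ht' htB'.2.1
  have e2 := h₂ t ht htB.2.2.1 t' ht' htB'.2.2.1
  have e3 := h₃ t ht htB.2.2.2 t' ht' htB'.2.2.2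
  rw [split Y t, split Y t', e2] at e3
  have e4 := (Cardinal.add_right_inj_of_lt_aleph0 (hfin t')).1 e3
  rw [split T t, split T t', e1, hout t ht htB.1, hout t' ht' htB'.1, e4]

theorem LQ.CQ {m : ℕ} {U : Set ℂ} {γ : ℂ → (Fin m → ℂ)} (hγ : AnalyticOnNhd ℂ γ U)
    {X : Set (Fin (m + 1) → ℂ)} (hX : CQ (m + 1) X) :
    LQ U fun t x => (Fin.snoc (α := fun _ => ℂ) (γ t) x : Fin (m + 1) → ℂ) ∈ X := by
  intro W hW hWo hWc z hz
  refine hX W hWo hWc
    (fun t => (Fin.snoc (α := fun _ => ℂ) (γ t) (z t) : Fin (m + 1) → ℂ)) ?_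
  intro t ht
  rw [analyticAt_pi_iff]
  intro j
  refine Fin.lastCases ?_ (fun j => ?_) j
  · simp only [Fin.snoc_last]
    exact hz t ht
  · simp only [Fin.snoc_castSucc]
    exact analyticAt_pi_iff.1 (hγ t (hW ht)) j

end Pool.Agent.TH735.QM
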