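import Pool.Agent.TH735.QM.Roots

/-!
Algebraic quantifiers.
-/

set_option autoImplicit false

namespace Pool.Agent.TH735.QM

open Set Filter Topology Complex Polynomial Metric Cardinal

theorem generic_card {U : Set ℂ} (hU : IsOpen U) (hUc : IsPreconnected U) {P : ℂ → ℂ[X]} {d : ℕ}
    (hmon : ∀ t ∈ U, (P t).Monic) (hdeg : ∀ t ∈ U, (P t).natDegree = d)
    (hcoef : ∀ j, AnalyticOnNhd ℂ (fun t => (P t).coeff j) U) :
    ∃ (r : ℕ) (B : Set ℂ), B.Countable ∧ ∀ t ∈ U, t ∉ B → ∃ ρ > 0, ball t ρ ⊆ U ∧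
      ∀ t' ∈ ball t ρ, (P t').roots.toFinset.card = r := by
  classical
  have hbd : ∃ r, ∀ t ∈ U, (P t).roots.toFinset.card ≤ r := by
    refine ⟨d, fun t ht => ?_⟩
    calc (P t).roots.toFinset.card ≤ Multiset.card (P t).roots := Multiset.toFinset_card_le _
      _ ≤ (P t).natDegree := card_roots' _
      _ = d := hdeg t ht
  set r := Nat.find hbd with hr
  have hle : ∀ t ∈ U, (P t).roots.toFinset.card ≤ r := Nat.find_spec hbd
  rcases Nat.eq_zero_or_pos r with h0 | hpos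
  · refine ⟨0, ∅, countable_empty, fun t ht _ => ?_⟩
    obtain ⟨ρ, hρ, hsub⟩ := Metric.isOpen_iff.1 hU t ht
    refine ⟨ρ, hρ, hsub, fun t' ht' => ?_⟩
    have := hle t' (hsub ht')
    omega
  · have hex : ∃ t₁ ∈ U, ¬ (P t₁).roots.toFinset.card ≤ r - 1 := by
      by_contra hcon
      push Not at hcon
      have := Nat.find_min' hbd hcon
      omega
    have hM := sys_analytic (U := U) (r - 1) d P hcoef
    have hinj : ∀ t ∈ U, ¬ (P t).roots.toFinset.card ≤ r - 1 →
        ∀ v, (sys (r - 1) d (P t)).mulVec v = 0 → v = 0 := by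
      intro t ht hc v hv
      by_contra hv0
      apply hc
      rw [card_roots_le_iff _ (hmon t ht).ne_zero, ← sys_iff (r - 1) d (P t) (hdeg t ht).le]
      exact ⟨v, hv0, hv⟩
    have hback : ∀ t ∈ U, (∀ v, (sys (r - 1) d (P t)).mulVec v = 0 → v = 0) →
        (P t).roots.toFinset.card = r := by
      intro t ht h
      have h1 : ¬ (P t).roots.toFinset.card ≤ r - 1 := by
        rw [card_roots_le_iff _ (hmon t ht).ne_zero, ← sys_iff (r - 1) d (P t) (hdeg t ht).le]
        rintro ⟨v, hv0, hv⟩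
        exact hv0 (h v hv)
      have := hle t ht
      omega
    obtain ⟨t₁, ht₁, hc₁⟩ := hex
    obtain ⟨f, hf, hf1, hf2⟩ := noninj_aux (fun t => sys (r - 1) d (P t)) hM (hinj t₁ ht₁ hc₁)
    refine ⟨r, U ∩ {t | f t = 0}, zeros_countableOn hUc hf ⟨t₁, ht₁, hf1⟩, ?_⟩
    intro t ht htB
    have hft : f t ≠ 0 := fun h => htB ⟨ht, h⟩
    have h1 : ∀ᶠ t' in 𝓝 t, t' ∈ U ∧ f t' ≠ 0 := by
      have h2 : ∀ᶠ t' in 𝓝 t, t' ∈ U := hU.mem_nhds ht
      exact h2.and ((hf t ht).continuousAt.eventually_ne hft)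
    obtain ⟨ρ, hρ, hsub⟩ := Metric.mem_nhds_iff.1 h1
    refine ⟨ρ, hρ, fun t' ht' => (hsub ht').1, fun t' ht' => ?_⟩
    exact hback t' (hsub ht').1 (hf2 t' (hsub ht').2)

/-- all sections of `T` by analytic functions on connected open subsets of `U` are countable or
cocountable -/
def LQ (U : Set ℂ) (T : ℂ → ℂ → Prop) : Prop :=
  ∀ W ⊆ U, IsOpen W → IsPreconnected W → ∀ z : ℂ → ℂ, AnalyticOnNhd ℂ z W → QmOn W {t | T t (z t)}

theorem alg_monic {U : Set ℂ} (hU : IsOpen U) (hUc : IsPreconnected U) {P : ℂ → ℂ[X]} {d : ℕ}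
    (hmon : ∀ t ∈ U, (P t).Monic) (hdeg : ∀ t ∈ U, (P t).natDegree = d)
    (hcoef : ∀ j, AnalyticOnNhd ℂ (fun t => (P t).coeff j) U) {T : ℂ → ℂ → Prop} (hT : LQ U T)
    (k : ℕ) :
    QmOn U {t | (k : ℕ∞) ≤ {z | (P t).eval z = 0 ∧ T t z}.encard} := by
  classical
  obtain ⟨r, B, hB, hcard⟩ := generic_card hU hUc hmon hdeg hcoef
  refine QmOn.of_local hU hUc hB ?_
  intro t₀ ht₀ ht₀B
  obtain ⟨ρ₁, hρ₁, hsub₁, hcard₁⟩ := hcard t₀ ht₀ ht₀B
  obtain ⟨ρ, hρ, hsub, z, hz, hzr⟩ := local_roots (W := ball t₀ ρ₁) isOpen_ball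
    (fun t ht => hmon t (hsub₁ ht)) (fun t ht => hdeg t (hsub₁ ht))
    (fun j t ht => hcoef j t (hsub₁ ht)) hcard₁ (mem_ball_self hρ₁)
  refine ⟨ρ, hρ, ?_⟩
  have hconn : IsPreconnected (ball t₀ ρ) := (convex_ball t₀ ρ).isPreconnected
  have hsec : ∀ i, QmOn (ball t₀ ρ) {t | T t (z i t)} := fun i =>
    hT _ (hsub.trans hsub₁) isOpen_ball hconn (z i) (hz i)
  have key : QmOn (ball t₀ ρ) (⋃ J : {J : Finset (Fin r) // J.card = k}, ⋂ i : J.1,
      {t | T t (z i t)}) :=
    QmOn.iUnion fun J => QmOn.iInter fun i => hsec i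
  refine key.congr' ?_
  intro t ht
  obtain ⟨hinj, hroots⟩ := hzr t ht
  set I : Finset (Fin r) := Finset.univ.filter fun i => T t (z i t) with hI
  have hset : {w | (P t).eval w = 0 ∧ T t w} = ((I.image fun i => z i t : Finset ℂ) : Set ℂ) := by
    ext w
    simp only [Set.mem_ofPred_eq, Finset.coe_image, mem_image, Finset.mem_coe, hI,
      Finset.mem_filter, Finset.mem_univ, true_and]
    rw [hroots w]
    constructor
    · rintro ⟨⟨i, rfl⟩, hi⟩
      exact ⟨i, hi, rfl⟩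
    · rintro ⟨i, hi, rfl⟩
      exact ⟨⟨i, rfl⟩, hi⟩
  simp only [mem_iUnion, mem_iInter, Set.mem_ofPred_eq]
  rw [hset, Set.encard_coe_eq_coe_finsetCard, Finset.card_image_of_injective _ hinj]
  constructor
  · rintro ⟨J, hJ⟩
    have h1 : J.1 ⊆ I := by
      intro i hi
      rw [hI, Finset.mem_filter]
      exact ⟨Finset.mem_univ _, hJ ⟨i, hi⟩⟩
    have h2 := Finset.card_le_card h1
    rw [J.2] at h2
    exact_mod_cast h2
  · intro h
    have h1 : k ≤ I.card := by exact_mod_cast h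
    obtain ⟨J, hJI, hJ⟩ := Finset.exists_subset_card_eq h1
    refine ⟨⟨J, hJ⟩, fun i => ?_⟩
    have := hJI i.2
    rw [hI, Finset.mem_filter] at this
    exact this.2

theorem QmOn.const {U : Set ℂ} (p : Prop) : QmOn U {_t | p} := by
  by_cases hp : p
  · right
    convert countable_empty using 1
    ext t; simp [hp]
  · left
    convert countable_empty using 1
    ext t; simp [hp]

theorem LQ.mono {U V : Set ℂ} (h : V ⊆ U) {T : ℂ → ℂ → Prop} (hT : LQ U T) : LQ V T :=
  fun W hW => hT W (hW.trans h)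

/-- roots of a polynomial family, not necessarily monic -/
theorem alg_family {U : Set ℂ} (hU : IsOpen U) (hUc : IsPreconnected U) {P : ℂ → ℂ[X]} {d : ℕ}
    (hd : ∀ t ∈ U, (P t).natDegree ≤ d)
    (hP : ∀ j, AnalyticOnNhd ℂ (fun t => (P t).coeff j) U) {T : ℂ → ℂ → Prop} (hT : LQ U T)
    (k : ℕ) :
    QmOn U {t | (k : ℕ∞) ≤ {z | (P t ≠ 0 ∧ (P t).eval z = 0) ∧ T t z}.encard} := by
  classical
  by_cases hall : ∀ t ∈ U, P t = 0
  · refine (QmOn.const (k = 0)).congr' ?_
    intro t ht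
    have hset : {z | (P t ≠ 0 ∧ (P t).eval z = 0) ∧ T t z} = ∅ := by
      ext z
      simp [hall t ht]
    simp only [Set.mem_ofPred_eq]
    rw [hset]
    simp
  · push Not at hall
    -- the largest index which is generically nonzero
    have hex : ∃ e, ∀ j, e < j → ∀ t ∈ U, (P t).coeff j = 0 :=
      ⟨d, fun j hj t ht => coeff_eq_zero_of_natDegree_lt (lt_of_le_of_lt (hd t ht) hj)⟩
    set e := Nat.find hex with he
    have hegt : ∀ j, e < j → ∀ t ∈ U, (P t).coeff j = 0 := Nat.find_spec hex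
    have hene : ∃ t ∈ U, (P t).coeff e ≠ 0 := by
      by_contra hcon
      push Not at hcon
      obtain ⟨t₁, ht₁, hPt₁⟩ := hall
      rcases Nat.eq_zero_or_pos e with h0 | hpos
      · apply hPt₁
        ext j
        rw [coeff_zero]
        rcases Nat.eq_zero_or_pos j with hj | hj
        · rw [hj, ← h0]; exact hcon t₁ ht₁
        · exact hegt j (by omega) t₁ ht₁
      · have := Nat.find_min' hex (m := e - 1) (by
          intro j hj t ht
          rcases (show e ≤ j by omega).eq_or_lt with h | h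
          · rw [← h]; exact hcon t ht
          · exact hegt j h t ht)
        omega
    have hBc : (U ∩ {t | (P t).coeff e = 0}).Countable := zeros_countableOn hUc (hP e) hene
    refine QmOn.of_local hU hUc hBc ?_
    intro t₀ ht₀ ht₀B
    have hne₀ : (P t₀).coeff e ≠ 0 := fun h => ht₀B ⟨ht₀, h⟩
    have h1 : ∀ᶠ t' in 𝓝 t₀, t' ∈ U ∧ (P t').coeff e ≠ 0 := by
      have h2 : ∀ᶠ t' in 𝓝 t₀, t' ∈ U := hU.mem_nhds ht₀
      exact h2.and ((hP e t₀ ht₀).continuousAt.eventually_ne hne₀)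
    obtain ⟨ρ, hρ, hsub⟩ := Metric.mem_nhds_iff.1 h1
    have hsubU : ball t₀ ρ ⊆ U := fun t ht => (hsub ht).1
    have hne : ∀ t ∈ ball t₀ ρ, (P t).coeff e ≠ 0 := fun t ht => (hsub ht).2
    refine ⟨ρ, hρ, ?_⟩
    have hconn : IsPreconnected (ball t₀ ρ) := (convex_ball t₀ ρ).isPreconnected
    have hdegP : ∀ t ∈ ball t₀ ρ, (P t).natDegree = e := by
      intro t ht
      apply le_antisymm
      · rw [natDegree_le_iff_coeff_eq_zero]
        exact fun j hj => hegt j hj t (hsubU ht)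
      · exact le_natDegree_of_ne_zero (hne t ht)
    have hP0 : ∀ t ∈ ball t₀ ρ, P t ≠ 0 := by
      intro t ht h
      apply hne t ht
      rw [h, coeff_zero]
    set P' : ℂ → ℂ[X] := fun t => Polynomial.C ((P t).coeff e)⁻¹ * P t with hP'
    have hmon : ∀ t ∈ ball t₀ ρ, (P' t).Monic := by
      intro t ht
      rw [Monic, leadingCoeff, hP', natDegree_C_mul (inv_ne_zero (hne t ht)), hdegP t ht,
        coeff_C_mul, inv_mul_cancel₀ (hne t ht)]
    have hdeg' : ∀ t ∈ ball t₀ ρ, (P' t).natDegree = e := by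
      intro t ht
      rw [hP', natDegree_C_mul (inv_ne_zero (hne t ht)), hdegP t ht]
    have hcoef : ∀ j, AnalyticOnNhd ℂ (fun t => (P' t).coeff j) (ball t₀ ρ) := by
      intro j t ht
      simp only [hP', coeff_C_mul]
      exact ((hP e t (hsubU ht)).inv (hne t ht)).mul (hP j t (hsubU ht))
    refine (alg_monic isOpen_ball hconn hmon hdeg' hcoef (hT.mono hsubU) k).congr' ?_
    intro t ht
    have hset : {z | (P' t).eval z = 0 ∧ T t z} =
        {z | (P t ≠ 0 ∧ (P t).eval z = 0) ∧ T t z} := by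
      ext z
      simp only [Set.mem_ofPred_eq]
      refine and_congr_left fun _ => ?_
      rw [hP', eval_mul, eval_C, mul_eq_zero]
      constructor
      · rintro (h | h)
        · exact absurd h (inv_ne_zero (hne t ht))
        · exact ⟨hP0 t ht, h⟩
      · exact fun h => Or.inr h.2
    simp only [Set.mem_ofPred_eq]
    rw [hset]

end Pool.Agent.TH735.QM
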