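import Pool.Agent.TH735.QM.Ex

/-!
Cardinality quantifiers.
-/

set_option autoImplicit false

namespace Pool.Agent.TH735.QM

open Set Filter Topology Complex Cardinal

theorem card_fin {U : Set ℂ} (hU : IsOpen U) (hUc : IsPreconnected U) (D : Data U) {X : Set ℂ}
    (hX : Qm X) (k : ℕ) : QmOn U {t | (k : ℕ∞) ≤ {z | z ∈ X ∧ D.F (t, z) = 0}.encard} := by
  classical
  rcases hX with hX | hX
  · have := hX.to_subtype
    have key : QmOn U (⋃ T : {T : Finset X // T.card = k}, ⋂ z : T.1, {t | D.F (t, (z.1 : ℂ)) = 0}) := by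
      refine QmOn.iUnion fun T => QmOn.iInter fun z => ?_
      exact zeros_QmOn hUc (slice_left D.analytic _)
    refine key.congr' ?_
    intro t _
    simp only [mem_iUnion, mem_iInter, Set.mem_ofPred_eq]
    constructor
    · rintro ⟨T, hT⟩
      have h1 : ((T.1.map (Function.Embedding.subtype _) : Finset ℂ) : Set ℂ) ⊆
          {z | z ∈ X ∧ D.F (t, z) = 0} := by
        intro z hz
        simp only [Finset.coe_map, mem_image, Finset.mem_coe] at hz
        obtain ⟨w, hw, rfl⟩ := hz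
        exact ⟨w.2, hT ⟨w, hw⟩⟩
      have h2 := Set.encard_le_encard h1
      rw [Set.encard_coe_eq_coe_finsetCard, Finset.card_map, T.2] at h2
      exact h2
    · intro h
      obtain ⟨W, hW, hWc⟩ := Set.exists_subset_encard_eq h
      have hWfin : W.Finite := by
        rw [← Set.encard_lt_top_iff, hWc]
        exact ENat.natCast_lt_top k
      have hWX : ∀ z ∈ hWfin.toFinset, z ∈ X := fun z hz => (hW (hWfin.mem_toFinset.1 hz)).1
      refine ⟨⟨hWfin.toFinset.subtype (· ∈ X), ?_⟩, ?_⟩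
      · rw [Finset.card_subtype, Finset.filter_true_of_mem hWX]
        have := hWfin.encard_eq_coe_toFinset_card
        rw [hWc] at this
        exact_mod_cast this.symm
      · rintro ⟨z, hz⟩
        rw [Finset.mem_subtype, hWfin.mem_toFinset] at hz
        exact (hW hz).2
  · rcases k with _ | j
    · right
      convert countable_empty using 1
      ext t
      simp
    · have h1 := (count_main hU hUc D hX j).compl
      refine h1.congr' ?_
      intro t _
      simp only [mem_compl_iff, Set.mem_ofPred_eq, not_le, not_not]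
      rw [show ((j + 1 : ℕ) : ℕ∞) = (j : ℕ∞) + 1 by push_cast; rfl]
      exact (ENat.add_one_le_iff (ENat.natCast_ne_top j)).symm

theorem card_data {U : Set ℂ} (hU : IsOpen U) (hUc : IsPreconnected U) (D : Data U) {X : Set ℂ}
    (hX : Qm X) (κ : Cardinal.{0}) :
    QmOn U {t | κ ≤ #({z | z ∈ X ∧ D.F (t, z) = 0} : Set ℂ)} := by
  have hfin : ∀ k : ℕ, QmOn U {t | (k : Cardinal) ≤ #({z | z ∈ X ∧ D.F (t, z) = 0} : Set ℂ)} := by
    intro k
    refine (card_fin hU hUc D hX k).congr' ?_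
    intro t _
    simp only [Set.mem_ofPred_eq, Set.encard, ENat.card]
    rw [Cardinal.natCast_le_toENat]
  rcases lt_or_ge κ ℵ₀ with h | h
  · obtain ⟨k, rfl⟩ := Cardinal.lt_aleph0.1 h
    exact hfin k
  rcases h.eq_or_lt with h | h
  · rw [← h]
    refine (QmOn.iInter hfin).congr' ?_
    intro t _
    simp only [mem_iInter, Set.mem_ofPred_eq]
    exact Cardinal.aleph0_le.symm
  · by_cases hne : ∃ t₀ ∈ U, ∃ z₀, D.F (t₀, z₀) ≠ 0
    · obtain ⟨t₀, ht₀, z₀, hz₀⟩ := hne
      left
      refine (zeros_countableOn hUc (slice_left D.analytic z₀) ⟨t₀, ht₀, hz₀⟩).mono ?_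
      rintro t ⟨htU, ht⟩
      refine ⟨htU, ?_⟩
      by_contra hcon
      have h1 : {z | D.F (t, z) = 0}.Countable :=
        zeros_countable (slice_right D.analytic htU) ⟨z₀, hcon⟩
      have h2 : #({z | z ∈ X ∧ D.F (t, z) = 0} : Set ℂ) ≤ ℵ₀ :=
        (Cardinal.le_aleph0_iff_set_countable).2 (h1.mono fun z hz => hz.2)
      exact absurd (lt_of_lt_of_le h (le_trans ht h2)) (lt_irrefl _)
    · push Not at hne
      by_cases hκ : κ ≤ #X
      · right
        convert countable_empty using 1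
        ext t
        simp only [Set.mem_sdiff, Set.mem_ofPred_eq, mem_empty_iff_false, iff_false, not_and,
          not_not]
        intro ht
        have : ({z | z ∈ X ∧ D.F (t, z) = 0} : Set ℂ) = X := by
          ext z; simp [hne t ht z]
        rw [this]
        exact hκ
      · left
        convert countable_empty using 1
        ext t
        simp only [mem_inter_iff, Set.mem_ofPred_eq, mem_empty_iff_false, iff_false, not_and]
        intro ht
        have : ({z | z ∈ X ∧ D.F (t, z) = 0} : Set ℂ) = X := by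
          ext z; simp [hne t ht z]
        rw [this]
        exact hκ

/-- the slice of a countable Boolean combination, for one unknown -/
theorem Rect.slice_one {m : ℕ} {P : Set (Fin m → ℂ) → Prop} {Q : Set (Fin 1 → ℂ) → Prop}
    (hP : ∀ E, P E → CQ m E) (hQ : ∀ D, Q D → CQ 1 D) {R : Set ((Fin m → ℂ) × (Fin 1 → ℂ))}
    (hR : Rect P Q R) {U : Set ℂ} (hU : IsOpen U) (hUc : IsPreconnected U)
    {γ : ℂ → (Fin m → ℂ)} (hγ : AnalyticOnNhd ℂ γ U) :
    ∃ B : Set ℂ, B.Countable ∧ ∃ X : Set ℂ, Qm X ∧ ∀ t ∈ U, t ∉ B → ∀ z : ℂ,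
      ((γ t, fun _ => z) ∈ R ↔ z ∈ X) := by
  obtain ⟨B, hB, C, hC, hsl⟩ := hR.slices hP hQ hU hUc hγ
  by_cases hUB : ∃ t₀ ∈ U, t₀ ∉ B
  · obtain ⟨t₀, ht₀, ht₀B⟩ := hUB
    refine ⟨B, hB, {z | (γ t₀, fun _ => z) ∈ R}, ?_, ?_⟩
    · obtain ⟨z₀, hz₀⟩ := exists_not_mem (hC 0)
      by_cases h0 : (γ t₀, (fun _ => z₀ : Fin 1 → ℂ)) ∈ R
      · right
        refine (hC 0).mono ?_
        intro z hz
        by_contra hzC
        apply hz
        refine (hsl t₀ ht₀ ht₀B t₀ ht₀ ht₀B (fun _ => z) (fun _ => z₀) ?_).2 h0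
        intro i
        right
        rw [Subsingleton.elim i 0]
        exact ⟨hzC, hz₀⟩
      · left
        refine (hC 0).mono ?_
        intro z hz
        by_contra hzC
        apply h0
        refine (hsl t₀ ht₀ ht₀B t₀ ht₀ ht₀B (fun _ => z) (fun _ => z₀) ?_).1 hz
        intro i
        right
        rw [Subsingleton.elim i 0]
        exact ⟨hzC, hz₀⟩
    · intro t ht htB z
      exact hsl t ht htB t₀ ht₀ ht₀B (fun _ => z) (fun _ => z) (fun _ => Or.inl rfl)
  · push Not at hUB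
    exact ⟨B, hB, univ, Qm.univ, fun t ht htB => absurd (hUB t ht) htB⟩

theorem card_QmOn {m : ℕ} {F : (Fin m → ℂ) → (Fin 1 → ℂ) → ℂ} (hF : Adm m 1 F)
    {P : Set (Fin m → ℂ) → Prop} {Q : Set (Fin 1 → ℂ) → Prop}
    (hP : ∀ E, P E → CQ m E) (hQ : ∀ D, Q D → CQ 1 D) {R : Set ((Fin m → ℂ) × (Fin 1 → ℂ))}
    (hR : Rect P Q R) (κ : Cardinal.{0}) :
    CQ m {s | κ ≤ #({z : ℂ | F s (fun _ => z) = 0 ∧ (s, fun _ => z) ∈ R} : Set ℂ)} := by
  intro U hU hUc γ hγ
  obtain ⟨B, hB, X, hX, hsl⟩ := hR.slice_one hP hQ hU hUc hγ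
  obtain ⟨D, hD⟩ := hF.data hγ (δ := fun z _ => z) (fun z _ => analyticAt_pi_iff.2 fun _ =>
    analyticAt_id)
  refine (card_data hU hUc D hX κ).congr hB ?_
  intro t ht htB
  have : ({z | z ∈ X ∧ D.F (t, z) = 0} : Set ℂ) =
      {z : ℂ | F (γ t) (fun _ => z) = 0 ∧ (γ t, fun _ => z) ∈ R} := by
    ext z
    simp only [Set.mem_ofPred_eq]
    rw [hD, hsl t ht htB z]
    exact and_comm
  simp only [Set.mem_ofPred_eq, mem_preimage]
  rw [this]

end Pool.Agent.TH735.QM
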