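import Pool.Agent.TH735.QM.PolySys

/-!
Closure properties of the sets all of whose analytic curve sections are countable or cocountable.
-/

set_option autoImplicit false

namespace Pool.Agent.TH735.QM

open Set Filter Topology Complex Cardinal

theorem star_thick_ne {m n : ℕ} {F : (Fin m → ℂ) → (Fin n → ℂ) → ℂ} (hF : Adm m n F) {U : Set ℂ}
    (hUc : IsPreconnected U) {γ : ℂ → (Fin m → ℂ)} (hγ : AnalyticOnNhd ℂ γ U)
    (D : Set (Fin n → ℂ)) : QmOn U {t | ∃ x ∈ D, F (γ t) x ≠ 0} := by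
  by_cases hne : ∃ t ∈ U, ∃ x ∈ D, F (γ t) x ≠ 0
  · obtain ⟨t₀, ht₀, x₀, hx₀, h0⟩ := hne
    right
    have hx0an : AnalyticOnNhd ℂ (fun t => F (γ t) x₀) U := by
      obtain ⟨D', hD'⟩ := hF.data hγ (δ := fun _ => x₀) (fun _ _ => analyticAt_const)
      have h1 := slice_left D'.analytic 0
      intro t ht
      refine (h1 t ht).congr (Filter.Eventually.of_forall fun s => ?_)
      exact hD' s 0
    refine (zeros_countableOn hUc hx0an ⟨t₀, ht₀, h0⟩).mono ?_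
    rintro t ⟨htU, ht⟩
    refine ⟨htU, ?_⟩
    by_contra h
    exact ht ⟨x₀, hx₀, h⟩
  · left
    push Not at hne
    convert countable_empty using 1
    ext t
    simp only [mem_inter_iff, Set.mem_ofPred_eq, mem_empty_iff_false, iff_false, not_and]
    rintro ht ⟨x, hx, h⟩
    exact h (hne t ht x hx)

theorem ex_ne_CQ {m n r : ℕ} {F : (Fin m → ℂ) → (Fin n → ℂ) → ℂ} (hF : Adm m n F)
    (L : (Fin n → ℂ) →ᵃ[ℂ] (Fin r → ℂ)) (N : ℕ → (Fin n → ℂ) → ℂ)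
    {P : Set (Fin m → ℂ) → Prop} {Q : Set (Fin 1 → ℂ) → Prop}
    (hP : ∀ E, P E → CQ m E) (hQ : ∀ D, Q D → CQ 1 D) {R : Set ((Fin m → ℂ) × (Fin r → ℂ))}
    (hR : Rect P Q R) :
    CQ m {s | ∃ x, F s x ≠ 0 ∧ (∀ j, N j x ≠ 0) ∧ (s, L x) ∈ R} := by
  intro U hU hUc γ hγ
  obtain ⟨B, hB, C, hC, hsl⟩ := hR.slices hP hQ hU hUc hγ
  by_cases hUB : ∃ t₀ ∈ U, t₀ ∉ B
  · obtain ⟨t₀, ht₀, ht₀B⟩ := hUB
    refine (star_thick_ne hF hUc hγ {x | (∀ j, N j x ≠ 0) ∧ (γ t₀, L x) ∈ R}).congr hB ?_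
    intro t ht htB
    simp only [Set.mem_ofPred_eq, mem_preimage]
    refine exists_congr fun x => ?_
    rw [hsl t ht htB t₀ ht₀ ht₀B (L x) (L x) (fun i => Or.inl rfl)]
    tauto
  · push Not at hUB
    left
    exact hB.mono fun t ht => hUB t ht.1

/-- the condition that `z` is a root of the nonzero polynomial with coefficients `a j s` -/
def IsAlg {m d : ℕ} (a : Fin (d + 1) → (Fin m → ℂ) → ℂ) (s : Fin m → ℂ) (z : ℂ) : Prop :=
  (∃ j, a j s ≠ 0) ∧ ∑ j, a j s * z ^ (j : ℕ) = 0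

open Polynomial in
theorem isAlg_family {m d : ℕ} {a : Fin (d + 1) → (Fin m → ℂ) → ℂ}
    (ha : ∀ j, AnalyticOnNhd ℂ (a j) Set.univ) {U : Set ℂ} {γ : ℂ → (Fin m → ℂ)}
    (hγ : AnalyticOnNhd ℂ γ U) :
    ∃ P : ℂ → ℂ[X], (∀ t ∈ U, (P t).natDegree ≤ d) ∧
      (∀ j, AnalyticOnNhd ℂ (fun t => (P t).coeff j) U) ∧
      ∀ t z, (P t ≠ 0 ∧ (P t).eval z = 0 ↔ IsAlg a (γ t) z) := by
  classical
  refine ⟨fun t => ∑ j : Fin (d + 1), Polynomial.C (a j (γ t)) * Polynomial.X ^ (j : ℕ), ?_, ?_,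
    ?_⟩
  · intro t _
    refine natDegree_sum_le_of_forall_le _ _ fun i _ => ?_
    refine (natDegree_C_mul_X_pow_le _ _).trans ?_
    omega
  · intro j t ht
    simp only [finsetSum_coeff, coeff_C_mul]
    exact Finset.analyticAt_fun_sum _ fun i _ =>
      ((ha i (γ t) (mem_univ _)).comp (hγ t ht)).mul analyticAt_const
  · intro t z
    have h1 : (∑ j : Fin (d + 1), Polynomial.C (a j (γ t)) * Polynomial.X ^ (j : ℕ) : ℂ[X]) ≠ 0 ↔
        ∃ j, a j (γ t) ≠ 0 := by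
      rw [not_iff_comm]
      push Not
      constructor
      · intro h
        exact Finset.sum_eq_zero fun j _ => by rw [h j]; simp
      · intro h j
        have := congrArg (fun p => Polynomial.coeff p (j : ℕ)) h
        simp only [finsetSum_coeff, coeff_C_mul, coeff_X_pow, mul_ite, mul_one, mul_zero,
          coeff_zero] at this
        rw [Finset.sum_eq_single j] at this
        · simpa using this
        · intro i _ hi
          rw [if_neg]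
          exact fun h => hi (Fin.ext h.symm)
        · intro h; exact absurd (Finset.mem_univ _) h
    rw [h1, eval_finsetSum]
    simp [IsAlg]

/-- Two-step patching: modification at algebraic points. -/
theorem CQ.of_genCard {m d : ℕ} {a : Fin (d + 1) → (Fin m → ℂ) → ℂ}
    (ha : ∀ j, AnalyticOnNhd ℂ (a j) Set.univ) {X : Set (Fin (m + 1) → ℂ)} (hX : CQ (m + 1) X)
    {Θ : (Fin m → ℂ) → ℂ → Prop}
    (hΘ : ∀ U : Set ℂ, IsOpen U → IsPreconnected U → ∀ γ : ℂ → (Fin m → ℂ),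
      AnalyticOnNhd ℂ γ U → ∃ Y : ℂ → ℂ → Prop, LQ U Y ∧ GenCard U Y ∧
        ∃ B : Set ℂ, B.Countable ∧ ∀ t ∈ U, t ∉ B → ∀ z, (Θ (γ t) z ↔ Y t z))
    (κ : Cardinal.{0}) :
    CQ m {s | κ ≤ #({z : ℂ | (IsAlg a s z ∧
      (Fin.snoc (α := fun _ => ℂ) s z : Fin (m + 1) → ℂ) ∈ X) ∨ (¬ IsAlg a s z ∧ Θ s z)} :
        Set ℂ)} := by
  intro U hU hUc γ hγ
  obtain ⟨P, hd, hcoef, halg⟩ := isAlg_family ha hγ
  obtain ⟨Y, hYL, hYG, B, hB, hΘY⟩ := hΘ U hU hUc γ hγ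
  have hroot : LQ U fun t z => IsAlg a (γ t) z := by
    intro W hW hWo hWc z hz
    refine (LQ.root hU hd hcoef W hW hWo hWc z hz).congr' ?_
    intro t _
    exact halg t (z t)
  have hT : LQ U fun t z => (IsAlg a (γ t) z ∧
      (Fin.snoc (α := fun _ => ℂ) (γ t) z : Fin (m + 1) → ℂ) ∈ X) ∨
      (¬ IsAlg a (γ t) z ∧ Y t z) :=
    (hroot.and (LQ.CQ hγ hX)).or (hroot.not.and hYL)
  have key : GenCard U fun t z => (IsAlg a (γ t) z ∧
      (Fin.snoc (α := fun _ => ℂ) (γ t) z : Fin (m + 1) → ℂ) ∈ X) ∨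
      (¬ IsAlg a (γ t) z ∧ Y t z) := by
    refine GenCard.patch hU hUc hd hcoef hT hYL hYG countable_empty ?_
    intro t _ _ z hz
    rw [halg t z] at hz
    simp [hz]
  refine ((key.congr hB fun t ht htB z => ?_).qm κ)
  rw [hΘY t ht htB z]

/-- one equation, counted -/
theorem CQ.count_one {m d : ℕ} {a : Fin (d + 1) → (Fin m → ℂ) → ℂ}
    (ha : ∀ j, AnalyticOnNhd ℂ (a j) Set.univ) {X : Set (Fin (m + 1) → ℂ)} (hX : CQ (m + 1) X)
    {F : (Fin m → ℂ) → (Fin 1 → ℂ) → ℂ} (hF : Adm m 1 F)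
    {P : Set (Fin m → ℂ) → Prop} {Q : Set (Fin 1 → ℂ) → Prop}
    (hP : ∀ E, P E → CQ m E) (hQ : ∀ D, Q D → CQ 1 D)
    {R₀ R₁ : Set ((Fin m → ℂ) × (Fin 1 → ℂ))} (hR₀ : Rect P Q R₀) (hR₁ : Rect P Q R₁)
    (κ : Cardinal.{0}) :
    CQ m {s | κ ≤ #({z : ℂ | (IsAlg a s z ∧
      (Fin.snoc (α := fun _ => ℂ) s z : Fin (m + 1) → ℂ) ∈ X) ∨
      (¬ IsAlg a s z ∧ ((F s (fun _ => z) = 0 ∧ (s, fun _ => z) ∈ R₁) ∨
        (F s (fun _ => z) ≠ 0 ∧ (s, fun _ => z) ∈ R₀)))} : Set ℂ)} := by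
  refine CQ.of_genCard ha hX ?_ κ
  intro U hU hUc γ hγ
  obtain ⟨B₀, hB₀, X₀, hX₀, h₀⟩ := hR₀.slice_one hP hQ hU hUc hγ
  obtain ⟨B₁, hB₁, X₁, hX₁, h₁⟩ := hR₁.slice_one hP hQ hU hUc hγ
  obtain ⟨D, hD⟩ := hF.data hγ (δ := fun z _ => z) (fun z _ => analyticAt_pi_iff.2 fun _ =>
    analyticAt_id)
  refine ⟨fun t z => (z ∈ X₁ ∧ D.F (t, z) = 0) ∨ (z ∈ X₀ ∧ D.F (t, z) ≠ 0), ?_, ?_,
    B₀ ∪ B₁, hB₀.union hB₁, ?_⟩
  · exact ((LQ.qm hX₁).and (LQ.zero D.analytic)).or ((LQ.qm hX₀).and (LQ.zero D.analytic).not)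
  · exact (GenCard.data hU hUc D hX₁).or (GenCard.data_ne hU hUc D hX₀) fun t z h h' => h'.2 h.2
  · intro t ht htB z
    show _ ↔ (z ∈ X₁ ∧ D.F (t, z) = 0) ∨ (z ∈ X₀ ∧ D.F (t, z) ≠ 0)
    rw [h₀ t ht (fun h => htB (Or.inl h)) z, h₁ t ht (fun h => htB (Or.inr h)) z, hD t z]
    tauto

/-- several equations which are polynomial in the unknown and one exponential, counted -/
theorem CQ.count_system {m d e n : ℕ} {a : Fin (d + 1) → (Fin m → ℂ) → ℂ}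
    (ha : ∀ j, AnalyticOnNhd ℂ (a j) Set.univ) {X : Set (Fin (m + 1) → ℂ)} (hX : CQ (m + 1) X)
    {c : Fin n → Fin (e + 1) → Fin (e + 1) → (Fin m → ℂ) → ℂ}
    (hc : ∀ j i k, AnalyticOnNhd ℂ (c j i k) Set.univ) {h : (Fin m → ℂ) → ℂ → ℂ}
    (hh : AnalyticOnNhd ℂ (fun p : (Fin m → ℂ) × ℂ => h p.1 p.2) Set.univ)
    {P : Set (Fin m → ℂ) → Prop} {Q : Set (Fin 1 → ℂ) → Prop}
    (hP : ∀ E, P E → CQ m E) (hQ : ∀ D, Q D → CQ 1 D)
    {R : Set (Fin n) → Set ((Fin m → ℂ) × (Fin 1 → ℂ))} (hR : ∀ Z, Rect P Q (R Z))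
    (κ : Cardinal.{0}) :
    CQ m {s | κ ≤ #({z : ℂ | (IsAlg a s z ∧
      (Fin.snoc (α := fun _ => ℂ) s z : Fin (m + 1) → ℂ) ∈ X) ∨
      (¬ IsAlg a s z ∧ (s, fun _ => z) ∈
        R {j | ∑ i, ∑ k, c j i k s * z ^ (i : ℕ) * exp (h s z) ^ (k : ℕ) = 0})} : Set ℂ)} := by
  refine CQ.of_genCard ha hX ?_ κ
  intro U hU hUc γ hγ
  choose B hB Xs hXs hs using fun Z => (hR Z).slice_one hP hQ hU hUc hγ
  have hcγ : ∀ j i k, AnalyticOnNhd ℂ (fun t => c j i k (γ t)) U := fun j i k t ht =>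
    (hc j i k (γ t) (mem_univ _)).comp (hγ t ht)
  have hhγ : AnalyticOnNhd ℂ (fun p : ℂ × ℂ => h (γ p.1) p.2) (U ×ˢ Set.univ) := by
    rintro ⟨t, x⟩ ⟨ht, -⟩
    have h1 : AnalyticAt ℂ (fun p : ℂ × ℂ => (γ p.1, p.2)) (t, x) :=
      ((hγ t ht).comp (f := fun p : ℂ × ℂ => p.1) (x := (t, x)) analyticAt_fst).prod
        analyticAt_snd
    exact (hh (γ t, x) (mem_univ _)).comp (f := fun p : ℂ × ℂ => (γ p.1, p.2))
      (x := (t, x)) h1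
  have hcount : Countable (Set (Fin n)) := Finite.to_countable
  set f : Fin n → ℂ × ℂ → ℂ := pf (fun j i k t => c j i k (γ t)) (fun t x => h (γ t) x) with hf
  refine ⟨fun t z => ∃ Z : Set (Fin n), z ∈ Xs Z ∧ ∀ j, (f j (t, z) = 0 ↔ j ∈ Z), ?_, ?_,
    ⋃ Z, B Z, countable_iUnion hB, ?_⟩
  · refine LQ.ex fun Z => (LQ.qm (hXs Z)).and (LQ.all fun j => ?_)
    have h1 := LQ.zero (pf_analytic (h := fun t x => h (γ t) x) hcγ hhγ j)
    by_cases hj : j ∈ Z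
    · simp only [hj, iff_true]
      exact h1
    · simp only [hj, iff_false]
      exact h1.not
  · refine GenCard.fin (fun Z => GenCard.system hU hUc (h := fun t x => h (γ t) x) hcγ hhγ
      (hXs Z) Z) ?_
    rintro Z Z' hZ t z ⟨-, h1⟩ ⟨-, h2⟩
    apply hZ
    ext j
    rw [← h1 j, ← h2 j]
  · intro t ht htB z
    have h1 : ∀ Z, ((γ t, fun _ => z) ∈ R Z ↔ z ∈ Xs Z) := fun Z =>
      hs Z t ht (fun h => htB (mem_iUnion.2 ⟨Z, h⟩)) z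
    rw [h1]
    constructor
    · intro h2
      exact ⟨_, h2, fun j => Iff.rfl⟩
    · rintro ⟨Z, hZ, h2⟩
      have : {j | ∑ i, ∑ k, c j i k (γ t) * z ^ (i : ℕ) * exp (h (γ t) z) ^ (k : ℕ) = 0} = Z := by
        ext j
        exact h2 j
      rw [this]
      exact hZ

end Pool.Agent.TH735.QM
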