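import Pool.Agent.TH735.QM.PolyCount

/-!
Counting zeros.
-/

set_option autoImplicit false

namespace Pool.Agent.TH735.QM

open Set Filter Topology Complex Polynomial

theorem divide_out (n : ℕ) : ∀ {f : ℂ → ℂ} (_ : Differentiable ℂ f) (a : ℂ)
    (_ : analyticOrderAt f a = n),
    ∃ h : ℂ → ℂ, Differentiable ℂ h ∧ h a ≠ 0 ∧ ∀ z, f z = (z - a) ^ n * h z := by
  induction n with
  | zero =>
    intro f hf a hn
    refine ⟨f, hf, ?_, by simp⟩
    exact (hf.analyticAt a).analyticOrderAt_eq_zero.1 (by simpa using hn)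
  | succ n ih =>
    intro f hf a hn
    have hfa : f a = 0 := by
      by_contra h
      have := (hf.analyticAt a).analyticOrderAt_eq_zero.2 h
      rw [this] at hn
      exact absurd hn (by norm_cast)
    have hd : Differentiable ℂ (dslope f a) := by
      rw [← differentiableOn_univ, Complex.differentiableOn_dslope univ_mem]
      exact hf.differentiableOn
    have hmul : f = (fun z => z - a) * dslope f a := by
      funext z
      have := sub_smul_dslope f a z
      rw [hfa, sub_zero, smul_eq_mul] at this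
      exact this.symm
    have h1 : analyticOrderAt (fun z : ℂ => z - a) a = 1 := by
      have h2 : AnalyticAt ℂ (fun z : ℂ => z - a) a := by fun_prop
      have := (h2.analyticOrderAt_eq_natCast (n := 1)).2
        ⟨fun _ => 1, analyticAt_const, one_ne_zero, by simp⟩
      rw [this]; norm_cast
    have h3 : analyticOrderAt (dslope f a) a = n := by
      rw [hmul, analyticOrderAt_mul (by fun_prop) (hd.analyticAt a), h1] at hn
      have h4 : (1 : ℕ∞) + analyticOrderAt (dslope f a) a = 1 + (n : ℕ∞) := by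
        rw [hn]; push_cast; ring
      exact ENat.add_right_injective_of_ne_top (by simp : (1 : ℕ∞) ≠ ⊤) h4
    obtain ⟨h, hh, hha, hfac⟩ := ih hd a h3
    refine ⟨h, hh, hha, fun z => ?_⟩
    have := congrFun hmul z
    simp only [Pi.mul_apply] at this
    rw [this, hfac z]
    ring

theorem factor_finite {f : ℂ → ℂ} (hf : Differentiable ℂ f) (hne : ∃ z, f z ≠ 0) (Z : Finset ℂ) :
    ∃ Q : ℂ[X], Q ≠ 0 ∧ (∀ z, Q.eval z = 0 → z ∈ Z) ∧ ∃ K : ℂ → ℂ, Differentiable ℂ K ∧
      (∀ z ∈ Z, K z ≠ 0) ∧ ∀ z, f z = Q.eval z * K z := by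
  classical
  induction Z using Finset.induction_on with
  | empty => exact ⟨1, one_ne_zero, by simp, f, hf, by simp, by simp⟩
  | insert a Z ha ih =>
    obtain ⟨Q, hQ0, hQ, K, hK, hKZ, hfac⟩ := ih
    have hKne : ∃ z, K z ≠ 0 := by
      obtain ⟨z, hz⟩ := hne
      refine ⟨z, fun h => hz ?_⟩
      rw [hfac z, h, mul_zero]
    have hfin : analyticOrderAt K a ≠ ⊤ := by
      intro htop
      obtain ⟨w, hw⟩ := hKne
      apply hw
      have := AnalyticOnNhd.eqOn_zero_of_preconnected_of_eventuallyEq_zero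
        (f := K) (U := Set.univ) (fun z _ => hK.analyticAt z) isPreconnected_univ (mem_univ a)
        (analyticOrderAt_eq_top.1 htop)
      exact this (mem_univ w)
    obtain ⟨n, hn⟩ := ENat.ne_top_iff_exists.1 hfin
    obtain ⟨h, hh, hha, hKfac⟩ := divide_out n hK a hn.symm
    refine ⟨(X - C a) ^ n * Q, mul_ne_zero (pow_ne_zero _ (X_sub_C_ne_zero a)) hQ0, ?_, h, hh,
      ?_, ?_⟩
    · intro z hz
      rw [eval_mul, mul_eq_zero] at hz
      rcases hz with hz | hz
      · rw [eval_pow] at hz
        have := eq_zero_of_pow_eq_zero hz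
        simp only [eval_sub, eval_X, eval_C, sub_eq_zero] at this
        rw [this]; exact Finset.mem_insert_self _ _
      · exact Finset.mem_insert_of_mem (hQ z hz)
    · intro z hz
      rcases Finset.mem_insert.1 hz with rfl | hz
      · exact hha
      · intro h0
        apply hKZ z hz
        rw [hKfac z, h0, mul_zero]
    · intro z
      rw [hfac z, hKfac z]
      simp only [eval_mul, eval_pow, eval_sub, eval_X, eval_C]
      ring

/-- polynomial families: zeros outside a countable set -/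
theorem polycount_Qm {U : Set ℂ} (hU : IsOpen U) (hUc : IsPreconnected U) (P : ℂ → ℂ[X]) (d : ℕ)
    (hd : ∀ s ∈ U, (P s).natDegree ≤ d)
    (hP : ∀ j, AnalyticOnNhd ℂ (fun s => (P s).coeff j) U) {C : Set ℂ} (hC : C.Countable) (k : ℕ) :
    QmOn U {s | {t | t ∉ C ∧ (P s).eval t = 0}.encard ≤ k} := by
  classical
  by_cases h0 : ∀ s ∈ U, P s = 0
  · left
    convert countable_empty using 1
    ext s
    simp only [mem_inter_iff, Set.mem_ofPred_eq, mem_empty_iff_false, iff_false, not_and, not_le]
    intro hs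
    have hset : {t | t ∉ C ∧ (P s).eval t = 0} = Cᶜ := by
      ext t; simp [h0 s hs]
    have hinf : (Cᶜ).Infinite := by
      intro hfin
      apply not_countable_complex
      rw [← Set.union_compl_self C]
      exact hC.union hfin.countable
    rw [hset, hinf.encard_eq]
    exact_mod_cast ENat.natCast_lt_top k
  · push Not at h0
    obtain ⟨s₁, hs₁, hP1⟩ := h0
    have heval : ∀ t, AnalyticOnNhd ℂ (fun s => (P s).eval t) U := by
      intro t s hs
      have h1 : AnalyticAt ℂ (fun s => ∑ j ∈ Finset.range (d + 1), (P s).coeff j * t ^ j) s :=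
        Finset.analyticAt_fun_sum _ fun j _ => (hP j s hs).mul analyticAt_const
      refine h1.congr ?_
      filter_upwards [hU.mem_nhds hs] with s' hs'
      rw [eval_eq_sum_range' (n := d + 1) (Nat.lt_succ_of_le (hd s' hs'))]
    set C₀ : Set ℂ := {c | c ∈ C ∧ ∀ s ∈ U, (P s).eval c = 0} with hC₀
    have hC₀sub : C₀ ⊆ ((P s₁).roots.toFinset : Set ℂ) := by
      intro c hc
      rw [Finset.mem_coe, Multiset.mem_toFinset, mem_roots hP1]
      exact hc.2 s₁ hs₁
    have hC₀fin : C₀.Finite := (Finset.finite_toSet _).subset hC₀sub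
    set h : ℕ := C₀.ncard with hh
    set B : Set ℂ := (⋃ c ∈ C \ C₀, U ∩ {s | (P s).eval c = 0}) ∪ (U ∩ {s | P s = 0}) with hB
    have hBc : B.Countable := by
      refine Set.Countable.union ?_ ?_
      · refine (hC.mono sdiff_subset).biUnion fun c hc => ?_
        apply zeros_countableOn hUc (heval c)
        by_contra hcon
        push Not at hcon
        exact hc.2 ⟨hc.1, hcon⟩
      · obtain ⟨j, hj⟩ : ∃ j, (P s₁).coeff j ≠ 0 := by
          by_contra hcon
          push Not at hcon
          exact hP1 (by ext j; rw [hcon j, coeff_zero])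
        refine (zeros_countableOn hUc (hP j) ⟨s₁, hs₁, hj⟩).mono ?_
        rintro s ⟨hs, hs0⟩
        refine ⟨hs, ?_⟩
        have : P s = 0 := hs0
        simp [this]
    refine (rootcount_Qm hUc P d hd hP (k + h)).congr hBc ?_
    intro s hsU hsB
    have hPs : P s ≠ 0 := fun h => hsB (Or.inr ⟨hsU, h⟩)
    have hset : ((P s).roots.toFinset : Set ℂ) = {t | t ∉ C ∧ (P s).eval t = 0} ∪ C₀ := by
      ext t
      simp only [Finset.mem_coe, Multiset.mem_toFinset, mem_roots hPs, IsRoot.def, mem_union,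
        Set.mem_ofPred_eq]
      constructor
      · intro ht
        by_cases htC : t ∈ C
        · right
          by_contra hcon
          exact hsB (Or.inl (mem_biUnion ⟨htC, hcon⟩ ⟨hsU, ht⟩))
        · exact Or.inl ⟨htC, ht⟩
      · rintro (ht | ht)
        · exact ht.2
        · exact ht.2 s hsU
    have hdisj : Disjoint {t | t ∉ C ∧ (P s).eval t = 0} C₀ := by
      rw [Set.disjoint_left]
      intro t ht ht'
      exact ht.1 ht'.1
    have hcard : ((P s).roots.toFinset.card : ℕ∞) =
        {t | t ∉ C ∧ (P s).eval t = 0}.encard + h := by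
      rw [← Set.encard_coe_eq_coe_finsetCard, hset, Set.encard_union_eq hdisj, hh,
        hC₀fin.cast_ncard_eq]
    simp only [Set.mem_ofPred_eq, hPs, ne_eq, not_false_eq_true, true_and]
    constructor
    · intro hle
      have h1 : ((P s).roots.toFinset.card : ℕ∞) ≤ (k : ℕ∞) + h := by exact_mod_cast hle
      rw [hcard] at h1
      exact (ENat.add_le_add_iff_right (ENat.natCast_ne_top h)).1 h1
    · intro hle
      have h1 : ((P s).roots.toFinset.card : ℕ∞) ≤ (k : ℕ∞) + h := by
        rw [hcard]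
        exact add_le_add_left hle _
      exact_mod_cast h1

/-- counting zeros outside a countable set -/
theorem count_main {U : Set ℂ} (hU : IsOpen U) (hUc : IsPreconnected U) (D : Data U)
    {C : Set ℂ} (hC : C.Countable) (k : ℕ) :
    QmOn U {s | {t | t ∉ C ∧ D.F (s, t) = 0}.encard ≤ k} := by
  classical
  have hF := D.analytic
  have hCinf : (Cᶜ).Infinite := by
    intro hfin
    apply not_countable_complex
    rw [← Set.union_compl_self C]
    exact hC.union hfin.countable
  by_cases hS : (U ∩ {s | {t | t ∉ C ∧ D.F (s, t) = 0}.encard ≤ k}).Countable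
  · exact Or.inl hS
  set S : Set ℂ := U ∩ {s | {t | t ∉ C ∧ D.F (s, t) = 0}.encard ≤ k} with hSdef
  have hSU : S ⊆ U := inter_subset_left
  obtain ⟨B, hB, hord⟩ := generic_order hU hUc hF hC
  have hS' : ¬ (S \ B).Countable := not_countable_sdiff hS hB
  obtain ⟨s₀, hs₀⟩ := nonempty_of_not_countable hS'
  -- factorisation
  have hfac : ∀ s ∈ S, ∃ Q : ℂ[X], Q ≠ 0 ∧ (∀ z, Q.eval z = 0 → z ∉ C) ∧
      ∃ K : ℂ → ℂ, Differentiable ℂ K ∧ (∀ z ∉ C, K z ≠ 0) ∧
        ∀ z, D.F (s, z) = Q.eval z * K z := by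
    rintro s ⟨hsU, hs⟩
    have hfin : {t | t ∉ C ∧ D.F (s, t) = 0}.Finite := by
      rw [← Set.encard_lt_top_iff]
      exact lt_of_le_of_lt hs (ENat.natCast_lt_top k)
    have hne : ∃ z, D.F (s, z) ≠ 0 := by
      by_contra hcon
      push Not at hcon
      apply hCinf
      refine hfin.subset ?_
      intro t ht
      exact ⟨ht, hcon t⟩
    obtain ⟨Q, hQ0, hQ, K, hK, hKZ, hfac⟩ := factor_finite (slice_right hF hsU) hne hfin.toFinset
    refine ⟨Q, hQ0, ?_, K, hK, ?_, hfac⟩
    · intro z hz
      exact (hfin.mem_toFinset.1 (hQ z hz)).1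
    · intro z hz h0
      refine hKZ z ?_ h0
      rw [hfin.mem_toFinset]
      exact ⟨hz, by rw [hfac z, h0, mul_zero]⟩
  choose! Q hQ0 hQC K hK hKC hFQK using hfac
  -- the order of `K s`
  have hKord : ∀ s ∈ S \ B, ∀ z, analyticOrderAt (K s) z = analyticOrderAt (K s₀) z := by
    intro s hs z
    by_cases hz : z ∈ C
    · have h1 : ∀ s ∈ S, analyticOrderAt (fun t => D.F (s, t)) z = analyticOrderAt (K s) z := by
        intro s hs
        have e : (fun t => D.F (s, t)) = (fun t => (Q s).eval t) * K s := by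
          funext t
          exact hFQK s hs t
        have e2 : analyticOrderAt (fun t => (Q s).eval t) z = 0 := by
          rw [((Q s).differentiable.analyticAt z).analyticOrderAt_eq_zero]
          intro h
          exact hQC s hs z h hz
        rw [e, analyticOrderAt_mul ((Q s).differentiable.analyticAt z)
          ((hK s hs).analyticAt z), e2, zero_add]
      rw [← h1 s hs.1, ← h1 s₀ hs₀.1]
      exact hord s (hSU hs.1) hs.2 s₀ (hSU hs₀.1) hs₀.2 z hz
    · rw [((hK s hs.1).analyticAt z).analyticOrderAt_eq_zero.2 (hKC s hs.1 z hz),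
        ((hK s₀ hs₀.1).analyticAt z).analyticOrderAt_eq_zero.2 (hKC s₀ hs₀.1 z hz)]
  obtain ⟨t₀, ht₀⟩ := exists_not_mem hC
  have hg : ∀ s ∈ S \ B, ∃ g : ℂ → ℂ, Differentiable ℂ g ∧
      ∀ z, K s z = exp (g z) * K s₀ z := fun s hs =>
    ratio (hK s hs.1) (hK s₀ hs₀.1) ⟨t₀, hKC s₀ hs₀.1 t₀ ht₀⟩ (hKord s hs)
  choose! g hgd hgF using hg
  obtain ⟨κ', hκ', ℓ, dmax, hℓ, hmatch⟩ := elim_final D.c D.G D.H (K s₀)
    (hK s₀ hs₀.1) ⟨t₀, hKC s₀ hs₀.1 t₀ ht₀⟩ (S \ B)
    (fun k s hs => slice_right (D.hH k) (hSU hs.1)) g hgd Q (fun s hs => hQ0 s hs.1)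
    (fun s hs z => by
      have h1 : D.F (s, z) = (Q s).eval z * K s z := hFQK s hs.1 z
      rw [hgF s hs z] at h1
      rw [mul_assoc]
      exact h1)
  obtain ⟨⟨j, κ⟩, hS2⟩ := pigeonhole hS' (fun (p : D.ι × κ') s =>
    ∃ d : ℂ, ∀ z, g s z = D.H p.1 s z + ℓ p.2 z + d) (by
      intro s hs
      obtain ⟨-, j, κ, d, hd⟩ := hmatch s hs
      exact ⟨(j, κ), d, hd⟩)
  set S₂ : Set ℂ := {s ∈ S \ B | ∃ d : ℂ, ∀ z, g s z = D.H j s z + ℓ κ z + d} with hS₂
  -- interpolation points
  obtain ⟨v, hvinj, hvC⟩ : ∃ v : Fin (dmax + 1) → ℂ, Function.Injective v ∧ ∀ i, v i ∉ C := by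
    have e := hCinf.natEmbedding
    refine ⟨fun i => (hCinf.natEmbedding _ (i : ℕ) : ℂ), ?_, fun i => (hCinf.natEmbedding _ _).2⟩
    intro a b hab
    have h1 := (hCinf.natEmbedding _).injective (Subtype.ext hab)
    exact Fin.ext h1
  have hHt : ∀ t, AnalyticOnNhd ℂ (fun s => D.H j s t) U := fun t => slice_left (D.hH j) t
  set Φ : ℂ → ℂ → ℂ := fun s t => D.F (s, t) * exp (- D.H j s t - ℓ κ t) with hΦ
  have hΦa : ∀ t, AnalyticOnNhd ℂ (fun s => Φ s t) U := by
    intro t s hs
    exact (slice_left hF t s hs).mul (((hHt t s hs).neg.sub analyticAt_const).cexp)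
  set L : Fin (dmax + 1) → ℂ[X] := fun i => Lagrange.basis Finset.univ v i with hL
  set P : ℂ → ℂ[X] := fun s => ∑ i, Polynomial.C (Φ s (v i) / K s₀ (v i)) * L i with hP
  have hPdeg : ∀ s, (P s).natDegree ≤ dmax := by
    intro s
    refine natDegree_sum_le_of_forall_le _ _ fun i _ => ?_
    refine (natDegree_C_mul_le _ _).trans ?_
    rw [natDegree_le_iff_degree_le, hL, Lagrange.degree_basis (by
      intro a _ b _ h; exact hvinj h) (Finset.mem_univ i)]
    simp
  have hPcoeff : ∀ r, AnalyticOnNhd ℂ (fun s => (P s).coeff r) U := by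
    intro r s hs
    simp only [hP, finsetSum_coeff, coeff_C_mul]
    exact Finset.analyticAt_fun_sum _ fun i _ =>
      ((hΦa (v i) s hs).div_const).mul analyticAt_const
  have hPS : ∀ s ∈ S₂, ∀ t, Φ s t = (P s).eval t * K s₀ t := by
    rintro s ⟨hs, d, hd⟩ t
    have h1 : ∀ t, Φ s t = (Polynomial.C (exp d) * Q s).eval t * K s₀ t := by
      intro t
      simp only [hΦ]
      rw [hFQK s hs.1 t, hgF s hs t, hd t]
      simp only [eval_mul, eval_C, exp_add, exp_sub, exp_neg]
      field_simp [exp_ne_zero]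
    have h2 : P s = Polynomial.C (exp d) * Q s := by
      have h3 : ∀ i, Φ s (v i) / K s₀ (v i) = (Polynomial.C (exp d) * Q s).eval (v i) := by
        intro i
        rw [h1 (v i), mul_div_assoc, div_self (hKC s₀ hs₀.1 _ (hvC i)), mul_one]
      have h4 := Lagrange.eq_interpolate (s := Finset.univ) (v := v)
        (by intro a _ b _ h; exact hvinj h) (f := Polynomial.C (exp d) * Q s) (by
          rw [Finset.card_univ, Fintype.card_fin]
          refine lt_of_le_of_lt degree_le_natDegree ?_
          have : (Polynomial.C (exp d) * Q s).natDegree ≤ dmax :=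
            (natDegree_C_mul_le _ _).trans (hmatch s hs).1
          exact_mod_cast Nat.lt_succ_of_le this)
      rw [h4, Lagrange.interpolate_apply]
      simp only [hP, h3, hL]
    rw [h1 t, h2]
  have hPU : ∀ s ∈ U, ∀ t, Φ s t = (P s).eval t * K s₀ t := by
    intro s hs t
    have hPe : AnalyticOnNhd ℂ (fun s => (P s).eval t) U := by
      intro s hs
      have h1 : AnalyticAt ℂ (fun s => ∑ j ∈ Finset.range (dmax + 1), (P s).coeff j * t ^ j) s :=
        Finset.analyticAt_fun_sum _ fun j _ => (hPcoeff j s hs).mul analyticAt_const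
      refine h1.congr (Filter.Eventually.of_forall fun s' => ?_)
      simp only
      rw [eval_eq_sum_range' (n := dmax + 1) (Nat.lt_succ_of_le (hPdeg s'))]
    have := eq_zero_of_uncountableOn hUc (f := fun s => Φ s t - (P s).eval t * K s₀ t)
      (fun s hs => (hΦa t s hs).sub ((hPe s hs).mul analyticAt_const)) (S := S₂)
      (fun s hs => hSU hs.1.1) hS2 (fun s hs => by rw [hPS s hs t, sub_self]) s hs
    exact sub_eq_zero.1 this
  refine (polycount_Qm hU hUc P dmax (fun s _ => hPdeg s) hPcoeff hC k).congr' ?_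
  intro s hs
  have hset : {t | t ∉ C ∧ (P s).eval t = 0} = {t | t ∉ C ∧ D.F (s, t) = 0} := by
    ext t
    simp only [Set.mem_ofPred_eq]
    refine and_congr_right fun ht => ?_
    have h1 := hPU s hs t
    simp only [hΦ] at h1
    constructor
    · intro h
      rw [h, zero_mul] at h1
      exact (mul_eq_zero.1 h1).resolve_right (exp_ne_zero _)
    · intro h
      rw [h, zero_mul] at h1
      exact (mul_eq_zero.1 h1.symm).resolve_right (hKC s₀ hs₀.1 t ht)
  simp only [Set.mem_ofPred_eq]
  rw [hset]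

end Pool.Agent.TH735.QM
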