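import Pool.Agent.TH735.QM.PolyBorel

/-!
Elimination of unknown coefficients in a family of linear relations.
-/

set_option autoImplicit false

namespace Pool.Agent.TH735.QM

open Set Filter Topology Complex
open scoped Pointwise

/-- products of a polynomial and the exponential of an entire function -/
def PU : Set (ℂ → ℂ) :=
  {u | ∃ (p : Polynomial ℂ) (μ : ℂ → ℂ), Differentiable ℂ μ ∧ u = fun z => p.eval z * exp (μ z)}

theorem PU.exp_mem {μ : ℂ → ℂ} (hμ : Differentiable ℂ μ) : (fun z => exp (μ z)) ∈ PU :=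
  ⟨1, μ, hμ, by simp⟩

theorem PU.mul_mem {u v : ℂ → ℂ} (hu : u ∈ PU) (hv : v ∈ PU) : u * v ∈ PU := by
  obtain ⟨p, μ, hμ, rfl⟩ := hu
  obtain ⟨q, ν, hν, rfl⟩ := hv
  refine ⟨p * q, fun z => μ z + ν z, hμ.add hν, ?_⟩
  funext z
  simp only [Pi.mul_apply, Polynomial.eval_mul, exp_add]
  ring

theorem PU.differentiable {u : ℂ → ℂ} (hu : u ∈ PU) : Differentiable ℂ u := by
  obtain ⟨p, μ, hμ, rfl⟩ := hu
  exact p.differentiable.mul hμ.cexp

/-- spanned by finitely many elements of `PU` -/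
def FinUnit (N : Submodule ℂ (ℂ → ℂ)) : Prop :=
  ∃ M : Set (ℂ → ℂ), M.Finite ∧ M ⊆ PU ∧ N = Submodule.span ℂ M

theorem FinUnit.mul {N₁ N₂ : Submodule ℂ (ℂ → ℂ)} (h₁ : FinUnit N₁) (h₂ : FinUnit N₂) :
    FinUnit (N₁ * N₂) := by
  obtain ⟨M₁, hf₁, hu₁, rfl⟩ := h₁
  obtain ⟨M₂, hf₂, hu₂, rfl⟩ := h₂
  refine ⟨M₁ * M₂, hf₁.mul hf₂, ?_, ?_⟩
  · rintro u ⟨a, ha, b, hb, rfl⟩
    exact PU.mul_mem (hu₁ ha) (hu₂ hb)
  · rw [Submodule.span_mul_span]

theorem FinUnit.sup {N₁ N₂ : Submodule ℂ (ℂ → ℂ)} (h₁ : FinUnit N₁) (h₂ : FinUnit N₂) :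
    FinUnit (N₁ ⊔ N₂) := by
  obtain ⟨M₁, hf₁, hu₁, rfl⟩ := h₁
  obtain ⟨M₂, hf₂, hu₂, rfl⟩ := h₂
  refine ⟨M₁ ∪ M₂, hf₁.union hf₂, union_subset hu₁ hu₂, ?_⟩
  rw [Submodule.span_union]

theorem FinUnit.single {g : ℂ → ℂ} (hg : g ∈ PU) :
    FinUnit (Submodule.span ℂ {g}) :=
  ⟨{g}, finite_singleton _, by simpa using hg, rfl⟩

theorem FinUnit.differentiable {N : Submodule ℂ (ℂ → ℂ)} (h : FinUnit N) {f : ℂ → ℂ}
    (hf : f ∈ N) : Differentiable ℂ f := by
  obtain ⟨M, -, hu, rfl⟩ := h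
  induction hf using Submodule.span_induction with
  | mem x hx => exact PU.differentiable (hu hx)
  | zero => exact differentiable_const 0
  | add x y _ _ hx hy => exact hx.add hy
  | smul a x _ hx => exact hx.const_smul a

/-- no zero divisors -/
theorem mul_eq_zero_entire {f g : ℂ → ℂ} (hf : Differentiable ℂ f) (hg : Differentiable ℂ g)
    (h : ∀ z, f z * g z = 0) (hne : ∃ z, g z ≠ 0) : ∀ z, f z = 0 := by
  have hc := zeros_countable hg hne
  refine eq_zero_of_uncountable hf (S := {z | g z = 0}ᶜ) ?_ ?_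
  · intro hc'
    apply not_countable_complex
    rw [← Set.union_compl_self {z | g z = 0}]
    exact hc.union hc'
  · intro z hz
    exact (mul_eq_zero.1 (h z)).resolve_right hz

theorem mul_ne_zero_entire {f g : ℂ → ℂ} (hf : Differentiable ℂ f) (hg : Differentiable ℂ g)
    (hfne : ∃ z, f z ≠ 0) (hne : ∃ z, g z ≠ 0) : ∃ z, (f * g) z ≠ 0 := by
  by_contra hcon
  push Not at hcon
  obtain ⟨z, hz⟩ := hfne
  exact hz (mul_eq_zero_entire hf hg hcon hne z)

theorem elim (A : ℂ → Submodule ℂ (ℂ → ℂ)) (S : Set ℂ) (hA : ∀ s ∈ S, FinUnit (A s))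
    (E : ℂ → ℂ → ℂ) (hE : ∀ s ∈ S, E s ∈ PU)
    (F₀ : ℂ → ℂ) (hF₀ : Differentiable ℂ F₀) (hF₀ne : ∃ z, F₀ z ≠ 0) :
    ∀ (m : ℕ) (G : Fin m → ℂ → ℂ) (a : Fin m → ℂ → ℂ → ℂ) (N : Submodule ℂ (ℂ → ℂ))
      (_ : FinUnit N) (_ : ∀ k, ∀ s ∈ S, a k s ∈ A s * N) (β : ℂ → ℂ) (_ : β ∈ N)
      (_ : ∃ z, β z ≠ 0) (ρ : ℂ → ℂ → ℂ) (_ : ∀ s ∈ S, ρ s ∈ A s * N)
      (_ : ∀ s ∈ S, ∑ k, G k * a k s = (E s * β + ρ s) * F₀),
      ∃ N', FinUnit N' ∧ ∃ β' ∈ N', (∃ z, β' z ≠ 0) ∧ ∀ s ∈ S, E s * β' ∈ A s * N' := by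
  intro m
  induction m with
  | zero =>
    intro G a N hN ha β hβ hβne ρ hρ hrel
    refine ⟨N, hN, β, hβ, hβne, ?_⟩
    intro s hs
    have h1 := hrel s hs
    rw [Finset.univ_eq_empty, Finset.sum_empty] at h1
    have hEd : Differentiable ℂ (E s) := PU.differentiable (hE s hs)
    have hd : Differentiable ℂ (E s * β + ρ s) :=
      (hEd.mul (hN.differentiable hβ)).add (((hA s hs).mul hN).differentiable (hρ s hs))
    have h2 : ∀ z, (E s * β + ρ s) z = 0 := by
      apply mul_eq_zero_entire hd hF₀ _ hF₀ne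
      intro z
      exact (congrFun h1 z).symm
    have h3 : E s * β = - ρ s := by
      funext z
      have := h2 z
      simp only [Pi.add_apply, Pi.neg_apply] at this ⊢
      linear_combination this
    rw [h3]
    exact Submodule.neg_mem _ (hρ s hs)
  | succ m ih =>
    intro G a N hN ha β hβ hβne ρ hρ hrel
    by_cases hz : ∀ s ∈ S, a (Fin.last m) s = 0
    · refine ih (fun k => G k.castSucc) (fun k => a k.castSucc) N hN (fun k => ha _) β hβ hβne ρ
        hρ ?_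
      intro s hs
      rw [← hrel s hs, Fin.sum_univ_castSucc, hz s hs, mul_zero, add_zero]
    · push Not at hz
      obtain ⟨s₀, hs₀, hne⟩ := hz
      have hne' : ∃ z, a (Fin.last m) s₀ z ≠ 0 := by
        by_contra hcon
        push Not at hcon
        exact hne (funext hcon)
      have hlast : ∀ s ∈ S, a (Fin.last m) s ∈ A s * N := fun s hs => ha _ s hs
      set N₂ : Submodule ℂ (ℂ → ℂ) := N * (A s₀ * N) with hN₂
      set N₄ : Submodule ℂ (ℂ → ℂ) := Submodule.span ℂ {E s₀} * (N * N) with hN₄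
      have hfN₂ : FinUnit N₂ := hN.mul ((hA s₀ hs₀).mul hN)
      have hfN₄ : FinUnit N₄ := (FinUnit.single (hE s₀ hs₀)).mul (hN.mul hN)
      have m2 : ∀ s, ∀ x ∈ A s * N, ∀ y ∈ A s₀ * N, x * y ∈ A s * (N₂ ⊔ N₄) := by
        intro s x hx y hy
        have : x * y ∈ A s * N₂ := by
          rw [hN₂, ← mul_assoc]
          exact Submodule.mul_mem_mul hx hy
        exact (mul_le_mul' le_rfl (le_sup_left (a := N₂) (b := N₄))) this
      have m4 : ∀ s, ∀ x ∈ A s * N, (E s₀ * β) * x ∈ A s * (N₂ ⊔ N₄) := by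
        intro s x hx
        have h1 : E s₀ * β ∈ Submodule.span ℂ {E s₀} * N :=
          Submodule.mul_mem_mul (Submodule.mem_span_singleton_self _) hβ
        have : (E s₀ * β) * x ∈ A s * N₄ := by
          have h2 := Submodule.mul_mem_mul h1 hx
          rw [hN₄]
          have h3 : A s * (Submodule.span ℂ {E s₀} * (N * N)) =
            Submodule.span ℂ {E s₀} * N * (A s * N) := by ring
          rw [h3]
          exact h2
        exact (mul_le_mul' le_rfl (le_sup_right (a := N₂) (b := N₄))) this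
      refine ih (fun k => G k.castSucc)
        (fun k s => a k.castSucc s * a (Fin.last m) s₀ - a k.castSucc s₀ * a (Fin.last m) s)
        (N₂ ⊔ N₄) (hfN₂.sup hfN₄) ?_ (β * a (Fin.last m) s₀) ?_ ?_
        (fun s => ρ s * a (Fin.last m) s₀ - (E s₀ * β + ρ s₀) * a (Fin.last m) s) ?_ ?_
      · intro k s hs
        refine Submodule.sub_mem _ (m2 s _ (ha _ s hs) _ (hlast s₀ hs₀)) ?_
        rw [mul_comm (a k.castSucc s₀)]
        exact m2 s _ (hlast s hs) _ (ha _ s₀ hs₀)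
      · exact le_sup_left (a := N₂) (Submodule.mul_mem_mul hβ (hlast s₀ hs₀))
      · exact mul_ne_zero_entire (hN.differentiable hβ)
          (((hA s₀ hs₀).mul hN).differentiable (hlast s₀ hs₀)) hβne hne'
      · intro s hs
        refine Submodule.sub_mem _ (m2 s _ (hρ s hs) _ (hlast s₀ hs₀)) ?_
        rw [add_mul]
        refine Submodule.add_mem _ (m4 s _ (hlast s hs)) ?_
        rw [mul_comm (ρ s₀)]
        exact m2 s _ (hlast s hs) _ (hρ s₀ hs₀)
      · intro s hs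
        have e1 := hrel s hs
        have e2 := hrel s₀ hs₀
        rw [Fin.sum_univ_castSucc] at e1 e2
        have e3 : ∑ k : Fin m, G k.castSucc *
            (a k.castSucc s * a (Fin.last m) s₀ - a k.castSucc s₀ * a (Fin.last m) s) =
            (∑ k : Fin m, G k.castSucc * a k.castSucc s) * a (Fin.last m) s₀ -
            (∑ k : Fin m, G k.castSucc * a k.castSucc s₀) * a (Fin.last m) s := by
          rw [Finset.sum_mul, Finset.sum_mul, ← Finset.sum_sub_distrib]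
          refine Finset.sum_congr rfl fun k _ => ?_
          ring
        rw [e3]
        linear_combination e1 * a (Fin.last m) s₀ - e2 * a (Fin.last m) s

end Pool.Agent.TH735.QM
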