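import Pool.Agent.TH735.QM.Elim

/-!
Elimination, conclusion.
-/

set_option autoImplicit false

namespace Pool.Agent.TH735.QM

open Set Filter Topology Complex
open scoped Pointwise

/-- reduced form of a sum of polynomial multiples of exponentials -/
theorem reduced_form {ι : Type} [DecidableEq ι] (μ : ι → ℂ → ℂ) (β : ℂ → ℂ) :
    ∀ (T : Finset ι) (B : ι → Polynomial ℂ), (∀ z, β z = ∑ i ∈ T, (B i).eval z * exp (μ i z)) →
      ∃ (T' : Finset ι) (B' : ι → Polynomial ℂ),
        (∀ z, β z = ∑ i ∈ T', (B' i).eval z * exp (μ i z)) ∧ (∀ i ∈ T', B' i ≠ 0) ∧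
        (∀ i ∈ T', ∀ j ∈ T', i ≠ j → ∀ c : ℂ, ¬ ∀ z, μ i z = μ j z + c) := by
  intro T
  induction T using Finset.strongInduction with
  | H T ih =>
    intro B hB
    by_cases h0 : ∃ i ∈ T, B i = 0
    · obtain ⟨i, hi, hBi⟩ := h0
      refine ih (T.erase i) (Finset.erase_ssubset hi) B ?_
      intro z
      rw [hB z, ← Finset.add_sum_erase T _ hi, hBi]
      simp
    by_cases h1 : ∃ i ∈ T, ∃ j ∈ T, i ≠ j ∧ ∃ c : ℂ, ∀ z, μ i z = μ j z + c
    · obtain ⟨i, hi, j, hj, hij, c, hc⟩ := h1
      have hj' : j ∈ T.erase i := Finset.mem_erase.2 ⟨hij.symm, hj⟩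
      refine ih (T.erase i) (Finset.erase_ssubset hi)
        (Function.update B j (B j + Polynomial.C (exp c) * B i)) ?_
      intro z
      rw [hB z, ← Finset.add_sum_erase T _ hi, ← Finset.add_sum_erase (T.erase i) _ hj',
        ← Finset.add_sum_erase (T.erase i) _ hj']
      have e : ∑ k ∈ (T.erase i).erase j, Polynomial.eval z (Function.update B j
          (B j + Polynomial.C (exp c) * B i) k) * exp (μ k z) =
          ∑ k ∈ (T.erase i).erase j, Polynomial.eval z (B k) * exp (μ k z) := by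
        refine Finset.sum_congr rfl fun k hk => ?_
        rw [Function.update_of_ne (Finset.mem_erase.1 hk).1]
      rw [e, Function.update_self]
      simp only [Polynomial.eval_add, Polynomial.eval_mul, Polynomial.eval_C]
      rw [hc z, exp_add]
      ring
    · push Not at h0 h1
      refine ⟨T, B, hB, h0, ?_⟩
      intro i hi j hj hij c hall
      obtain ⟨z, hz⟩ := h1 i hi j hj hij c
      exact hz (hall z)

theorem elim_final {ι : Type} [Fintype ι] (c : ι → ℂ → ℂ) (G : ι → ℂ → ℂ) (H : ι → ℂ → ℂ → ℂ)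
    (F₀ : ℂ → ℂ) (hF₀ : Differentiable ℂ F₀)
    (hne : ∃ z, F₀ z ≠ 0) (S : Set ℂ) (hH : ∀ k, ∀ s ∈ S, Differentiable ℂ (H k s))
    (g : ℂ → ℂ → ℂ) (hg : ∀ s ∈ S, Differentiable ℂ (g s))
    (Q : ℂ → Polynomial ℂ) (hQ : ∀ s ∈ S, Q s ≠ 0)
    (hrel : ∀ s ∈ S, ∀ z, ∑ k, c k s * G k z * exp (H k s z) =
      (Q s).eval z * exp (g s z) * F₀ z) :
    ∃ (K : Type) (_ : Finite K) (ℓ : K → ℂ → ℂ) (dmax : ℕ), (∀ κ, Differentiable ℂ (ℓ κ)) ∧
      ∀ s ∈ S, (Q s).natDegree ≤ dmax ∧
        ∃ j κ, ∃ d : ℂ, ∀ z, g s z = H j s z + ℓ κ z + d := by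
  classical
  set A : ℂ → Submodule ℂ (ℂ → ℂ) := fun s =>
    Submodule.span ℂ (Set.range fun (j : ι) (z : ℂ) => exp (H j s z)) with hAdef
  have hA : ∀ s ∈ S, FinUnit (A s) := by
    intro s hs
    refine ⟨_, Set.finite_range _, ?_, rfl⟩
    rintro u ⟨j, rfl⟩
    exact PU.exp_mem (hH j s hs)
  set N : Submodule ℂ (ℂ → ℂ) := Submodule.span ℂ {fun z => exp ((fun _ => (0 : ℂ)) z)} with hNdef
  have hN : FinUnit N := FinUnit.single (PU.exp_mem (differentiable_const 0))
  have h1N : (1 : ℂ → ℂ) ∈ N := by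
    have : (1 : ℂ → ℂ) = fun z => exp ((fun _ => (0 : ℂ)) z) := by funext z; simp
    rw [this]
    exact Submodule.mem_span_singleton_self _
  obtain ⟨N', hN', β', hβ', hβne, hmem⟩ := elim A S hA
    (fun s z => (Q s).eval z * exp (g s z))
    (fun s hs => ⟨Q s, g s, hg s hs, rfl⟩) F₀ hF₀ hne (Fintype.card ι)
    (fun k => G ((Fintype.equivFin ι).symm k))
    (fun k s => c ((Fintype.equivFin ι).symm k) s •
      fun z => exp (H ((Fintype.equivFin ι).symm k) s z)) N hN
    (by
      intro k s _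
      have : (c ((Fintype.equivFin ι).symm k) s •
          fun z => exp (H ((Fintype.equivFin ι).symm k) s z) : ℂ → ℂ) =
          (c ((Fintype.equivFin ι).symm k) s •
          fun z => exp (H ((Fintype.equivFin ι).symm k) s z)) * 1 := by rw [mul_one]
      rw [this]
      refine Submodule.mul_mem_mul (Submodule.smul_mem _ _ (Submodule.subset_span ⟨_, rfl⟩)) h1N)
    1 h1N ⟨0, by simp⟩ (fun _ => 0) (fun s _ => Submodule.zero_mem _)
    (by
      intro s hs
      funext z
      have h1 := hrel s hs z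
      simp only [Finset.sum_apply, Pi.mul_apply, Pi.smul_apply, smul_eq_mul, mul_one, add_zero]
      rw [← h1, ← (Fintype.equivFin ι).symm.sum_comp]
      refine Finset.sum_congr rfl fun k _ => ?_
      ring)
  obtain ⟨M, hMf, hMu, rfl⟩ := hN'
  have hMfin : Finite M := hMf
  have : Fintype M := Fintype.ofFinite M
  choose p μ hμd hμ using fun u : M => hMu u.2
  refine ⟨M × M, inferInstance, fun q z => μ q.1 z - μ q.2 z, ∑ u : M, (p u).natDegree,
    fun q => (hμd q.1).sub (hμd q.2), ?_⟩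
  -- expand β'
  have hβ2 : β' ∈ Submodule.span ℂ (Set.range fun u : M => (u : ℂ → ℂ)) := by
    rwa [Subtype.range_coe]
  obtain ⟨b, hb⟩ := (Submodule.mem_span_range_iff_exists_fun ℂ).1 hβ2
  have hβ3 : ∀ z, β' z = ∑ u ∈ (Finset.univ : Finset M),
      (Polynomial.C (b u) * p u).eval z * exp (μ u z) := by
    intro z
    have e2 := congrFun hb z
    simp only [Finset.sum_apply, Pi.smul_apply, smul_eq_mul] at e2
    rw [← e2]
    refine Finset.sum_congr rfl fun u _ => ?_
    have e3 : (u : ℂ → ℂ) z = (p u).eval z * exp (μ u z) := congrFun (hμ u) z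
    rw [e3, Polynomial.eval_mul, Polynomial.eval_C]
    ring
  obtain ⟨T, B, hB, hBne, hBred⟩ := reduced_form μ β' _ _ hβ3
  obtain ⟨i₀, hi₀⟩ : T.Nonempty := by
    rw [Finset.nonempty_iff_ne_empty]
    rintro rfl
    obtain ⟨z, hz⟩ := hβne
    apply hz
    rw [hB z]; simp
  intro s hs
  have h1 := hmem s hs
  -- expand the right hand side
  have hset : (Set.range fun (j : ι) (z : ℂ) => exp (H j s z)) * M =
      Set.range (fun (p : ι × M) => (fun z => exp (H p.1 s z)) * (p.2 : ℂ → ℂ)) := by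
    ext x
    constructor
    · rintro ⟨_, ⟨j, rfl⟩, y, hy, rfl⟩
      exact ⟨(j, ⟨y, hy⟩), rfl⟩
    · rintro ⟨⟨j, y⟩, rfl⟩
      exact ⟨_, ⟨j, rfl⟩, y, y.2, rfl⟩
  have h2 : (fun z => (Q s).eval z * exp (g s z)) * β' ∈ Submodule.span ℂ
      (Set.range (fun (p : ι × M) => (fun z => exp (H p.1 s z)) * (p.2 : ℂ → ℂ))) := by
    rw [← hset, ← Submodule.span_mul_span]
    exact h1
  obtain ⟨d, hd⟩ := (Submodule.mem_span_range_iff_exists_fun ℂ).1 h2
  -- the exponents
  set θ : ℂ → ℂ := fun z => g s z + μ i₀ z with hθ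
  set e : (T ⊕ ι × M) → ℂ → ℂ := Sum.elim (fun i z => g s z + μ i z)
    (fun q z => H q.1 s z + μ q.2 z) with he
  set x : (T ⊕ ι × M) → ℂ := fun k =>
    if ∀ z, e k z = θ z + (e k 0 - θ 0) then exp (e k 0 - θ 0) else 0 with hxdef
  have key := poly_borel e
    (by
      rintro (i | q)
      · exact (hg s hs).add (hμd i)
      · exact (hH q.1 s hs).add (hμd q.2))
    (Sum.elim (fun i => Q s * B i) (fun q => - (Polynomial.C (d q) * p q.2))) x
    (by
      intro k l r hkl
      have h0 := hkl 0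
      simp only [hxdef]
      by_cases hl : ∀ z, e l z = θ z + (e l 0 - θ 0)
      · have hk : ∀ z, e k z = θ z + (e k 0 - θ 0) := by
          intro z
          rw [hkl z, h0, hl z]; ring
        rw [if_pos hl, if_pos hk, h0, ← exp_add]
        congr 1
        ring
      · have hk : ¬ ∀ z, e k z = θ z + (e k 0 - θ 0) := by
          intro hk
          apply hl
          intro z
          have := hk z
          rw [hkl z, h0] at this
          linear_combination this
        rw [if_neg hl, if_neg hk, mul_zero])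
    (by
      intro z
      rw [Fintype.sum_sum_type]
      simp only [he, Sum.elim_inl, Sum.elim_inr, Polynomial.eval_neg, Polynomial.eval_mul,
        Polynomial.eval_C]
      have e1 := congrFun hd z
      simp only [Finset.sum_apply, Pi.smul_apply, Pi.mul_apply, smul_eq_mul] at e1
      have e2 : ∑ i : T, (Q s).eval z * (B i).eval z * exp (g s z + μ i z) =
          (Q s).eval z * exp (g s z) * β' z := by
        rw [hB z, ← Finset.sum_coe_sort T (fun i => (B i).eval z * exp (μ i z)), Finset.mul_sum]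
        refine Finset.sum_congr rfl fun i _ => ?_
        rw [exp_add]; ring
      rw [e2, ← e1, ← Finset.sum_add_distrib]
      refine Finset.sum_eq_zero fun q _ => ?_
      have e3 : (q.2 : ℂ → ℂ) z = (p q.2).eval z * exp (μ q.2 z) := congrFun (hμ q.2) z
      rw [e3, exp_add]
      ring)
  rw [Fintype.sum_sum_type] at key
  simp only [Sum.elim_inl, Sum.elim_inr] at key
  have hx0 : ∀ i : T, x (Sum.inl i) = if i = ⟨i₀, hi₀⟩ then 1 else 0 := by
    intro i
    by_cases hi : i = ⟨i₀, hi₀⟩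
    · rw [if_pos hi, hi]
      simp [hxdef, he, hθ]
    · rw [if_neg hi]
      simp only [hxdef]
      rw [if_neg]
      intro hall
      have hne : (i : M) ≠ i₀ := fun h => hi (Subtype.ext h)
      apply hBred i i.2 i₀ hi₀ hne (e (Sum.inl i) 0 - θ 0)
      intro z
      have := hall z
      simp only [he, hθ, Sum.elim_inl] at this ⊢
      linear_combination this
  have hsum : ∑ i : T, Polynomial.C (x (Sum.inl i)) * (Q s * B i) = Q s * B i₀ := by
    rw [Finset.sum_eq_single ⟨i₀, hi₀⟩]
    · rw [hx0, if_pos rfl]; simp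
    · intro i _ hi
      rw [hx0, if_neg hi]; simp
    · intro h
      exact absurd (Finset.mem_univ _) h
  rw [hsum] at key
  have key2 : Q s * B i₀ = ∑ q : ι × M, Polynomial.C (x (Sum.inr q)) *
      (Polynomial.C (d q) * p q.2) := by
    rw [eq_comm, ← sub_eq_zero, ← neg_eq_zero, neg_sub]
    rw [← key, sub_eq_add_neg, ← Finset.sum_neg_distrib]
    congr 1
    refine Finset.sum_congr rfl fun q _ => ?_
    ring
  have hQB : Q s * B i₀ ≠ 0 := mul_ne_zero (hQ s hs) (hBne i₀ hi₀)
  refine ⟨?_, ?_⟩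
  · have h3 : (Q s).natDegree ≤ (Q s * B i₀).natDegree := by
      rw [Polynomial.natDegree_mul (hQ s hs) (hBne i₀ hi₀)]
      exact Nat.le_add_right _ _
    refine h3.trans ?_
    rw [key2]
    refine Polynomial.natDegree_sum_le_of_forall_le _ _ fun q _ => ?_
    refine (Polynomial.natDegree_C_mul_le _ _).trans ((Polynomial.natDegree_C_mul_le _ _).trans ?_)
    exact Finset.single_le_sum (f := fun u : M => (p u).natDegree) (fun _ _ => Nat.zero_le _)
      (Finset.mem_univ q.2)
  · obtain ⟨q, hq⟩ : ∃ q : ι × M, x (Sum.inr q) ≠ 0 := by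
      by_contra hcon
      push Not at hcon
      apply hQB
      rw [key2]
      refine Finset.sum_eq_zero fun q _ => ?_
      rw [hcon q]; simp
    have hall : ∀ z, e (Sum.inr q) z = θ z + (e (Sum.inr q) 0 - θ 0) := by
      by_contra hcon
      apply hq
      simp only [hxdef]
      rw [if_neg hcon]
    refine ⟨q.1, (q.2, i₀), - (e (Sum.inr q) 0 - θ 0), fun z => ?_⟩
    have := hall z
    simp only [he, hθ, Sum.elim_inr] at this ⊢
    linear_combination -this

end Pool.Agent.TH735.QM
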