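import Pool.Agent.TH735.QM.Family

/-!
Quantifiers.
-/

set_option autoImplicit false

namespace Pool.Agent.TH735.QM

open Set Filter Topology Complex Cardinal

/-- The countable Boolean combinations of the conditions `s ∈ E` with `E` in a family `P` of
subsets of `ℂ^m`, and `y i ∈ D` with `D` in a family `Q` of subsets of `ℂ`. -/
inductive Rect {m r : ℕ} (P : Set (Fin m → ℂ) → Prop) (Q : Set (Fin 1 → ℂ) → Prop) :
    Set ((Fin m → ℂ) × (Fin r → ℂ)) → Prop
  | left (E : Set (Fin m → ℂ)) (hE : P E) : Rect P Q {p | p.1 ∈ E}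
  | coord (i : Fin r) (D : Set (Fin 1 → ℂ)) (hD : Q D) : Rect P Q {p | (fun _ => p.2 i) ∈ D}
  | compl (R : Set ((Fin m → ℂ) × (Fin r → ℂ))) : Rect P Q R → Rect P Q Rᶜ
  | union (R : ℕ → Set ((Fin m → ℂ) × (Fin r → ℂ))) : (∀ j, Rect P Q (R j)) →
      Rect P Q (⋃ j, R j)

theorem Rect.slices {m r : ℕ} {P : Set (Fin m → ℂ) → Prop} {Q : Set (Fin 1 → ℂ) → Prop}
    (hP : ∀ E, P E → CQ m E) (hQ : ∀ D, Q D → CQ 1 D) {R : Set ((Fin m → ℂ) × (Fin r → ℂ))}
    (hR : Rect P Q R) {U : Set ℂ} (hU : IsOpen U) (hUc : IsPreconnected U)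
    {γ : ℂ → (Fin m → ℂ)} (hγ : AnalyticOnNhd ℂ γ U) :
    ∃ B : Set ℂ, B.Countable ∧ ∃ C : Fin r → Set ℂ, (∀ i, (C i).Countable) ∧
      ∀ t ∈ U, t ∉ B → ∀ t' ∈ U, t' ∉ B → ∀ y y' : Fin r → ℂ,
        (∀ i, y i = y' i ∨ (y i ∉ C i ∧ y' i ∉ C i)) → ((γ t, y) ∈ R ↔ (γ t', y') ∈ R) := by
  induction hR with
  | left E hE =>
    rcases hP E hE U hU hUc γ hγ with h | h
    · refine ⟨_, h, fun _ => ∅, fun _ => countable_empty, ?_⟩
      intro t ht htB t' ht' htB' y y' _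
      exact ⟨fun h1 => absurd ⟨ht, h1⟩ htB, fun h1 => absurd ⟨ht', h1⟩ htB'⟩
    · refine ⟨_, h, fun _ => ∅, fun _ => countable_empty, ?_⟩
      intro t ht htB t' ht' htB' y y' _
      have h1 : γ t ∈ E := by
        by_contra h1
        exact htB ⟨ht, h1⟩
      have h2 : γ t' ∈ E := by
        by_contra h1
        exact htB' ⟨ht', h1⟩
      exact ⟨fun _ => h2, fun _ => h1⟩
  | coord i D hD =>
    rcases (hQ D hD).qm with h | h
    · refine ⟨∅, countable_empty, fun _ => {z | (fun _ => z) ∈ D}, fun _ => h, ?_⟩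
      intro t ht htB t' ht' htB' y y' hy
      simp only [Set.mem_ofPred_eq]
      rcases hy i with hy | hy
      · rw [hy]
      · exact ⟨fun h1 => absurd h1 hy.1, fun h1 => absurd h1 hy.2⟩
    · refine ⟨∅, countable_empty, fun _ => {z | (fun _ => z) ∈ D}ᶜ, fun _ => h, ?_⟩
      intro t ht htB t' ht' htB' y y' hy
      simp only [Set.mem_ofPred_eq]
      rcases hy i with hy | hy
      · rw [hy]
      · exact ⟨fun _ => not_not.1 hy.2, fun _ => not_not.1 hy.1⟩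
  | compl R _ ih =>
    obtain ⟨B, hB, C, hC, h⟩ := ih
    refine ⟨B, hB, C, hC, ?_⟩
    intro t ht htB t' ht' htB' y y' hy
    exact not_congr (h t ht htB t' ht' htB' y y' hy)
  | union R _ ih =>
    choose B hB C hC h using ih
    refine ⟨⋃ j, B j, countable_iUnion hB, fun i => ⋃ j, C j i,
      fun i => countable_iUnion fun j => hC j i, ?_⟩
    intro t ht htB t' ht' htB' y y' hy
    simp only [mem_iUnion]
    refine exists_congr fun j => ?_
    refine h j t ht (fun h' => htB (mem_iUnion.2 ⟨j, h'⟩)) t' ht'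
      (fun h' => htB' (mem_iUnion.2 ⟨j, h'⟩)) y y' ?_
    intro i
    rcases hy i with h1 | h1
    · exact Or.inl h1
    · exact Or.inr ⟨fun h' => h1.1 (mem_iUnion.2 ⟨j, h'⟩), fun h' => h1.2 (mem_iUnion.2 ⟨j, h'⟩)⟩

/-- boxes -/
def Box {r : ℕ} {C : Fin r → Set ℂ} (τ : ∀ i, Option (C i)) : Set (Fin r → ℂ) :=
  {y | ∀ i, (∀ c, τ i = some c → y i = c) ∧ (τ i = none → y i ∉ C i)}

theorem Box.exists {r : ℕ} (C : Fin r → Set ℂ) (y : Fin r → ℂ) :
    ∃ τ : ∀ i, Option (C i), y ∈ Box τ := by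
  classical
  refine ⟨fun i => if h : y i ∈ C i then some ⟨y i, h⟩ else none, ?_⟩
  intro i
  constructor
  · intro c hc
    by_cases h : y i ∈ C i
    · simp only [h, dif_pos, Option.some.injEq] at hc
      rw [← hc]
    · simp [h] at hc
  · intro hc h
    simp [h] at hc

theorem Box.same {r : ℕ} {C : Fin r → Set ℂ} {τ : ∀ i, Option (C i)} {y y' : Fin r → ℂ}
    (hy : y ∈ Box τ) (hy' : y' ∈ Box τ) (i : Fin r) : y i = y' i ∨ (y i ∉ C i ∧ y' i ∉ C i) := by
  rcases h : τ i with _ | c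
  · exact Or.inr ⟨(hy i).2 h, (hy' i).2 h⟩
  · exact Or.inl (((hy i).1 c h).trans ((hy' i).1 c h).symm)

theorem Thick.box {n r : ℕ} (L : (Fin n → ℂ) →ᵃ[ℂ] (Fin r → ℂ)) {C : Fin r → Set ℂ}
    (hC : ∀ i, (C i).Countable) (τ : ∀ i, Option (C i)) : Thick {x | L x ∈ Box τ} := by
  intro x hx y hy
  have hline : ∀ (t : ℂ) (i : Fin r), L (fun i => x i + t * (y i - x i)) i =
      L x i + t * (L y i - L x i) := by
    intro t i
    have h1 : (fun i => x i + t * (y i - x i)) = AffineMap.lineMap x y t := by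
      funext j
      rw [AffineMap.lineMap_apply]
      simp
      ring
    rw [h1, AffineMap.apply_lineMap, AffineMap.lineMap_apply]
    simp
    ring
  have hsub : {t : ℂ | (fun i => x i + t * (y i - x i)) ∉ {x | L x ∈ Box τ}} ⊆
      ⋃ i, {t : ℂ | τ i = none ∧ L x i + t * (L y i - L x i) ∈ C i} := by
    intro t ht
    by_contra hcon
    apply ht
    intro i
    refine ⟨fun c hc => ?_, fun hc h => ?_⟩
    · rw [hline, (hx i).1 c hc, (hy i).1 c hc]
      ring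
    · apply hcon
      rw [hline] at h
      exact mem_iUnion.2 ⟨i, hc, h⟩
  refine (countable_iUnion fun i => ?_).mono hsub
  by_cases hn : τ i = none
  · by_cases hd : L y i - L x i = 0
    · convert countable_empty using 1
      ext t
      simp only [Set.mem_ofPred_eq, hd, mul_zero, add_zero, mem_empty_iff_false, iff_false, not_and]
      intro _
      exact (hx i).2 hn
    · refine ((hC i).image (fun c => (c - L x i) / (L y i - L x i))).mono ?_
      rintro t ⟨-, ht⟩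
      refine ⟨_, ht, ?_⟩
      field_simp
      ring
  · convert countable_empty using 1
    ext t
    simp [hn]

theorem ex_QmOn {m n r : ℕ} {F : (Fin m → ℂ) → (Fin n → ℂ) → ℂ} (hF : Adm m n F)
    (L : (Fin n → ℂ) →ᵃ[ℂ] (Fin r → ℂ)) (N : ℕ → (Fin n → ℂ) → ℂ)
    (hN : ∀ j, AnalyticOnNhd ℂ (N j) univ) {P : Set (Fin m → ℂ) → Prop}
    {Q : Set (Fin 1 → ℂ) → Prop}
    (hP : ∀ E, P E → CQ m E) (hQ : ∀ D, Q D → CQ 1 D) {R : Set ((Fin m → ℂ) × (Fin r → ℂ))}
    (hR : Rect P Q R) :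
    CQ m {s | ∃ x, F s x = 0 ∧ (∀ j, N j x ≠ 0) ∧ (s, L x) ∈ R} := by
  intro U hU hUc γ hγ
  obtain ⟨B, hB, C, hC, hsl⟩ := hR.slices hP hQ hU hUc hγ
  by_cases hUB : ∃ t₀ ∈ U, t₀ ∉ B
  · obtain ⟨t₀, ht₀, ht₀B⟩ := hUB
    have : ∀ i, Countable (C i) := fun i => (hC i).to_subtype
    set T := {τ : ∀ i, Option (C i) // ∃ y ∈ Box τ, (γ t₀, y) ∈ R} with hT
    have key : QmOn U (⋃ τ : T, {t | ∃ x ∈ ({x | L x ∈ Box τ.1} ∩ ⋂ j, {x | N j x ≠ 0} :
        Set (Fin n → ℂ)), F (γ t) x = 0}) := by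
      refine QmOn.iUnion fun τ => star_thick hF hU hUc hγ ?_
      exact (Thick.box L hC τ.1).inter (Thick.iInter fun j => Thick.ne (hN j))
    refine key.congr hB ?_
    intro t ht htB
    simp only [mem_iUnion, Set.mem_ofPred_eq, mem_preimage, mem_inter_iff, mem_iInter]
    constructor
    · rintro ⟨τ, x, ⟨hx1, hx2⟩, hx3⟩
      obtain ⟨y, hy, hyR⟩ := τ.2
      refine ⟨x, hx3, hx2, ?_⟩
      rw [hsl t ht htB t₀ ht₀ ht₀B (L x) y (fun i => Box.same hx1 hy i)]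
      exact hyR
    · rintro ⟨x, hx1, hx2, hx3⟩
      obtain ⟨τ, hτ⟩ := Box.exists C (L x)
      refine ⟨⟨τ, L x, hτ, ?_⟩, x, ⟨hτ, hx2⟩, hx1⟩
      rw [← hsl t ht htB t₀ ht₀ ht₀B (L x) (L x) (fun i => Or.inl rfl)]
      exact hx3
  · push Not at hUB
    left
    exact hB.mono fun t ht => hUB t ht.1

end Pool.Agent.TH735.QM
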