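import Pool.Agent.TH735.QM.Count

/-!
Sets all of whose analytic curve sections are countable or cocountable.
-/

set_option autoImplicit false

namespace Pool.Agent.TH735.QM

open Set Filter Topology Complex Cardinal

/-- The ring of functions of `(s, x) ∈ ℂ^m × ℂ^n` generated by the entire functions of `s`, the
entire functions of `x`, and the exponentials of arbitrary entire functions of `(s, x)`. -/
inductive Adm (m n : ℕ) : ((Fin m → ℂ) → (Fin n → ℂ) → ℂ) → Prop
  | left (f : (Fin m → ℂ) → ℂ) (hf : AnalyticOnNhd ℂ f univ) : Adm m n (fun s _ => f s)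
  | right (g : (Fin n → ℂ) → ℂ) (hg : AnalyticOnNhd ℂ g univ) : Adm m n (fun _ x => g x)
  | exp (h : (Fin m → ℂ) → (Fin n → ℂ) → ℂ)
      (hh : AnalyticOnNhd ℂ (fun p : (Fin m → ℂ) × (Fin n → ℂ) => h p.1 p.2) univ) :
      Adm m n (fun s x => Complex.exp (h s x))
  | add (F G : (Fin m → ℂ) → (Fin n → ℂ) → ℂ) : Adm m n F → Adm m n G →
      Adm m n (fun s x => F s x + G s x)
  | mul (F G : (Fin m → ℂ) → (Fin n → ℂ) → ℂ) : Adm m n F → Adm m n G →
      Adm m n (fun s x => F s x * G s x)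

theorem Adm.normal {m n : ℕ} {F : (Fin m → ℂ) → (Fin n → ℂ) → ℂ} (hF : Adm m n F) :
    ∃ (ι : Type) (_ : Fintype ι) (c : ι → (Fin m → ℂ) → ℂ) (G : ι → (Fin n → ℂ) → ℂ)
      (H : ι → (Fin m → ℂ) → (Fin n → ℂ) → ℂ), (∀ k, AnalyticOnNhd ℂ (c k) univ) ∧
      (∀ k, AnalyticOnNhd ℂ (G k) univ) ∧
      (∀ k, AnalyticOnNhd ℂ (fun p : (Fin m → ℂ) × (Fin n → ℂ) => H k p.1 p.2) univ) ∧
      ∀ s x, F s x = ∑ k, c k s * G k x * Complex.exp (H k s x) := by
  induction hF with
  | left f hf =>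
    exact ⟨Unit, inferInstance, fun _ => f, fun _ _ => 1, fun _ _ _ => 0, fun _ => hf,
      fun _ _ _ => analyticAt_const, fun _ _ _ => analyticAt_const, fun s x => by simp⟩
  | right g hg =>
    exact ⟨Unit, inferInstance, fun _ _ => 1, fun _ => g, fun _ _ _ => 0,
      fun _ _ _ => analyticAt_const, fun _ => hg, fun _ _ _ => analyticAt_const,
      fun s x => by simp⟩
  | exp h hh =>
    exact ⟨Unit, inferInstance, fun _ _ => 1, fun _ _ => 1, fun _ => h,
      fun _ _ _ => analyticAt_const, fun _ _ _ => analyticAt_const, fun _ => hh,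
      fun s x => by simp⟩
  | add F G _ _ ihF ihG =>
    obtain ⟨ι, _, c, g, h, hc, hg, hh, e⟩ := ihF
    obtain ⟨ι', _, c', g', h', hc', hg', hh', e'⟩ := ihG
    refine ⟨ι ⊕ ι', inferInstance, Sum.elim c c', Sum.elim g g', Sum.elim h h', ?_, ?_, ?_, ?_⟩
    · rintro (k | k)
      · exact hc k
      · exact hc' k
    · rintro (k | k)
      · exact hg k
      · exact hg' k
    · rintro (k | k)
      · exact hh k
      · exact hh' k
    · intro s x
      show F s x + G s x = _
      rw [e, e', Fintype.sum_sum_type]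
      rfl
  | mul F G _ _ ihF ihG =>
    obtain ⟨ι, _, c, g, h, hc, hg, hh, e⟩ := ihF
    obtain ⟨ι', _, c', g', h', hc', hg', hh', e'⟩ := ihG
    refine ⟨ι × ι', inferInstance, fun k s => c k.1 s * c' k.2 s, fun k x => g k.1 x * g' k.2 x,
      fun k s x => h k.1 s x + h' k.2 s x, ?_, ?_, ?_, ?_⟩
    · intro k s hs
      exact (hc k.1 s hs).mul (hc' k.2 s hs)
    · intro k s hs
      exact (hg k.1 s hs).mul (hg' k.2 s hs)
    · intro k s hs
      exact (hh k.1 s hs).add (hh' k.2 s hs)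
    · intro s x
      show F s x * G s x = _
      rw [e, e', Finset.sum_mul_sum, ← Finset.univ_product_univ, Finset.sum_product]
      refine Finset.sum_congr rfl fun i _ => Finset.sum_congr rfl fun j _ => ?_
      rw [Complex.exp_add]
      ring

/-- restriction to an analytic curve and to a complex line -/
theorem Adm.data {m n : ℕ} {F : (Fin m → ℂ) → (Fin n → ℂ) → ℂ} (hF : Adm m n F) {U : Set ℂ}
    {γ : ℂ → (Fin m → ℂ)} (hγ : AnalyticOnNhd ℂ γ U) {δ : ℂ → (Fin n → ℂ)}
    (hδ : AnalyticOnNhd ℂ δ univ) :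
    ∃ D : Data U, ∀ t z, D.F (t, z) = F (γ t) (δ z) := by
  obtain ⟨ι, _, c, g, h, hc, hg, hh, e⟩ := hF.normal
  refine ⟨⟨ι, fun k t => c k (γ t), fun k z => g k (δ z), fun k t z => h k (γ t) (δ z), ?_, ?_,
    ?_⟩, ?_⟩
  · intro k t ht
    exact (hc k (γ t) (mem_univ _)).comp (hγ t ht)
  · intro k z
    exact ((hg k (δ z) (mem_univ _)).comp (hδ z (mem_univ _))).differentiableAt
  · rintro k ⟨t, z⟩ ⟨ht, -⟩
    have h1 : AnalyticAt ℂ (fun p : ℂ × ℂ => (γ p.1, δ p.2)) (t, z) :=
      ((hγ t ht).comp (f := fun p : ℂ × ℂ => p.1) (x := (t, z)) analyticAt_fst).prod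
        ((hδ z (mem_univ _)).comp (f := fun p : ℂ × ℂ => p.2) (x := (t, z)) analyticAt_snd)
    exact (hh k (γ t, δ z) (mem_univ _)).comp (f := fun p : ℂ × ℂ => (γ p.1, δ p.2))
      (x := (t, z)) h1
  · intro t z
    rw [e]
    rfl

/-- all sections by analytic curves are countable or cocountable -/
def CQ (m : ℕ) (X : Set (Fin m → ℂ)) : Prop :=
  ∀ U : Set ℂ, IsOpen U → IsPreconnected U → ∀ γ : ℂ → (Fin m → ℂ), AnalyticOnNhd ℂ γ U →
    QmOn U (γ ⁻¹' X)

theorem CQ.zero {m : ℕ} {f : (Fin m → ℂ) → ℂ} (hf : AnalyticOnNhd ℂ f univ) :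
    CQ m {s | f s = 0} := by
  intro U _ hUc γ hγ
  exact zeros_QmOn (f := fun t => f (γ t)) hUc fun t ht => (hf (γ t) (mem_univ _)).comp (hγ t ht)

theorem CQ.compl {m : ℕ} {X : Set (Fin m → ℂ)} (hX : CQ m X) : CQ m Xᶜ := by
  intro U hU hUc γ hγ
  exact (hX U hU hUc γ hγ).compl

theorem CQ.iUnion {m : ℕ} {ι : Type*} [Countable ι] {X : ι → Set (Fin m → ℂ)}
    (hX : ∀ i, CQ m (X i)) : CQ m (⋃ i, X i) := by
  intro U hU hUc γ hγ
  rw [preimage_iUnion]
  exact QmOn.iUnion fun i => hX i U hU hUc γ hγ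

theorem CQ.preimage {m n : ℕ} {X : Set (Fin m → ℂ)} (hX : CQ m X)
    {h : (Fin n → ℂ) → (Fin m → ℂ)} (hh : AnalyticOnNhd ℂ h univ) : CQ n (h ⁻¹' X) := by
  intro U hU hUc γ hγ
  exact hX U hU hUc (fun t => h (γ t)) fun t ht => (hh (γ t) (mem_univ _)).comp (hγ t ht)

theorem CQ.qm {X : Set (Fin 1 → ℂ)} (hX : CQ 1 X) : Qm {z | (fun _ => z) ∈ X} := by
  have := hX univ isOpen_univ isPreconnected_univ (fun z _ => z) (by
    intro z _
    exact analyticAt_pi_iff.2 fun _ => analyticAt_id)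
  exact QmOn_univ_iff.1 this

/-- `D` is thick: each line through two points of `D` is contained in `D` up to countably many
points. -/
def Thick {n : ℕ} (D : Set (Fin n → ℂ)) : Prop :=
  ∀ x ∈ D, ∀ y ∈ D, {t : ℂ | (fun i => x i + t * (y i - x i)) ∉ D}.Countable

theorem Thick.iInter {n : ℕ} {ι : Type*} [Countable ι] {D : ι → Set (Fin n → ℂ)}
    (h : ∀ i, Thick (D i)) : Thick (⋂ i, D i) := by
  intro x hx y hy
  have : {t : ℂ | (fun i => x i + t * (y i - x i)) ∉ ⋂ i, D i} =
      ⋃ i, {t : ℂ | (fun j => x j + t * (y j - x j)) ∉ D i} := by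
    ext t
    simp
  rw [this]
  exact countable_iUnion fun i => h i x (mem_iInter.1 hx i) y (mem_iInter.1 hy i)

theorem Thick.inter {n : ℕ} {D D' : Set (Fin n → ℂ)} (h : Thick D) (h' : Thick D') :
    Thick (D ∩ D') := by
  have := Thick.iInter (D := fun b : Bool => if b then D else D') (by
    intro b; cases b <;> simp [h, h'])
  convert this using 1
  ext x
  simp [and_comm]

theorem line_analytic {n : ℕ} (x y : Fin n → ℂ) :
    AnalyticOnNhd ℂ (fun (t : ℂ) (i : Fin n) => x i + t * (y i - x i)) univ := by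
  intro t _
  exact analyticAt_pi_iff.2 fun i => by fun_prop

theorem Thick.ne {n : ℕ} {N : (Fin n → ℂ) → ℂ} (hN : AnalyticOnNhd ℂ N univ) :
    Thick {x | N x ≠ 0} := by
  intro x hx y _
  have hf : Differentiable ℂ (fun t : ℂ => N (fun i => x i + t * (y i - x i))) := by
    intro t
    exact ((hN _ (mem_univ _)).comp (line_analytic x y t (mem_univ _))).differentiableAt
  refine (zeros_countable hf ⟨0, ?_⟩).mono ?_
  · simpa using hx
  · intro t ht
    simpa using ht

/-- one equation, thick domain -/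
theorem star_thick {m n : ℕ} {F : (Fin m → ℂ) → (Fin n → ℂ) → ℂ} (hF : Adm m n F) {U : Set ℂ}
    (hU : IsOpen U) (hUc : IsPreconnected U) {γ : ℂ → (Fin m → ℂ)} (hγ : AnalyticOnNhd ℂ γ U)
    {D : Set (Fin n → ℂ)} (hD : Thick D) : QmOn U {t | ∃ x ∈ D, F (γ t) x = 0} := by
  rcases D.eq_empty_or_nonempty with rfl | ⟨x₀, hx₀⟩
  · left
    convert countable_empty using 1
    ext t; simp
  by_cases hS : (U \ {t | ∃ x ∈ D, F (γ t) x = 0}).Countable
  · exact Or.inr hS
  · have hx0an : AnalyticOnNhd ℂ (fun t => F (γ t) x₀) U := by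
      obtain ⟨D', hD'⟩ := hF.data hγ (δ := fun _ => x₀) (fun _ _ => analyticAt_const)
      have h1 := slice_left D'.analytic 0
      intro t ht
      refine (h1 t ht).congr (Filter.Eventually.of_forall fun s => ?_)
      exact hD' s 0
    refine (zeros_QmOn hUc hx0an).congr' ?_
    intro t ht
    constructor
    · intro h
      exact ⟨x₀, hx₀, h⟩
    · rintro ⟨x, hx, hFx⟩
      obtain ⟨D', hD'⟩ := hF.data hγ (line_analytic x₀ x)
      have key := star hU hUc D' (hD x₀ hx₀ x hx) (S := U \ {t | ∃ x ∈ D, F (γ t) x = 0})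
        sdiff_subset hS (by
          rintro s ⟨hsU, hs⟩ z hz h0
          apply hs
          refine ⟨_, not_not.1 hz, ?_⟩
          rw [← hD' s z]
          exact h0) 1 (by simpa using hx) 0 (by simpa using hx₀) t ht (by
            rw [hD' t 1]
            simpa using hFx)
      rw [hD' t 0] at key
      simpa using key

end Pool.Agent.TH735.QM
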