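import Pool.Agent.TH735.QM.Star

/-!
The number of distinct roots of a polynomial whose coefficients are analytic functions.
-/

set_option autoImplicit false

namespace Pool.Agent.TH735.QM

open Set Filter Topology Complex Polynomial Matrix

theorem analytic_det {U : Set ℂ} {n : Type} [Fintype n] [DecidableEq n] (M : ℂ → Matrix n n ℂ)
    (hM : ∀ i j, AnalyticOnNhd ℂ (fun s => M s i j) U) :
    AnalyticOnNhd ℂ (fun s => (M s).det) U := by
  intro s hs
  simp only [Matrix.det_apply]
  refine Finset.analyticAt_fun_sum _ fun σ _ => ?_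
  have h1 : AnalyticAt ℂ (fun s => ∏ i, M s (σ i) i) s :=
    Finset.analyticAt_fun_prod _ fun i _ => hM _ _ s hs
  simp only [Units.smul_def, zsmul_eq_mul]
  exact analyticAt_const.mul h1

/-- a left inverse at a point is a left inverse generically -/
theorem noninj_aux {U : Set ℂ} {m n : Type} [Fintype m] [Fintype n]
    [DecidableEq m] [DecidableEq n] (M : ℂ → Matrix m n ℂ)
    (hM : ∀ i j, AnalyticOnNhd ℂ (fun s => M s i j) U) {s₁ : ℂ}
    (h : ∀ v, M s₁ *ᵥ v = 0 → v = 0) :
    ∃ f : ℂ → ℂ, AnalyticOnNhd ℂ f U ∧ f s₁ ≠ 0 ∧ ∀ s, f s ≠ 0 → ∀ v, M s *ᵥ v = 0 → v = 0 := by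
  have hker : LinearMap.ker (Matrix.toLin' (M s₁)) = ⊥ := by
    rw [LinearMap.ker_eq_bot']
    intro v hv
    exact h v (by simpa using hv)
  obtain ⟨g, hg⟩ := LinearMap.exists_leftInverse_of_injective _ hker
  set L := LinearMap.toMatrix' g with hL
  have hLM : L * M s₁ = 1 := by
    have := congrArg LinearMap.toMatrix' hg
    rwa [LinearMap.toMatrix'_comp, LinearMap.toMatrix'_toLin', LinearMap.toMatrix'_id] at this
  refine ⟨fun s => (L * M s).det, ?_, ?_, ?_⟩
  · apply analytic_det
    intro i j s hs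
    simp only [Matrix.mul_apply]
    exact Finset.analyticAt_fun_sum _ fun k _ => analyticAt_const.mul (hM k j s hs)
  · show (L * M s₁).det ≠ 0
    rw [hLM]; simp
  · intro s hs v hv
    have h2 : (L * M s) *ᵥ v = 0 := by
      rw [← Matrix.mulVec_mulVec, hv, Matrix.mulVec_zero]
    by_contra hv0
    exact hs (Matrix.exists_mulVec_eq_zero_iff.1 ⟨v, hv0, h2⟩)

theorem noninj_Qm {U : Set ℂ} (hUc : IsPreconnected U) {m n : Type} [Fintype m] [Fintype n]
    [DecidableEq m] [DecidableEq n] (M : ℂ → Matrix m n ℂ)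
    (hM : ∀ i j, AnalyticOnNhd ℂ (fun s => M s i j) U) :
    QmOn U {s | ∃ v, v ≠ 0 ∧ M s *ᵥ v = 0} := by
  by_cases h : ∃ s₁ ∈ U, ∀ v, M s₁ *ᵥ v = 0 → v = 0
  · obtain ⟨s₁, hs₁, h⟩ := h
    obtain ⟨f, hf, hf1, hf2⟩ := noninj_aux M hM h
    left
    refine (zeros_countableOn hUc hf ⟨s₁, hs₁, hf1⟩).mono ?_
    rintro s ⟨hsU, v, hv0, hv⟩
    refine ⟨hsU, ?_⟩
    by_contra hfs
    exact hv0 (hf2 s hfs v hv)
  · push Not at h
    right
    convert countable_empty using 1
    ext s
    simp only [Set.mem_sdiff, Set.mem_ofPred_eq, mem_empty_iff_false, iff_false, not_and, not_not]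
    intro hs
    obtain ⟨v, hv, hv0⟩ := h s hs
    exact ⟨v, hv0, hv⟩

theorem card_roots_le_iff (P : ℂ[X]) (hP : P ≠ 0) (K : ℕ) : P.roots.toFinset.card ≤ K ↔
    ∃ A B : ℂ[X], ¬ (A = 0 ∧ B = 0) ∧ A.natDegree ≤ K ∧ B.natDegree ≤ K ∧
      A * P = B * derivative P := by
  classical
  constructor
  · intro hK
    set B : ℂ[X] := ∏ z ∈ P.roots.toFinset, (X - C z) with hB
    have hB0 : B ≠ 0 := by
      rw [hB, Finset.prod_ne_zero_iff]
      intro z _
      exact X_sub_C_ne_zero z
    have hBd : B.natDegree = P.roots.toFinset.card := by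
      rw [hB, natDegree_prod_of_monic _ _ fun z _ => monic_X_sub_C z]
      simp
    by_cases hP' : derivative P = 0
    · exact ⟨0, B, fun h => hB0 h.2, by simp, hBd.trans_le hK, by rw [hP']; simp⟩
    · have hdvd : P ∣ B * derivative P := by
        rw [(IsAlgClosed.splits P).dvd_iff_roots_le_roots hP (mul_ne_zero hB0 hP'),
          Multiset.le_iff_count]
        intro z
        rw [count_roots, count_roots, rootMultiplicity_mul (mul_ne_zero hB0 hP')]
        by_cases hz : P.IsRoot z
        · rw [derivative_rootMultiplicity_of_root hz]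
          have : 0 < B.rootMultiplicity z := by
            rw [rootMultiplicity_pos hB0, hB, IsRoot.def, eval_prod]
            refine Finset.prod_eq_zero (i := z) ?_ (by simp)
            rw [Multiset.mem_toFinset, mem_roots hP]
            exact hz
          omega
        · rw [rootMultiplicity_eq_zero hz]
          exact Nat.zero_le _
      obtain ⟨A, hA⟩ := hdvd
      have hA0 : A ≠ 0 := by
        rintro rfl
        rw [mul_zero] at hA
        exact (mul_ne_zero hB0 hP') hA
      refine ⟨A, B, fun h => hB0 h.2, ?_, hBd.trans_le hK, by rw [hA, mul_comm]⟩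
      have h1 := congrArg natDegree hA
      rw [natDegree_mul hB0 hP', natDegree_mul hP hA0] at h1
      have h2 := natDegree_derivative_le P
      omega
  · rintro ⟨A, B, hne, hAd, hBd, hrel⟩
    have hB0 : B ≠ 0 := by
      rintro rfl
      rw [zero_mul, mul_eq_zero] at hrel
      exact hne ⟨hrel.resolve_right hP, rfl⟩
    have hsub : P.roots.toFinset ⊆ B.roots.toFinset := by
      intro z hz
      rw [Multiset.mem_toFinset, mem_roots hP] at hz
      rw [Multiset.mem_toFinset, mem_roots hB0]
      have hP' : derivative P ≠ 0 := by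
        intro h
        have h1 := derivative_eq_zero.1 h
        rw [natDegree_eq_zero] at h1
        obtain ⟨c, rfl⟩ := h1
        rw [IsRoot.def, eval_C] at hz
        rw [hz] at hP
        exact hP (by simp)
      have hBP : B * derivative P ≠ 0 := mul_ne_zero hB0 hP'
      have hA0 : A ≠ 0 := by
        rintro rfl
        rw [zero_mul] at hrel
        exact hBP hrel.symm
      by_contra hBz
      have h1 : rootMultiplicity z (A * P) = rootMultiplicity z (B * derivative P) := by rw [hrel]
      rw [rootMultiplicity_mul hBP, rootMultiplicity_mul (mul_ne_zero hA0 hP),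
        derivative_rootMultiplicity_of_root hz, rootMultiplicity_eq_zero hBz] at h1
      have h2 := (rootMultiplicity_pos hP).2 hz
      omega
    calc P.roots.toFinset.card ≤ B.roots.toFinset.card := Finset.card_le_card hsub
      _ ≤ Multiset.card B.roots := Multiset.toFinset_card_le _
      _ ≤ B.natDegree := card_roots' B
      _ ≤ K := hBd

/-- the linear system -/
noncomputable def sys (K d : ℕ) (P : ℂ[X]) : Matrix (Fin (K + d + 1)) (Fin (K + 1) ⊕ Fin (K + 1)) ℂ :=
  fun r => Sum.elim (fun i => (X ^ (i : ℕ) * P).coeff r) (fun i => - (X ^ (i : ℕ) * derivative P).coeff r)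

theorem sys_iff (K d : ℕ) (P : ℂ[X]) (hd : P.natDegree ≤ d) :
    (∃ v, v ≠ 0 ∧ sys K d P *ᵥ v = 0) ↔
    ∃ A B : ℂ[X], ¬ (A = 0 ∧ B = 0) ∧ A.natDegree ≤ K ∧ B.natDegree ≤ K ∧
      A * P = B * derivative P := by
  have hmul : ∀ v : Fin (K + 1) ⊕ Fin (K + 1) → ℂ, ∀ r, (sys K d P *ᵥ v) r =
      ((∑ i : Fin (K + 1), C (v (Sum.inl i)) * X ^ (i : ℕ)) * P -
      (∑ i : Fin (K + 1), C (v (Sum.inr i)) * X ^ (i : ℕ)) * derivative P).coeff r := by
    intro v r
    rw [Matrix.mulVec, dotProduct, Fintype.sum_sum_type, coeff_sub, Finset.sum_mul, Finset.sum_mul,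
      finsetSum_coeff, finsetSum_coeff]
    simp only [sys, Sum.elim_inl, Sum.elim_inr, mul_assoc, coeff_C_mul, neg_mul,
      Finset.sum_neg_distrib, sub_eq_add_neg]
    congr 1
    · exact Finset.sum_congr rfl fun i _ => mul_comm _ _
    · congr 1
      exact Finset.sum_congr rfl fun i _ => mul_comm _ _
  have hdeg : ∀ v : Fin (K + 1) → ℂ, (∑ i : Fin (K + 1), C (v i) * X ^ (i : ℕ)).natDegree ≤ K := by
    intro v
    refine natDegree_sum_le_of_forall_le _ _ fun i _ => ?_
    refine (natDegree_C_mul_X_pow_le _ _).trans ?_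
    omega
  have hcoeff : ∀ v : Fin (K + 1) → ℂ, ∀ i : Fin (K + 1),
      (∑ i : Fin (K + 1), C (v i) * X ^ (i : ℕ)).coeff i = v i := by
    intro v i
    rw [finsetSum_coeff, Finset.sum_eq_single i]
    · simp
    · intro j _ hj
      rw [coeff_C_mul, coeff_X_pow, if_neg, mul_zero]
      exact fun h => hj (Fin.ext h.symm)
    · intro h; exact absurd (Finset.mem_univ _) h
  constructor
  · rintro ⟨v, hv0, hv⟩
    refine ⟨∑ i : Fin (K + 1), C (v (Sum.inl i)) * X ^ (i : ℕ),
      ∑ i : Fin (K + 1), C (v (Sum.inr i)) * X ^ (i : ℕ), ?_,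
      hdeg (fun i => v (Sum.inl i)), hdeg (fun i => v (Sum.inr i)), ?_⟩
    · rintro ⟨h1, h2⟩
      apply hv0
      funext k
      rcases k with i | i
      · have := hcoeff (fun i => v (Sum.inl i)) i
        rw [h1] at this
        simpa using this.symm
      · have := hcoeff (fun i => v (Sum.inr i)) i
        rw [h2] at this
        simpa using this.symm
    · rw [← sub_eq_zero]
      ext r
      by_cases hr : r < K + d + 1
      · have := congrFun hv ⟨r, hr⟩
        rw [hmul] at this
        simpa using this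
      · rw [coeff_zero]
        apply coeff_eq_zero_of_natDegree_lt
        refine lt_of_le_of_lt (natDegree_sub_le _ _) ?_
        have h1 : (∑ i : Fin (K + 1), C (v (Sum.inl i)) * X ^ (i : ℕ)).natDegree ≤ K :=
          hdeg (fun i => v (Sum.inl i))
        have h2 : (∑ i : Fin (K + 1), C (v (Sum.inr i)) * X ^ (i : ℕ)).natDegree ≤ K :=
          hdeg (fun i => v (Sum.inr i))
        have h3 := natDegree_mul_le (p := ∑ i : Fin (K + 1), C (v (Sum.inl i)) * X ^ (i : ℕ))
          (q := P)
        have h4 := natDegree_mul_le (p := ∑ i : Fin (K + 1), C (v (Sum.inr i)) * X ^ (i : ℕ))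
          (q := derivative P)
        have h5 := natDegree_derivative_le P
        rw [max_lt_iff]
        constructor <;> omega
  · rintro ⟨A, B, hne, hA, hB, hrel⟩
    have hA' : ∑ i : Fin (K + 1), C (A.coeff i) * X ^ (i : ℕ) = A := by
      rw [Fin.sum_univ_eq_sum_range (fun i => C (A.coeff i) * X ^ i) (K + 1)]
      conv_rhs => rw [A.as_sum_range_C_mul_X_pow' (n := K + 1) (by omega)]
    have hB' : ∑ i : Fin (K + 1), C (B.coeff i) * X ^ (i : ℕ) = B := by
      rw [Fin.sum_univ_eq_sum_range (fun i => C (B.coeff i) * X ^ i) (K + 1)]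
      conv_rhs => rw [B.as_sum_range_C_mul_X_pow' (n := K + 1) (by omega)]
    refine ⟨Sum.elim (fun i => A.coeff i) (fun i => B.coeff i), ?_, ?_⟩
    · intro h
      apply hne
      constructor
      · rw [← hA']
        refine Finset.sum_eq_zero fun i _ => ?_
        have := congrFun h (Sum.inl i)
        simp only [Sum.elim_inl, Pi.zero_apply] at this
        rw [this]; simp
      · rw [← hB']
        refine Finset.sum_eq_zero fun i _ => ?_
        have := congrFun h (Sum.inr i)
        simp only [Sum.elim_inr, Pi.zero_apply] at this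
        rw [this]; simp
    · funext r
      rw [hmul]
      simp only [Sum.elim_inl, Sum.elim_inr]
      rw [hA', hB', hrel, sub_self]
      simp

theorem sys_analytic {U : Set ℂ} (K d : ℕ) (P : ℂ → ℂ[X])
    (hP : ∀ j, AnalyticOnNhd ℂ (fun s => (P s).coeff j) U) (i : Fin (K + d + 1))
    (j : Fin (K + 1) ⊕ Fin (K + 1)) : AnalyticOnNhd ℂ (fun s => sys K d (P s) i j) U := by
  rcases j with j | j
  · simp only [sys, Sum.elim_inl, coeff_X_pow_mul']
    split_ifs
    · exact hP _
    · exact fun _ _ => analyticAt_const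
  · simp only [sys, Sum.elim_inr, coeff_X_pow_mul']
    split_ifs
    · intro s hs
      simp only [coeff_derivative]
      exact ((hP _ s hs).mul analyticAt_const).neg
    · exact fun _ _ => analyticAt_const.neg

theorem ne_zero_Qm {U : Set ℂ} (hUc : IsPreconnected U) (P : ℂ → ℂ[X])
    (hP : ∀ j, AnalyticOnNhd ℂ (fun s => (P s).coeff j) U) : QmOn U {s | P s ≠ 0} := by
  have h1 : QmOn U (⋂ j : ℕ, {s | (P s).coeff j = 0}) :=
    QmOn.iInter fun j => zeros_QmOn hUc (hP j)
  refine h1.compl.congr' ?_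
  intro s _
  simp only [mem_compl_iff, mem_iInter, Set.mem_ofPred_eq]
  rw [not_iff_not]
  constructor
  · intro h; ext j; rw [h j, coeff_zero]
  · intro h j; rw [h, coeff_zero]

theorem rootcount_Qm {U : Set ℂ} (hUc : IsPreconnected U) (P : ℂ → ℂ[X]) (d : ℕ)
    (hd : ∀ s ∈ U, (P s).natDegree ≤ d)
    (hP : ∀ j, AnalyticOnNhd ℂ (fun s => (P s).coeff j) U) (K : ℕ) :
    QmOn U {s | P s ≠ 0 ∧ (P s).roots.toFinset.card ≤ K} := by
  have h1 := noninj_Qm hUc (fun s => sys K d (P s)) (sys_analytic K d P hP)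
  refine ((ne_zero_Qm hUc P hP).inter h1).congr' ?_
  intro s hs
  simp only [mem_inter_iff, Set.mem_ofPred_eq]
  refine and_congr_right fun hne => ?_
  rw [sys_iff K d (P s) (hd s hs), card_roots_le_iff (P s) hne]

end Pool.Agent.TH735.QM
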