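import Mathlib

/-!
Reduction of a system of polynomial equations and inequations in one variable over a domain to a
single equation, away from the zeros of one element of the domain.
-/

set_option autoImplicit false

namespace Pool.Agent.TH735.QM

open Polynomial

variable {A : Type*} [CommRing A] [IsDomain A]

/-- `δ` clears the denominators of `f` -/
def Den (δ : A) (f : (FractionRing A)[X]) : Prop :=
  ∃ F : A[X], F.map (algebraMap A (FractionRing A)) = C (algebraMap A (FractionRing A) δ) * f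

theorem Den.mul_right {δ : A} {f : (FractionRing A)[X]} (h : Den δ f) (δ' : A) :
    Den (δ * δ') f := by
  obtain ⟨F, hF⟩ := h
  refine ⟨C δ' * F, ?_⟩
  rw [Polynomial.map_mul, hF, map_C, map_mul, C_mul]
  ring

theorem Den.mul_left {δ : A} {f : (FractionRing A)[X]} (h : Den δ f) (δ' : A) :
    Den (δ' * δ) f := by
  rw [mul_comm]; exact h.mul_right δ'

theorem Den.exists (f : (FractionRing A)[X]) : ∃ δ : A, δ ≠ 0 ∧ Den δ f := by
  obtain ⟨b, hb⟩ := IsLocalization.integerNormalization_map_to_map (nonZeroDivisors A) f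
  refine ⟨b, nonZeroDivisors.ne_zero b.2,
    IsLocalization.integerNormalization (nonZeroDivisors A) f, ?_⟩
  rw [hb, ← smul_eq_C_mul]
  simp [algebraMap_smul]

theorem Den.exists_fin {n : ℕ} (f : Fin n → (FractionRing A)[X]) :
    ∃ δ : A, δ ≠ 0 ∧ ∀ i, Den δ (f i) := by
  induction n with
  | zero => exact ⟨1, one_ne_zero, fun i => i.elim0⟩
  | succ n ih =>
    obtain ⟨δ, hδ, h⟩ := ih fun i => f i.castSucc
    obtain ⟨δ', hδ', h'⟩ := Den.exists (f (Fin.last n))
    refine ⟨δ * δ', mul_ne_zero hδ hδ', fun i => ?_⟩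
    refine Fin.lastCases ?_ (fun i => ?_) i
    · exact h'.mul_left δ
    · exact (h i).mul_right δ'

theorem split_coprime {K : Type*} [Field K] (Q : K[X]) :
    ∀ (n : ℕ) (g : K[X]), g ≠ 0 → g.natDegree = n →
      ∃ G H : K[X], g = G * H ∧ IsCoprime G Q ∧ ∃ N : ℕ, H ∣ Q ^ N := by
  classical
  intro n
  induction n using Nat.strong_induction_on with
  | _ n ih =>
    intro g hg hn
    by_cases hc : IsCoprime g Q
    · exact ⟨g, 1, (mul_one g).symm, hc, 0, one_dvd _⟩
    · have hd := EuclideanDomain.gcd_dvd_left g Q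
      have hdQ := EuclideanDomain.gcd_dvd_right g Q
      have hnu : ¬ IsUnit (EuclideanDomain.gcd g Q) := by
        intro h
        exact hc (EuclideanDomain.gcd_isUnit_iff.1 h)
      obtain ⟨g₁, hg₁⟩ := hd
      set D := EuclideanDomain.gcd g Q with hD
      have hD0 : D ≠ 0 := by
        rintro h0
        rw [h0, zero_mul] at hg₁
        exact hg hg₁
      have hg₁0 : g₁ ≠ 0 := by
        rintro h0
        rw [h0, mul_zero] at hg₁
        exact hg hg₁
      have hDpos : 0 < D.natDegree := by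
        by_contra h
        have h0 : D.natDegree = 0 := by omega
        rw [natDegree_eq_zero] at h0
        obtain ⟨x, hx⟩ := h0
        apply hnu
        rw [← hx]
        refine isUnit_C.2 (isUnit_iff_ne_zero.2 ?_)
        rintro rfl
        exact hD0 (by rw [← hx, C_0])
      have hlt : g₁.natDegree < n := by
        have := congrArg natDegree hg₁
        rw [natDegree_mul hD0 hg₁0] at this
        omega
      obtain ⟨G, H, hGH, hcop, N, hN⟩ := ih _ hlt g₁ hg₁0 rfl
      refine ⟨G, D * H, ?_, hcop, N + 1, ?_⟩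
      · rw [hg₁, hGH]; ring
      · rw [pow_succ, mul_comm]
        exact mul_dvd_mul hN hdQ

theorem system_reduction {a : ℕ} (p : Fin a → A[X]) (Q : A[X]) (hp : ∃ j, p j ≠ 0) :
    ∃ (G : A[X]) (δ : A), δ ≠ 0 ∧ ∀ (R : Type) [Field R] (φ : A →+* R), φ δ ≠ 0 →
      ∀ v : R, ((∀ j, (p j).eval₂ φ v = 0) ∧ Q.eval₂ φ v ≠ 0 ↔ G.eval₂ φ v = 0) := by
  classical
  set L := FractionRing A with hL
  set ι := algebraMap A L with hι
  have hιinj : Function.Injective ι := IsFractionRing.injective A L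
  have hinj : Function.Injective (Polynomial.map ι) := Polynomial.map_injective ι hιinj
  set P : Fin a → L[X] := fun j => (p j).map ι with hP
  set Q' : L[X] := Q.map ι with hQ'
  -- the generator of the ideal
  obtain ⟨g, hg⟩ := (IsPrincipalIdealRing.principal (Ideal.span (Set.range P))).principal
  have hg' : Ideal.span (Set.range P) = Ideal.span {g} := hg
  have hPg : ∀ j, ∃ b, P j = b * g := by
    intro j
    have : P j ∈ Ideal.span {g} := by
      rw [← hg']
      exact Ideal.subset_span ⟨j, rfl⟩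
    obtain ⟨b, hb⟩ := Ideal.mem_span_singleton'.1 this
    exact ⟨b, hb.symm⟩
  choose b hb using hPg
  obtain ⟨c, hc⟩ : ∃ c : Fin a → L[X], ∑ j, c j * P j = g := by
    have : g ∈ Ideal.span (Set.range P) := by
      rw [hg']
      exact Ideal.mem_span_singleton_self g
    obtain ⟨c, hc⟩ := (Ideal.mem_span_range_iff_exists_fun).1 this
    exact ⟨c, hc⟩
  have hg0 : g ≠ 0 := by
    rintro rfl
    obtain ⟨j, hj⟩ := hp
    apply hj
    apply hinj
    have := hb j
    rw [mul_zero] at this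
    rw [Polynomial.map_zero]
    exact this
  obtain ⟨G, H, hGH, ⟨u, w, huw⟩, N, K, hK⟩ := split_coprime Q' _ g hg0 rfl
  -- denominators
  obtain ⟨δ₁, hδ₁, h₁⟩ := Den.exists_fin b
  obtain ⟨δ₂, hδ₂, h₂⟩ := Den.exists_fin c
  obtain ⟨δ₃, hδ₃, h₃⟩ := Den.exists_fin ![g, G, H, K, u, w]
  set δ := δ₁ * δ₂ * δ₃ with hδ
  have hδ0 : δ ≠ 0 := mul_ne_zero (mul_ne_zero hδ₁ hδ₂) hδ₃
  have hb' : ∀ j, Den δ (b j) := fun j => ((h₁ j).mul_right δ₂).mul_right δ₃
  have hc' : ∀ j, Den δ (c j) := fun j => ((h₂ j).mul_left δ₁).mul_right δ₃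
  have h₃' : ∀ i, Den δ (![g, G, H, K, u, w] i) := fun i => (h₃ i).mul_left (δ₁ * δ₂)
  choose B hB using hb'
  choose Cc hCc using hc'
  obtain ⟨g', hg'⟩ : Den δ g := h₃' 0
  obtain ⟨G', hG'⟩ : Den δ G := h₃' 1
  obtain ⟨H', hH'⟩ : Den δ H := h₃' 2
  obtain ⟨K', hK'⟩ : Den δ K := h₃' 3
  obtain ⟨u', hu'⟩ : Den δ u := h₃' 4
  obtain ⟨w', hw'⟩ : Den δ w := h₃' 5
  -- identities over `A`
  have e1 : g' = ∑ j, Cc j * p j := by
    apply hinj
    rw [hg', Polynomial.map_sum, ← hc, Finset.mul_sum]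
    refine Finset.sum_congr rfl fun j _ => ?_
    rw [Polynomial.map_mul, hCc j]
    ring
  have e2 : ∀ j, C (δ ^ 2) * p j = B j * g' := by
    intro j
    apply hinj
    rw [Polynomial.map_mul, Polynomial.map_mul, hB j, hg', map_C, map_pow, C_pow]
    have : (p j).map ι = b j * g := hb j
    rw [this]
    ring
  have e3 : C δ * g' = G' * H' := by
    apply hinj
    rw [Polynomial.map_mul, Polynomial.map_mul, hg', hG', hH', map_C, hGH]
    ring
  have e4 : C (δ ^ 2) * Q ^ N = H' * K' := by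
    apply hinj
    rw [Polynomial.map_mul, Polynomial.map_mul, Polynomial.map_pow, hH', hK', map_C, map_pow,
      C_pow]
    have : Q.map ι ^ N = H * K := hK
    rw [this]
    ring
  have e5 : u' * G' + C δ * (w' * Q) = C (δ ^ 2) := by
    apply hinj
    rw [Polynomial.map_add, Polynomial.map_mul, Polynomial.map_mul, Polynomial.map_mul, hu', hG',
      hw', map_C, map_C, map_pow, C_pow]
    have : u * G + w * Q.map ι = 1 := huw
    linear_combination (C (ι δ)) ^ 2 * this
  refine ⟨G', δ, hδ0, ?_⟩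
  intro R _ φ hφ v
  have s1 : g'.eval₂ φ v = ∑ j, (Cc j).eval₂ φ v * (p j).eval₂ φ v := by
    rw [e1, eval₂_finsetSum]
    refine Finset.sum_congr rfl fun j _ => ?_
    rw [eval₂_mul]
  have s2 : ∀ j, φ δ ^ 2 * (p j).eval₂ φ v = (B j).eval₂ φ v * g'.eval₂ φ v := by
    intro j
    have := congrArg (eval₂ φ v) (e2 j)
    rwa [eval₂_mul, eval₂_mul, eval₂_C, map_pow] at this
  have s3 : φ δ * g'.eval₂ φ v = G'.eval₂ φ v * H'.eval₂ φ v := by
    have := congrArg (eval₂ φ v) e3
    rwa [eval₂_mul, eval₂_mul, eval₂_C] at this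
  have s4 : φ δ ^ 2 * Q.eval₂ φ v ^ N = H'.eval₂ φ v * K'.eval₂ φ v := by
    have := congrArg (eval₂ φ v) e4
    rwa [eval₂_mul, eval₂_mul, eval₂_C, eval₂_pow, map_pow] at this
  have s5 : u'.eval₂ φ v * G'.eval₂ φ v + φ δ * (w'.eval₂ φ v * Q.eval₂ φ v) = φ δ ^ 2 := by
    have := congrArg (eval₂ φ v) e5
    rwa [eval₂_add, eval₂_mul, eval₂_mul, eval₂_mul, eval₂_C, eval₂_C, map_pow] at this
  constructor
  · rintro ⟨h1, h2⟩
    have hg0 : g'.eval₂ φ v = 0 := by
      rw [s1]
      exact Finset.sum_eq_zero fun j _ => by rw [h1 j, mul_zero]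
    rw [hg0, mul_zero] at s3
    rcases mul_eq_zero.1 s3.symm with h | h
    · exact h
    · exfalso
      rw [h, zero_mul] at s4
      exact (mul_ne_zero (pow_ne_zero 2 hφ) (pow_ne_zero N h2)) s4
  · intro h
    constructor
    · intro j
      have hg0 : g'.eval₂ φ v = 0 := by
        rw [h, zero_mul] at s3
        exact (mul_eq_zero.1 s3).resolve_left hφ
      have := s2 j
      rw [hg0, mul_zero] at this
      exact (mul_eq_zero.1 this).resolve_left (pow_ne_zero 2 hφ)
    · intro hQ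
      rw [h, hQ, mul_zero, mul_zero, mul_zero, add_zero] at s5
      exact pow_ne_zero 2 hφ s5.symm

end Pool.Agent.TH735.QM
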