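import Pool.Agent.TH735.QM.GenCard
import Pool.Agent.TH735.QM.Spec

/-!
Boolean combinations of several equations which are polynomial in the unknown and one exponential.
-/

set_option autoImplicit false

namespace Pool.Agent.TH735.QM

open Set Filter Topology Complex Polynomial Metric

/-- the ring of analytic functions on `U` -/
def AU (U : Set ℂ) : Subring (U → ℂ) where
  carrier := {f | ∃ g : ℂ → ℂ, AnalyticOnNhd ℂ g U ∧ ∀ t : U, f t = g t}
  mul_mem' := by
    rintro f f' ⟨g, hg, h⟩ ⟨g', hg', h'⟩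
    exact ⟨fun t => g t * g' t, hg.mul hg', fun t => by simp [h t, h' t]⟩
  one_mem' := ⟨fun _ => 1, fun _ _ => analyticAt_const, fun _ => rfl⟩
  add_mem' := by
    rintro f f' ⟨g, hg, h⟩ ⟨g', hg', h'⟩
    exact ⟨fun t => g t + g' t, hg.add hg', fun t => by simp [h t, h' t]⟩
  zero_mem' := ⟨fun _ => 0, fun _ _ => analyticAt_const, fun _ => rfl⟩
  neg_mem' := by
    rintro f ⟨g, hg, h⟩
    exact ⟨fun t => - g t, hg.neg, fun t => by simp [h t]⟩

theorem AU.isDomain {U : Set ℂ} (hU : IsOpen U) (hUc : IsPreconnected U) (hne : U.Nonempty) :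
    IsDomain (AU U) := by
  obtain ⟨t₀, ht₀⟩ := hne
  have hnt : Nontrivial (AU U) := by
    refine ⟨⟨0, 1, fun h => ?_⟩⟩
    have := congrFun (congrArg Subtype.val h) ⟨t₀, ht₀⟩
    simp at this
  have hnz : NoZeroDivisors (AU U) := by
    refine ⟨?_⟩
    rintro ⟨f, g, hg, hfg⟩ ⟨f', g', hg', hfg'⟩ h
    by_cases h0 : ∀ t : U, f t = 0
    · left
      exact Subtype.ext (funext h0)
    · right
      push Not at h0
      obtain ⟨t₁, ht₁⟩ := h0
      have hmul : ∀ t : U, f t * f' t = 0 := fun t => congrFun (congrArg Subtype.val h) t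
      have hc : (U ∩ {t | g t = 0}).Countable :=
        zeros_countableOn hUc hg ⟨t₁, t₁.2, by rw [← hfg t₁]; exact ht₁⟩
      have hUnc : ¬ U.Countable := by
        intro hUcnt
        obtain ⟨r, hr, hsub⟩ := Metric.isOpen_iff.1 hU t₀ ht₀
        exact ball_not_countable t₀ hr (hUcnt.mono hsub)
      have hz := eq_zero_of_uncountableOn hUc hg' (S := U \ (U ∩ {t | g t = 0})) sdiff_subset
        (not_countable_sdiff hUnc hc) (by
          rintro t ⟨ht, ht'⟩
          have h1 := hmul ⟨t, ht⟩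
          rw [hfg ⟨t, ht⟩, hfg' ⟨t, ht⟩] at h1
          exact (mul_eq_zero.1 h1).resolve_left fun h => ht' ⟨ht, h⟩)
      refine Subtype.ext (funext fun t => ?_)
      show f' t = 0
      rw [hfg' t]
      exact hz t t.2
  exact NoZeroDivisors.to_isDomain _

/-- evaluation at a point of `U` -/
def evAt {U : Set ℂ} (t : U) : AU U →+* ℂ := (Pi.evalRingHom (fun _ : U => ℂ) t).comp (AU U).subtype

/-- an analytic function as an element of the ring -/
def toAU {U : Set ℂ} (c : ℂ → ℂ) (hc : AnalyticOnNhd ℂ c U) : AU U :=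
  ⟨fun t => c t, c, hc, fun _ => rfl⟩

/-- extension of an element of the ring to a function on `ℂ` -/
noncomputable def extAU {U : Set ℂ} (f : AU U) : ℂ → ℂ := f.2.choose

theorem extAU_analytic {U : Set ℂ} (f : AU U) : AnalyticOnNhd ℂ (extAU f) U := f.2.choose_spec.1

theorem extAU_apply {U : Set ℂ} (f : AU U) (t : U) : evAt t f = extAU f t := f.2.choose_spec.2 t

/-- specialisation at `(t, x)` -/
noncomputable def spec {U : Set ℂ} (t : U) (x : ℂ) : (AU U)[X] →+* ℂ := eval₂RingHom (evAt t) x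

theorem spec_apply {U : Set ℂ} (t : U) (x : ℂ) (q : (AU U)[X]) {M : ℕ} (hM : q.natDegree < M) :
    spec t x q = ∑ i ∈ Finset.range M, extAU (q.coeff i) t * x ^ i := by
  rw [spec, coe_eval₂RingHom, eval₂_eq_sum_range' _ hM]
  refine Finset.sum_congr rfl fun i _ => ?_
  rw [extAU_apply]

/-- a polynomial over the ring as a datum -/
theorem exists_data {U : Set ℂ} (G : (AU U)[X][X]) {h : ℂ → ℂ → ℂ}
    (hh : AnalyticOnNhd ℂ (fun p : ℂ × ℂ => h p.1 p.2) (U ×ˢ univ)) :
    ∃ D : Data U, ∀ (t : U) (x : ℂ), D.F ((t : ℂ), x) = G.eval₂ (spec t x) (exp (h t x)) := by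
  obtain ⟨N, hN⟩ : ∃ N, G.natDegree < N := ⟨_, Nat.lt_succ_self _⟩
  obtain ⟨M, hM⟩ : ∃ M, ∀ k, (G.coeff k).natDegree < M := by
    refine ⟨(∑ k ∈ Finset.range N, (G.coeff k).natDegree) + 1, fun k => Nat.lt_succ_of_le ?_⟩
    by_cases hk : k < N
    · exact Finset.single_le_sum (f := fun k => (G.coeff k).natDegree) (fun _ _ => Nat.zero_le _)
        (Finset.mem_range.2 hk)
    · rw [coeff_eq_zero_of_natDegree_lt (lt_of_lt_of_le hN (not_lt.1 hk)), natDegree_zero]
      exact Nat.zero_le _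
  refine ⟨⟨Fin N × Fin M, fun q t => extAU ((G.coeff q.1).coeff q.2) t, fun q x => x ^ (q.2 : ℕ),
    fun q t x => (q.1 : ℕ) * h t x, fun q => extAU_analytic _, fun q => by fun_prop, ?_⟩, ?_⟩
  · intro q p hp
    exact analyticAt_const.mul (hh p hp)
  · intro t x
    rw [eval₂_eq_sum_range' _ hN]
    simp only [Data.F]
    rw [← Finset.univ_product_univ, Finset.sum_product,
      ← Fin.sum_univ_eq_sum_range (fun k => spec t x (G.coeff k) * exp (h t x) ^ k) N]
    refine Finset.sum_congr rfl fun k _ => ?_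
    rw [spec_apply t x _ (hM k), Finset.sum_mul,
      ← Fin.sum_univ_eq_sum_range (fun i => extAU ((G.coeff k).coeff i) t * x ^ i *
        exp (h t x) ^ (k : ℕ)) M]
    refine Finset.sum_congr rfl fun i _ => ?_
    rw [← exp_nat_mul]

/-- a nonzero polynomial over the ring as a family of polynomials -/
theorem exists_family {U : Set ℂ} (hUc : IsPreconnected U) (δ : (AU U)[X]) (hδ : δ ≠ 0) :
    ∃ (P : ℂ → ℂ[X]) (d : ℕ) (B : Set ℂ), B.Countable ∧ (∀ t, (P t).natDegree ≤ d) ∧
      (∀ j, AnalyticOnNhd ℂ (fun t => (P t).coeff j) U) ∧ (∀ t ∈ U, t ∉ B → P t ≠ 0) ∧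
      ∀ (t : U) (x : ℂ), (P t).eval x = spec t x δ := by
  classical
  set d := δ.natDegree with hd
  refine ⟨fun t => ∑ i ∈ Finset.range (d + 1), Polynomial.C (extAU (δ.coeff i) t) *
    Polynomial.X ^ i, d, U ∩ {t | extAU (δ.coeff d) t = 0}, ?_, ?_, ?_, ?_, ?_⟩
  · have hlead : δ.coeff d ≠ 0 := by
      rw [hd]
      exact leadingCoeff_ne_zero.2 hδ
    apply zeros_countableOn hUc (extAU_analytic _)
    by_contra hcon
    push Not at hcon
    apply hlead
    refine Subtype.ext (funext fun t => ?_)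
    have := extAU_apply (δ.coeff d) t
    rw [hcon t t.2] at this
    exact this
  · intro t
    refine natDegree_sum_le_of_forall_le _ _ fun i hi => ?_
    refine (natDegree_C_mul_X_pow_le _ _).trans ?_
    have := Finset.mem_range.1 hi
    omega
  · intro j t ht
    simp only [finsetSum_coeff, coeff_C_mul]
    exact Finset.analyticAt_fun_sum _ fun i _ =>
      (extAU_analytic _ t ht).mul analyticAt_const
  · intro t ht htB h0
    apply htB
    refine ⟨ht, ?_⟩
    have := congrArg (fun p => Polynomial.coeff p d) h0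
    simp only [finsetSum_coeff, coeff_C_mul, coeff_X_pow, mul_ite, mul_one, mul_zero,
      coeff_zero] at this
    rw [Finset.sum_ite_eq, if_pos (Finset.mem_range.2 (Nat.lt_succ_self d))] at this
    exact this
  · intro t x
    rw [spec_apply t x δ (M := d + 1) (Nat.lt_succ_self _), eval_finsetSum]
    refine Finset.sum_congr rfl fun i _ => ?_
    simp

/-- the functions in the system -/
noncomputable def pf {n d : ℕ} (c : Fin n → Fin (d + 1) → Fin (d + 1) → ℂ → ℂ) (h : ℂ → ℂ → ℂ)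
    (j : Fin n) (p : ℂ × ℂ) : ℂ :=
  ∑ i, ∑ k, c j i k p.1 * p.2 ^ (i : ℕ) * exp (h p.1 p.2) ^ (k : ℕ)

theorem pf_analytic {U : Set ℂ} {n d : ℕ} {c : Fin n → Fin (d + 1) → Fin (d + 1) → ℂ → ℂ}
    (hc : ∀ j i k, AnalyticOnNhd ℂ (c j i k) U) {h : ℂ → ℂ → ℂ}
    (hh : AnalyticOnNhd ℂ (fun p : ℂ × ℂ => h p.1 p.2) (U ×ˢ univ)) (j : Fin n) :
    AnalyticOnNhd ℂ (pf c h j) (U ×ˢ univ) := by
  rintro ⟨t, x⟩ ⟨ht, hx⟩
  refine Finset.analyticAt_fun_sum _ fun i _ => Finset.analyticAt_fun_sum _ fun k _ => ?_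
  exact (((hc j i k t ht).comp (f := fun p : ℂ × ℂ => p.1) (x := (t, x)) analyticAt_fst).mul
    (analyticAt_snd.pow _)).mul ((hh (t, x) ⟨ht, hx⟩).cexp.pow _)

/-- patterns of a system -/
theorem GenCard.system {U : Set ℂ} (hU : IsOpen U) (hUc : IsPreconnected U) {n d : ℕ}
    {c : Fin n → Fin (d + 1) → Fin (d + 1) → ℂ → ℂ}
    (hc : ∀ j i k, AnalyticOnNhd ℂ (c j i k) U) {h : ℂ → ℂ → ℂ}
    (hh : AnalyticOnNhd ℂ (fun p : ℂ × ℂ => h p.1 p.2) (U ×ˢ univ)) {X : Set ℂ} (hX : Qm X)
    (Z : Set (Fin n)) :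
    GenCard U fun t x => x ∈ X ∧ ∀ j, (pf c h j (t, x) = 0 ↔ j ∈ Z) := by
  classical
  rcases U.eq_empty_or_nonempty with rfl | hne
  · exact ⟨∅, countable_empty, fun t ht => absurd ht (notMem_empty t)⟩
  have hdom : IsDomain (AU U) := AU.isDomain hU hUc hne
  set p : Fin n → (AU U)[X][X] := fun j => ∑ k : Fin (d + 1), Polynomial.C
    (∑ i : Fin (d + 1), Polynomial.C (toAU (c j i k) (hc j i k)) * Polynomial.X ^ (i : ℕ)) *
      Polynomial.X ^ (k : ℕ) with hp
  have hpf : ∀ (t : U) (x : ℂ) j, (p j).eval₂ (spec t x) (exp (h t x)) = pf c h j ((t : ℂ), x) := by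
    intro t x j
    simp only [hp, pf]
    rw [eval₂_finsetSum, Finset.sum_comm]
    refine Finset.sum_congr rfl fun k _ => ?_
    rw [eval₂_mul, eval₂_C, eval₂_X_pow, map_sum, Finset.sum_mul]
    refine Finset.sum_congr rfl fun i _ => ?_
    rw [map_mul, map_pow]
    congr 2
    · rw [spec, coe_eval₂RingHom, eval₂_C]
      rfl
    · rw [spec, coe_eval₂RingHom, eval₂_X]
  have hTL : LQ U fun t x => x ∈ X ∧ ∀ j, (pf c h j (t, x) = 0 ↔ j ∈ Z) := by
    refine (LQ.qm hX).and (LQ.all fun j => ?_)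
    have h1 := LQ.zero (pf_analytic hc hh j)
    by_cases hj : j ∈ Z
    · simp only [hj, iff_true]
      exact h1
    · simp only [hj, iff_false]
      exact h1.not
  set p' : Fin n → (AU U)[X][X] := fun j => if j ∈ Z then p j else 0 with hp'
  set Q : (AU U)[X][X] := ∏ j ∈ Finset.univ.filter (fun j => j ∉ Z), p j with hQ
  have hQ0 : ∀ (t : U) (x : ℂ), (Q.eval₂ (spec t x) (exp (h t x)) ≠ 0 ↔
      ∀ j, j ∉ Z → pf c h j ((t : ℂ), x) ≠ 0) := by
    intro t x
    rw [hQ, eval₂_finsetProd, Finset.prod_ne_zero_iff]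
    constructor
    · intro h1 j hj
      rw [← hpf t x j]
      exact h1 j (Finset.mem_filter.2 ⟨Finset.mem_univ _, hj⟩)
    · intro h1 j hj
      rw [hpf t x j]
      exact h1 j (Finset.mem_filter.1 hj).2
  by_cases hex : ∃ j, p' j ≠ 0
  · obtain ⟨G, δ, hδ, hred⟩ := system_reduction p' Q hex
    obtain ⟨D, hD⟩ := exists_data G hh
    obtain ⟨P, d', B, hB, hdeg, hcoef, hne0, hev⟩ := exists_family hUc δ hδ
    refine GenCard.patch hU hUc (P := P) (d := d') (fun t _ => hdeg t) hcoef hTL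
      ((LQ.qm hX).and (LQ.zero D.analytic)) (GenCard.data hU hUc D hX) hB ?_
    intro t ht htB x hx
    have hPx : (P t).eval x ≠ 0 := fun h0 => hx ⟨hne0 t ht htB, h0⟩
    rw [hev ⟨t, ht⟩ x] at hPx
    have h1 := hred ℂ (spec ⟨t, ht⟩ x) hPx (exp (h t x))
    rw [← hD ⟨t, ht⟩ x, hQ0 ⟨t, ht⟩ x] at h1
    refine and_congr_right fun _ => ?_
    rw [← h1]
    constructor
    · intro h2
      refine ⟨fun j => ?_, fun j hj => ?_⟩
      · simp only [hp']
        by_cases hj : j ∈ Z
        · rw [if_pos hj, hpf ⟨t, ht⟩ x j]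
          exact (h2 j).2 hj
        · rw [if_neg hj, eval₂_zero]
      · exact fun h3 => hj ((h2 j).1 h3)
    · rintro ⟨h2, h3⟩ j
      constructor
      · intro h4
        by_contra hj
        exact h3 j hj h4
      · intro hj
        have h5 := h2 j
        simp only [hp'] at h5
        rw [if_pos hj, hpf ⟨t, ht⟩ x j] at h5
        exact h5
  · push Not at hex
    obtain ⟨D, hD⟩ := exists_data Q hh
    refine (GenCard.data_ne hU hUc D hX).congr countable_empty ?_
    intro t ht _ x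
    refine and_congr_right fun _ => ?_
    rw [hD ⟨t, ht⟩ x, hQ0 ⟨t, ht⟩ x]
    constructor
    · intro h1 j
      constructor
      · intro h2
        by_contra hj
        exact h1 j hj h2
      · intro hj
        have h3 := hex j
        simp only [hp'] at h3
        rw [if_pos hj] at h3
        rw [← hpf ⟨t, ht⟩ x j, h3, eval₂_zero]
    · intro h1 j hj h2
      exact hj ((h1 j).1 h2)

end Pool.Agent.TH735.QM
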