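import Pool.Agent.TH735.QM.Local

/-!
Local analytic parametrisation of the roots of a monic polynomial with analytic coefficients.
-/

set_option autoImplicit false

namespace Pool.Agent.TH735.QM

open Set Filter Topology Complex Polynomial Metric

theorem root_near {P : ℂ[X]} (hP : P.Monic) {x : ℂ} {ε : ℝ} (hε : 0 < ε)
    (h : ‖P.eval x‖ < ε ^ P.natDegree) : ∃ w, P.eval w = 0 ∧ ‖x - w‖ < ε := by
  by_contra hcon
  push Not at hcon
  have hs := IsAlgClosed.splits P
  have h1 : P.eval x = (P.roots.map (fun w => x - w)).prod := by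
    conv_lhs => rw [hs.eq_prod_roots_of_monic hP]
    rw [eval_multiset_prod, Multiset.map_map]
    simp
  have h2 : ε ^ P.natDegree ≤ ‖P.eval x‖ := by
    rw [h1, hs.natDegree_eq_card_roots]
    have h3 : ∀ w ∈ P.roots, ε ≤ ‖x - w‖ := fun w hw =>
      hcon w ((mem_roots hP.ne_zero).1 hw)
    revert h3
    generalize P.roots = M
    induction M using Multiset.induction_on with
    | empty => intro _; simp
    | cons a M ih =>
      intro h3
      rw [Multiset.card_cons, pow_succ, Multiset.map_cons, Multiset.prod_cons, norm_mul, mul_comm]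
      exact mul_le_mul (h3 a (Multiset.mem_cons_self a M))
        (ih fun w hw => h3 w (Multiset.mem_cons_of_mem hw)) (pow_nonneg hε.le _) (norm_nonneg _)
  exact absurd h (not_lt.2 h2)

theorem continuousAt_eval {Q : ℂ → ℂ[X]} {d : ℕ} {t₁ : ℂ}
    (hd : ∀ᶠ t in 𝓝 t₁, (Q t).natDegree ≤ d)
    (hq : ∀ j, ContinuousAt (fun t => (Q t).coeff j) t₁) {z : ℂ → ℂ} (hz : ContinuousAt z t₁) :
    ContinuousAt (fun t => (Q t).eval (z t)) t₁ := by
  have h1 : ContinuousAt (fun t => ∑ j ∈ Finset.range (d + 1), (Q t).coeff j * z t ^ j) t₁ := by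
    refine tendsto_finsetSum _ fun j _ => ?_
    exact (hq j).mul (hz.pow j)
  refine h1.congr ?_
  filter_upwards [hd] with t ht
  rw [eval_eq_sum_range' (n := d + 1) (Nat.lt_succ_of_le ht)]

theorem root_differentiableAt {Q : ℂ → ℂ[X]} {d : ℕ} {t₁ : ℂ}
    (hd : ∀ᶠ t in 𝓝 t₁, (Q t).natDegree ≤ d)
    (hq : ∀ j, DifferentiableAt ℂ (fun t => (Q t).coeff j) t₁) {z : ℂ → ℂ}
    (hz : ContinuousAt z t₁) (h0 : ∀ᶠ t in 𝓝 t₁, (Q t).eval (z t) = 0)
    (hne : (derivative (Q t₁)).eval (z t₁) ≠ 0) : DifferentiableAt ℂ z t₁ := by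
  set D : ℂ → ℂ := fun t => ∑ j ∈ Finset.range (d + 1), (Q t).coeff j *
    ∑ i ∈ Finset.range j, z t ^ i * z t₁ ^ (j - 1 - i) with hD
  have hDc : ContinuousAt D t₁ := by
    refine tendsto_finsetSum _ fun j _ => ?_
    refine (hq j).continuousAt.mul ?_
    refine tendsto_finsetSum _ fun i _ => ?_
    exact (hz.pow i).mul continuousAt_const
  have hD1 : D t₁ = (derivative (Q t₁)).eval (z t₁) := by
    rw [derivative_eval, sum_over_range' _ (by intro n; simp) (d + 1)
      (Nat.lt_succ_of_le hd.self_of_nhds)]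
    simp only [hD]
    refine Finset.sum_congr rfl fun j _ => ?_
    have : ∀ i ∈ Finset.range j, z t₁ ^ i * z t₁ ^ (j - 1 - i) = z t₁ ^ (j - 1) := by
      intro i hi
      rw [← pow_add]
      congr 1
      have := Finset.mem_range.1 hi
      omega
    rw [Finset.sum_congr rfl this, Finset.sum_const, Finset.card_range, nsmul_eq_mul]
    ring
  set A : ℂ → ℂ := fun t => ∑ j ∈ Finset.range (d + 1),
    slope (fun t => (Q t).coeff j) t₁ t * z t₁ ^ j with hA
  have hAc : Tendsto A (𝓝[≠] t₁) (𝓝 (∑ j ∈ Finset.range (d + 1),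
      deriv (fun t => (Q t).coeff j) t₁ * z t₁ ^ j)) := by
    refine tendsto_finsetSum _ fun j _ => ?_
    exact (hasDerivAt_iff_tendsto_slope.1 (hq j).hasDerivAt).mul_const _
  have hDne : ∀ᶠ t in 𝓝[≠] t₁, D t ≠ 0 := by
    have : ∀ᶠ t in 𝓝 t₁, D t ≠ 0 := hDc.eventually_ne (by rw [hD1]; exact hne)
    exact this.filter_mono nhdsWithin_le_nhds
  have hslope : ∀ᶠ t in 𝓝[≠] t₁, - A t / D t = slope z t₁ t := by
    filter_upwards [hDne, hd.filter_mono nhdsWithin_le_nhds, h0.filter_mono nhdsWithin_le_nhds,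
      self_mem_nhdsWithin] with t hDt hdt h0t hne'
    have hne'' : t - t₁ ≠ 0 := sub_ne_zero.2 hne'
    have e1 : (Q t).eval (z t) = ∑ j ∈ Finset.range (d + 1), (Q t).coeff j * z t ^ j :=
      eval_eq_sum_range' (Nat.lt_succ_of_le hdt) _
    have e2 : (Q t₁).eval (z t₁) = ∑ j ∈ Finset.range (d + 1), (Q t₁).coeff j * z t₁ ^ j :=
      eval_eq_sum_range' (Nat.lt_succ_of_le hd.self_of_nhds) _
    have e3 : (z t - z t₁) * D t + (t - t₁) * A t = 0 := by
      have e4 : (z t - z t₁) * D t = ∑ j ∈ Finset.range (d + 1), (Q t).coeff j *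
          (z t ^ j - z t₁ ^ j) := by
        simp only [hD]
        rw [Finset.mul_sum]
        refine Finset.sum_congr rfl fun j _ => ?_
        rw [← geom_sum₂_mul (z t) (z t₁) j]
        ring
      have e5 : (t - t₁) * A t = ∑ j ∈ Finset.range (d + 1),
          ((Q t).coeff j - (Q t₁).coeff j) * z t₁ ^ j := by
        simp only [hA]
        rw [Finset.mul_sum]
        refine Finset.sum_congr rfl fun j _ => ?_
        rw [slope_def_field]
        field_simp
      rw [e4, e5, ← Finset.sum_add_distrib]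
      have e6 : (Q t).eval (z t) - (Q t₁).eval (z t₁) = 0 := by
        rw [h0t, h0.self_of_nhds, sub_zero]
      rw [← e6, e1, e2, ← Finset.sum_sub_distrib]
      refine Finset.sum_congr rfl fun j _ => ?_
      ring
    rw [slope_def_field]
    field_simp
    linear_combination -e3
  have hlim := (hAc.neg.div (hDc.tendsto.mono_left nhdsWithin_le_nhds)
    (by rw [hD1]; exact hne)).congr' hslope
  exact (hasDerivAt_iff_tendsto_slope.2 hlim).differentiableAt

theorem iterate_derivative_ne {P : ℂ[X]} (hP : P ≠ 0) (z : ℂ) :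
    (derivative^[P.rootMultiplicity z] P).eval z ≠ 0 := by
  intro h
  have h1 : P.rootMultiplicity z < P.rootMultiplicity z := by
    rw [lt_rootMultiplicity_iff_isRoot_iterate_derivative hP]
    intro m hm
    rcases hm.eq_or_lt with rfl | hm
    · exact h
    · exact isRoot_iterate_derivative_of_lt_rootMultiplicity hm
  exact lt_irrefl _ h1

theorem local_roots {W : Set ℂ} (hW : IsOpen W) {P : ℂ → ℂ[X]} {d r : ℕ}
    (hmon : ∀ t ∈ W, (P t).Monic) (hdeg : ∀ t ∈ W, (P t).natDegree = d)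
    (hcoef : ∀ j, AnalyticOnNhd ℂ (fun t => (P t).coeff j) W)
    (hcard : ∀ t ∈ W, (P t).roots.toFinset.card = r) {t₀ : ℂ} (ht₀ : t₀ ∈ W) :
    ∃ ρ > 0, ball t₀ ρ ⊆ W ∧ ∃ z : Fin r → ℂ → ℂ,
      (∀ i, AnalyticOnNhd ℂ (z i) (ball t₀ ρ)) ∧ ∀ t ∈ ball t₀ ρ,
        Function.Injective (fun i => z i t) ∧ ∀ x, (P t).eval x = 0 ↔ ∃ i, x = z i t := by
  classical
  -- the roots at `t₀`
  set e := (P t₀).roots.toFinset.equivFinOfCardEq (hcard t₀ ht₀) with he
  set ζ : Fin r → ℂ := fun i => (e.symm i : ℂ) with hζ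
  have hζinj : Function.Injective ζ := fun i j hij => e.symm.injective (Subtype.ext hij)
  have hζroot : ∀ i, (P t₀).eval (ζ i) = 0 := by
    intro i
    have := (e.symm i).2
    rw [Multiset.mem_toFinset, mem_roots (hmon t₀ ht₀).ne_zero] at this
    exact this
  -- separation
  obtain ⟨ε, hεpos, hε⟩ : ∃ ε : ℝ, 0 < ε ∧ ∀ i j, i ≠ j → 2 * ε ≤ ‖ζ i - ζ j‖ := by
    have h1 : ∀ᶠ ε : ℝ in 𝓝[>] 0, ∀ i j, i ≠ j → 2 * ε ≤ ‖ζ i - ζ j‖ := by
      rw [eventually_all]
      intro i
      rw [eventually_all]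
      intro j
      by_cases hij : i = j
      · exact Eventually.of_forall fun _ h => absurd hij h
      · have h2 : 0 < ‖ζ i - ζ j‖ / 2 := by
          have : ζ i - ζ j ≠ 0 := sub_ne_zero.2 fun h => hij (hζinj h)
          positivity
        have h3 : ∀ᶠ ε : ℝ in 𝓝[>] 0, ε < ‖ζ i - ζ j‖ / 2 :=
          (eventually_lt_nhds h2).filter_mono nhdsWithin_le_nhds
        filter_upwards [h3] with ε hε _
        linarith
    obtain ⟨ε, h, hε⟩ := (h1.and self_mem_nhdsWithin).exists
    exact ⟨ε, hε, h⟩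
  have hWn : ∀ {t₁ : ℂ}, t₁ ∈ W → ∀ᶠ t in 𝓝 t₁, (P t).natDegree ≤ d := by
    intro t₁ ht₁
    filter_upwards [hW.mem_nhds ht₁] with t ht
    exact (hdeg t ht).le
  have hevalc : ∀ {t₁ : ℂ}, t₁ ∈ W → ∀ x, ContinuousAt (fun t => (P t).eval x) t₁ := by
    intro t₁ ht₁ x
    exact continuousAt_eval (hWn ht₁) (fun j => (hcoef j t₁ ht₁).continuousAt) continuousAt_const
  have hnear : ∀ {t₁ : ℂ}, t₁ ∈ W → ∀ {x : ℂ}, (P t₁).eval x = 0 → ∀ {η : ℝ}, 0 < η →
      ∀ᶠ t in 𝓝 t₁, ∃ w, (P t).eval w = 0 ∧ ‖x - w‖ < η := by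
    intro t₁ ht₁ x hx η hη
    have h1 : ∀ᶠ t in 𝓝 t₁, ‖(P t).eval x‖ < η ^ d := by
      have h2 := (hevalc ht₁ x).norm
      refine h2.eventually_lt_const ?_
      simp only [hx, norm_zero]
      positivity
    filter_upwards [h1, hW.mem_nhds ht₁] with t ht htW
    exact root_near (hmon t htW) hη (by rw [hdeg t htW]; exact ht)
  -- the radius
  obtain ⟨ρ, hρ, hball⟩ : ∃ ρ > 0, ball t₀ ρ ⊆ {t | t ∈ W ∧ ∀ i, ∃ w, (P t).eval w = 0 ∧
      ‖ζ i - w‖ < ε} := by
    have h1 : ∀ᶠ t in 𝓝 t₀, t ∈ W ∧ ∀ i, ∃ w, (P t).eval w = 0 ∧ ‖ζ i - w‖ < ε := by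
      have hW0 : ∀ᶠ t in 𝓝 t₀, t ∈ W := hW.mem_nhds ht₀
      refine hW0.and ?_
      rw [eventually_all]
      intro i
      exact hnear ht₀ (hζroot i) hεpos
    exact Metric.mem_nhds_iff.1 h1
  have hballW : ball t₀ ρ ⊆ W := fun t ht => (hball ht).1
  set z : Fin r → ℂ → ℂ := fun i t =>
    if h : ∃ w, (P t).eval w = 0 ∧ ‖ζ i - w‖ < ε then h.choose else 0 with hz
  have hzspec : ∀ t ∈ ball t₀ ρ, ∀ i, (P t).eval (z i t) = 0 ∧ ‖ζ i - z i t‖ < ε := by
    intro t ht i
    have h := (hball ht).2 i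
    simp only [hz]
    rw [dif_pos h]
    exact h.choose_spec
  have hzinj : ∀ t ∈ ball t₀ ρ, Function.Injective (fun i => z i t) := by
    intro t ht i j hij
    by_contra hne
    have h1 := hε i j hne
    have h2 := (hzspec t ht i).2
    have h3 := (hzspec t ht j).2
    simp only at hij
    rw [hij] at h2
    have h4 : ‖ζ i - ζ j‖ ≤ ‖ζ i - z j t‖ + ‖ζ j - z j t‖ := by
      have : ζ i - ζ j = (ζ i - z j t) - (ζ j - z j t) := by ring
      rw [this]; exact norm_sub_le _ _
    linarith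
  have hzroots : ∀ t ∈ ball t₀ ρ, (P t).roots.toFinset = Finset.univ.image (fun i => z i t) := by
    intro t ht
    symm
    apply Finset.eq_of_subset_of_card_le
    · intro x hx
      obtain ⟨i, -, rfl⟩ := Finset.mem_image.1 hx
      rw [Multiset.mem_toFinset, mem_roots (hmon t (hballW ht)).ne_zero]
      exact (hzspec t ht i).1
    · rw [hcard t (hballW ht), Finset.card_image_of_injective _ (hzinj t ht), Finset.card_univ,
        Fintype.card_fin]
  have hzall : ∀ t ∈ ball t₀ ρ, ∀ x, (P t).eval x = 0 ↔ ∃ i, x = z i t := by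
    intro t ht x
    constructor
    · intro hx
      have : x ∈ (P t).roots.toFinset := by
        rw [Multiset.mem_toFinset, mem_roots (hmon t (hballW ht)).ne_zero]
        exact hx
      rw [hzroots t ht] at this
      obtain ⟨i, -, hi⟩ := Finset.mem_image.1 this
      exact ⟨i, hi.symm⟩
    · rintro ⟨i, rfl⟩
      exact (hzspec t ht i).1
  have huniq : ∀ t ∈ ball t₀ ρ, ∀ i w, (P t).eval w = 0 → ‖ζ i - w‖ < ε → w = z i t := by
    intro t ht i w hw hwε
    obtain ⟨j, rfl⟩ := (hzall t ht w).1 hw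
    by_contra hne
    have hij : i ≠ j := fun h => hne (by rw [h])
    have h1 := hε i j hij
    have h3 := (hzspec t ht j).2
    have h4 : ‖ζ i - ζ j‖ ≤ ‖ζ i - z j t‖ + ‖ζ j - z j t‖ := by
      have : ζ i - ζ j = (ζ i - z j t) - (ζ j - z j t) := by ring
      rw [this]; exact norm_sub_le _ _
    linarith
  have hzc : ∀ i, ∀ t₁ ∈ ball t₀ ρ, ContinuousAt (z i) t₁ := by
    intro i t₁ ht₁
    rw [Metric.continuousAt_iff']
    intro η hη
    have hη' : 0 < min η (ε - ‖ζ i - z i t₁‖) :=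
      lt_min hη (sub_pos.2 (hzspec t₁ ht₁ i).2)
    filter_upwards [hnear (hballW ht₁) (hzspec t₁ ht₁ i).1 hη', isOpen_ball.mem_nhds ht₁]
      with t ht htb
    obtain ⟨w, hw, hwη⟩ := ht
    have h1 : ‖z i t₁ - w‖ < η := lt_of_lt_of_le hwη (min_le_left _ _)
    have h2 : ‖z i t₁ - w‖ < ε - ‖ζ i - z i t₁‖ := lt_of_lt_of_le hwη (min_le_right _ _)
    have h3 : w = z i t := by
      apply huniq t htb i w hw
      calc ‖ζ i - w‖ = ‖(ζ i - z i t₁) + (z i t₁ - w)‖ := by ring_nf
        _ ≤ ‖ζ i - z i t₁‖ + ‖z i t₁ - w‖ := norm_add_le _ _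
        _ < ε := by linarith
    rw [← h3, dist_eq_norm, ← norm_neg, neg_sub]
    exact h1
  -- multiplicities
  have hsum : ∀ t ∈ ball t₀ ρ, ∑ i, (P t).rootMultiplicity (z i t) = d := by
    intro t ht
    have h1 := Multiset.toFinset_sum_count_eq (P t).roots
    rw [← (IsAlgClosed.splits (P t)).natDegree_eq_card_roots, hdeg t (hballW ht), hzroots t ht,
      Finset.sum_image (fun i _ j _ h => hzinj t ht h)] at h1
    rw [← h1]
    exact Finset.sum_congr rfl fun i _ => (count_roots _).symm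
  have hmult : ∀ t₁ ∈ ball t₀ ρ, ∀ᶠ t in 𝓝 t₁, ∀ i,
      (P t).rootMultiplicity (z i t) = (P t₁).rootMultiplicity (z i t₁) := by
    intro t₁ ht₁
    have h1 : ∀ᶠ t in 𝓝 t₁, ∀ i,
        (P t).rootMultiplicity (z i t) ≤ (P t₁).rootMultiplicity (z i t₁) := by
      rw [eventually_all]
      intro i
      have h2 : ContinuousAt (fun t =>
          (derivative^[(P t₁).rootMultiplicity (z i t₁)] (P t)).eval (z i t)) t₁ := by
        refine continuousAt_eval (d := d) ?_ ?_ (hzc i t₁ ht₁)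
        · filter_upwards [hWn (hballW ht₁)] with t ht
          exact (natDegree_iterate_derivative _ _).trans ((Nat.sub_le _ _).trans ht)
        · intro j
          simp only [coeff_iterate_derivative, nsmul_eq_mul]
          exact continuousAt_const.mul (hcoef _ t₁ (hballW ht₁)).continuousAt
      have h3 := h2.eventually_ne (iterate_derivative_ne (hmon t₁ (hballW ht₁)).ne_zero (z i t₁))
      filter_upwards [h3] with t ht
      by_contra hlt
      push Not at hlt
      exact ht (isRoot_iterate_derivative_of_lt_rootMultiplicity hlt)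
    filter_upwards [h1, isOpen_ball.mem_nhds ht₁] with t ht htb
    have h4 := (Finset.sum_eq_sum_iff_of_le (fun i _ => ht i)).1
      ((hsum t htb).trans (hsum t₁ ht₁).symm)
    exact fun i => h4 i (Finset.mem_univ i)
  refine ⟨ρ, hρ, hballW, z, ?_, fun t ht => ⟨hzinj t ht, hzall t ht⟩⟩
  intro i
  have hdiff : ∀ t₁ ∈ ball t₀ ρ, DifferentiableAt ℂ (z i) t₁ := by
    intro t₁ ht₁
    set μ := (P t₁).rootMultiplicity (z i t₁) with hμ
    have hμpos : 0 < μ := by
      rw [hμ, rootMultiplicity_pos (hmon t₁ (hballW ht₁)).ne_zero]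
      exact (hzspec t₁ ht₁ i).1
    refine root_differentiableAt (Q := fun t => derivative^[μ - 1] (P t)) (d := d) ?_ ?_
      (hzc i t₁ ht₁) ?_ ?_
    · filter_upwards [hWn (hballW ht₁)] with t ht
      exact (natDegree_iterate_derivative _ _).trans ((Nat.sub_le _ _).trans ht)
    · intro j
      simp only [coeff_iterate_derivative, nsmul_eq_mul]
      exact (differentiableAt_const _).mul (hcoef _ t₁ (hballW ht₁)).differentiableAt
    · filter_upwards [hmult t₁ ht₁] with t ht
      apply isRoot_iterate_derivative_of_lt_rootMultiplicity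
      rw [ht i]
      omega
    · rw [← Function.iterate_succ_apply' (f := derivative)]
      have : (μ - 1).succ = μ := by omega
      rw [this]
      exact iterate_derivative_ne (hmon t₁ (hballW ht₁)).ne_zero (z i t₁)
  intro t₁ ht₁
  have : DifferentiableOn ℂ (z i) (ball t₀ ρ) := fun t ht =>
    (hdiff t ht).differentiableWithinAt
  exact this.analyticAt (isOpen_ball.mem_nhds ht₁)

end Pool.Agent.TH735.QM
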