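import Pool.Agent.TH735.QM.Elim2

/-!
The main dichotomy for one unknown.
-/

set_option autoImplicit false

namespace Pool.Agent.TH735.QM

open Set Filter Topology Complex

/-- derivatives in the second variable -/
noncomputable def tow (F : ℂ × ℂ → ℂ) : ℕ → ℂ × ℂ → ℂ
  | 0 => F
  | n + 1 => fun p => fderiv ℂ (tow F n) p (0, 1)

theorem tow_analytic {U : Set ℂ} {F : ℂ × ℂ → ℂ} (hF : AnalyticOnNhd ℂ F (U ×ˢ univ)) (n : ℕ) :
    AnalyticOnNhd ℂ (tow F n) (U ×ˢ univ) := by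
  induction n with
  | zero => exact hF
  | succ n ih =>
    intro p hp
    have h1 := (ih.fderiv) p hp
    exact ((ContinuousLinearMap.apply ℂ ℂ ((0, 1) : ℂ × ℂ)).analyticAt _).comp h1

theorem tow_iteratedDeriv {U : Set ℂ} {F : ℂ × ℂ → ℂ} (hF : AnalyticOnNhd ℂ F (U ×ˢ univ))
    (n : ℕ) {s : ℂ} (hs : s ∈ U) :
    iteratedDeriv n (fun t => F (s, t)) = fun t => tow F n (s, t) := by
  induction n with
  | zero => simp [tow]
  | succ n ih =>
    rw [iteratedDeriv_succ, ih]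
    funext t
    have h1 : HasFDerivAt (tow F n) (fderiv ℂ (tow F n) (s, t)) (s, t) :=
      ((tow_analytic hF n) (s, t) ⟨hs, mem_univ _⟩).differentiableAt.hasFDerivAt
    have h2 : HasDerivAt (fun t : ℂ => ((s, t) : ℂ × ℂ)) (0, 1) t :=
      (hasDerivAt_const t s).prodMk (hasDerivAt_id t)
    exact (h1.comp_hasDerivAt t h2).deriv

theorem slice_left {U : Set ℂ} {F : ℂ × ℂ → ℂ} (hF : AnalyticOnNhd ℂ F (U ×ˢ univ)) (t : ℂ) :
    AnalyticOnNhd ℂ (fun s => F (s, t)) U := by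
  intro s hs
  exact (hF (s, t) ⟨hs, mem_univ _⟩).comp
      (f := fun s => (s, t)) (AnalyticAt.prod analyticAt_id analyticAt_const)

theorem slice_right {U : Set ℂ} {F : ℂ × ℂ → ℂ} (hF : AnalyticOnNhd ℂ F (U ×ˢ univ)) {s : ℂ}
    (hs : s ∈ U) : Differentiable ℂ (fun t => F (s, t)) := by
  intro t
  exact ((hF (s, t) ⟨hs, mem_univ _⟩).comp
    (AnalyticAt.prod analyticAt_const analyticAt_id)).differentiableAt

/-- For generic `s` the vanishing orders along a countable set are the generic ones. -/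
theorem generic_order {U : Set ℂ} (hU : IsOpen U) (hUc : IsPreconnected U) {F : ℂ × ℂ → ℂ}
    (hF : AnalyticOnNhd ℂ F (U ×ˢ univ)) {C : Set ℂ} (hC : C.Countable) :
    ∃ B : Set ℂ, B.Countable ∧ ∀ s ∈ U, s ∉ B → ∀ s' ∈ U, s' ∉ B → ∀ t ∈ C,
      analyticOrderAt (fun t => F (s, t)) t = analyticOrderAt (fun t => F (s', t)) t := by
  have hFs : ∀ s ∈ U, ∀ t, AnalyticAt ℂ (fun t => F (s, t)) t := by
    intro s hs t
    exact (slice_right hF hs).analyticAt t
  have hg : ∀ t j, AnalyticOnNhd ℂ (fun s => iteratedDeriv j (fun t => F (s, t)) t) U := by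
    intro t j s hs
    have h1 := slice_left (tow_analytic hF j) t s hs
    refine h1.congr ?_
    filter_upwards [hU.mem_nhds hs] with s' hs'
    rw [tow_iteratedDeriv hF j hs']
  set Z : ℂ → ℕ → Set ℂ := fun t j => U ∩ {s | iteratedDeriv j (fun t => F (s, t)) t = 0} with hZ
  refine ⟨⋃ t ∈ C, ⋃ j : ℕ, {s | s ∈ Z t j ∧ (Z t j).Countable}, ?_, ?_⟩
  · refine hC.biUnion fun t _ => countable_iUnion fun j => ?_
    by_cases h : (Z t j).Countable
    · exact h.mono fun s hs => hs.1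
    · convert countable_empty using 1
      ext s
      simp [h]
  · intro s hsU hs s' hsU' hs' t ht
    have key : ∀ j, (iteratedDeriv j (fun t => F (s, t)) t = 0 ↔
        iteratedDeriv j (fun t => F (s', t)) t = 0) := by
      intro j
      by_cases h : (Z t j).Countable
      · have h1 : s ∉ Z t j := fun h' => hs (mem_biUnion ht (mem_iUnion.2 ⟨j, h', h⟩))
        have h2 : s' ∉ Z t j := fun h' => hs' (mem_biUnion ht (mem_iUnion.2 ⟨j, h', h⟩))
        exact ⟨fun h' => absurd ⟨hsU, h'⟩ h1, fun h' => absurd ⟨hsU', h'⟩ h2⟩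
      · have h3 : ∀ s ∈ U, iteratedDeriv j (fun t => F (s, t)) t = 0 := by
          by_contra hcon
          push Not at hcon
          exact h (zeros_countableOn hUc (hg t j) hcon)
        exact ⟨fun _ => h3 s' hsU', fun _ => h3 s hsU⟩
    have key2 : ∀ n : ℕ, (n : ℕ∞) ≤ analyticOrderAt (fun t => F (s, t)) t ↔
        (n : ℕ∞) ≤ analyticOrderAt (fun t => F (s', t)) t := by
      intro n
      rw [natCast_le_analyticOrderAt_iff_iteratedDeriv_eq_zero (hFs s hsU t),
        natCast_le_analyticOrderAt_iff_iteratedDeriv_eq_zero (hFs s' hsU' t)]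
      exact forall₂_congr fun i _ => key i
    exact ENat.eq_of_forall_natCast_le_iff key2

theorem pigeonhole {K : Type*} [Finite K] {S : Set ℂ} (hS : ¬ S.Countable) (P : K → ℂ → Prop)
    (h : ∀ s ∈ S, ∃ k, P k s) : ∃ k, ¬ {s ∈ S | P k s}.Countable := by
  by_contra hcon
  push Not at hcon
  apply hS
  refine (countable_iUnion hcon).mono ?_
  intro s hs
  obtain ⟨k, hk⟩ := h s hs
  exact mem_iUnion.2 ⟨k, hs, hk⟩

theorem not_countable_sdiff {S B : Set ℂ} (hS : ¬ S.Countable) (hB : B.Countable) :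
    ¬ (S \ B).Countable := by
  intro h
  apply hS
  refine (h.union hB).mono ?_
  intro s hs
  by_cases hb : s ∈ B
  · exact Or.inr hb
  · exact Or.inl ⟨hs, hb⟩

theorem nonempty_of_not_countable {S : Set ℂ} (hS : ¬ S.Countable) : S.Nonempty := by
  by_contra h
  rw [Set.not_nonempty_iff_eq_empty] at h
  rw [h] at hS
  exact hS countable_empty

theorem exists_not_mem {C : Set ℂ} (hC : C.Countable) : ∃ t, t ∉ C := by
  by_contra h
  push Not at h
  apply not_countable_complex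
  convert hC
  ext z; simp [h z]

/-- sums of products of a function of `s`, a function of `t` and an exponential -/
structure Data (U : Set ℂ) where
  ι : Type
  [fin : Fintype ι]
  c : ι → ℂ → ℂ
  G : ι → ℂ → ℂ
  H : ι → ℂ → ℂ → ℂ
  hc : ∀ k, AnalyticOnNhd ℂ (c k) U
  hG : ∀ k, Differentiable ℂ (G k)
  hH : ∀ k, AnalyticOnNhd ℂ (fun p : ℂ × ℂ => H k p.1 p.2) (U ×ˢ univ)

attribute [instance] Data.fin

/-- the function of a datum -/
noncomputable def Data.F {U : Set ℂ} (D : Data U) (p : ℂ × ℂ) : ℂ :=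
  ∑ k, D.c k p.1 * D.G k p.2 * exp (D.H k p.1 p.2)

theorem Data.analytic {U : Set ℂ} (D : Data U) : AnalyticOnNhd ℂ D.F (U ×ˢ univ) := by
  intro p hp
  refine Finset.analyticAt_fun_sum _ fun k _ => ?_
  refine (((D.hc k _ hp.1).comp analyticAt_fst).mul
    (((D.hG k).analyticAt _).comp analyticAt_snd)).mul ?_
  exact analyticAt_cexp.comp (D.hH k p hp)

theorem star {U : Set ℂ} (hU : IsOpen U) (hUc : IsPreconnected U) (D : Data U)
    {C : Set ℂ} (hC : C.Countable) {S : Set ℂ} (hSU : S ⊆ U) (hS : ¬ S.Countable)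
    (hSC : ∀ s ∈ S, ∀ t ∉ C, D.F (s, t) ≠ 0) :
    ∀ t ∉ C, ∀ t' ∉ C, ∀ s ∈ U, D.F (s, t) = 0 → D.F (s, t') = 0 := by
  classical
  have hF := D.analytic
  obtain ⟨B, hB, hord⟩ := generic_order hU hUc hF hC
  have hS' : ¬ (S \ B).Countable := not_countable_sdiff hS hB
  obtain ⟨s₀, hs₀⟩ := nonempty_of_not_countable hS'
  obtain ⟨t₀, ht₀⟩ := exists_not_mem hC
  have hg : ∀ s ∈ S \ B, ∃ g : ℂ → ℂ, Differentiable ℂ g ∧
      ∀ z, D.F (s, z) = exp (g z) * D.F (s₀, z) := by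
    intro s hs
    refine ratio (slice_right hF (hSU hs.1)) (slice_right hF (hSU hs₀.1))
      ⟨t₀, hSC s₀ hs₀.1 t₀ ht₀⟩ ?_
    intro z
    by_cases hz : z ∈ C
    · exact hord s (hSU hs.1) hs.2 s₀ (hSU hs₀.1) hs₀.2 z hz
    · rw [((slice_right hF (hSU hs.1)).analyticAt z).analyticOrderAt_eq_zero.2 (hSC s hs.1 z hz),
        ((slice_right hF (hSU hs₀.1)).analyticAt z).analyticOrderAt_eq_zero.2
          (hSC s₀ hs₀.1 z hz)]
  choose! g hgd hgF using hg
  obtain ⟨K, hK, ℓ, dmax, hℓ, hmatch⟩ := elim_final D.c D.G D.H (fun z => D.F (s₀, z))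
    (slice_right hF (hSU hs₀.1)) ⟨t₀, hSC s₀ hs₀.1 t₀ ht₀⟩ (S \ B)
    (fun k s hs => slice_right (D.hH k) (hSU hs.1)) g hgd (fun _ => 1) (fun _ _ => one_ne_zero)
    (fun s hs z => by rw [Polynomial.eval_one, one_mul]; exact hgF s hs z)
  obtain ⟨⟨j, κ⟩, hS2⟩ := pigeonhole hS' (fun (p : D.ι × K) s =>
    ∃ d : ℂ, ∀ z, g s z = D.H p.1 s z + ℓ p.2 z + d) (by
      intro s hs
      obtain ⟨-, j, κ, d, hd⟩ := hmatch s hs
      exact ⟨(j, κ), d, hd⟩)
  intro t ht t' ht' s hsU hst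
  have hHt : ∀ t, AnalyticOnNhd ℂ (fun s => D.H j s t) U := fun t => slice_left (D.hH j) t
  have hzero := eq_zero_of_uncountableOn hUc
    (f := fun s => D.F (s, t) * exp (- D.H j s t) * (exp (ℓ κ t') * D.F (s₀, t')) -
      D.F (s, t') * exp (- D.H j s t') * (exp (ℓ κ t) * D.F (s₀, t)))
    (fun s hs => (((slice_left hF t s hs).mul ((hHt t s hs).neg.cexp)).mul analyticAt_const).sub
      (((slice_left hF t' s hs).mul ((hHt t' s hs).neg.cexp)).mul analyticAt_const))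
    (S := {s ∈ S \ B | ∃ d : ℂ, ∀ z, g s z = D.H j s z + ℓ κ z + d})
    (fun s hs => hSU hs.1.1) hS2 (by
      rintro s ⟨hs, d, hd⟩
      rw [hgF s hs t, hgF s hs t', hd t, hd t']
      simp only [exp_add, exp_neg]
      field_simp [exp_ne_zero]
      ring) s hsU
  rw [hst] at hzero
  have h2 : D.F (s₀, t) ≠ 0 := hSC s₀ hs₀.1 t ht
  have h3 : D.F (s, t') * (exp (- D.H j s t') * (exp (ℓ κ t) * D.F (s₀, t))) = 0 := by
    linear_combination -hzero
  rcases mul_eq_zero.1 h3 with h | h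
  · exact h
  · exact absurd h (mul_ne_zero (exp_ne_zero _) (mul_ne_zero (exp_ne_zero _) h2))

end Pool.Agent.TH735.QM
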