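import Pool.Agent.TH735.QM.Basic
import Pool.Agent.H159R3.Exp.Borel

/-!
Zero-free entire functions; quotients of entire functions with the same zeros; a form of
Borel's theorem.
-/

set_option autoImplicit false

namespace Pool.Agent.TH735.QM

open Set Filter Topology Complex

/-- an entire function without zeros is an exponential -/
theorem entire_log {u : ℂ → ℂ} (hu : Differentiable ℂ u) (h0 : ∀ z, u z ≠ 0) :
    ∃ g : ℂ → ℂ, Differentiable ℂ g ∧ ∀ z, u z = exp (g z) := by
  have hd : Differentiable ℂ (fun z => deriv u z / u z) := by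
    intro z
    exact ((hu.deriv).differentiableAt).div hu.differentiableAt (h0 z)
  obtain ⟨g, hg⟩ := hd.isExactOn_univ
  have hgd : ∀ z, HasDerivAt g (deriv u z / u z) z := fun z => hg z (mem_univ z)
  have hconst : ∀ z, u z * exp (-g z) = u 0 * exp (-g 0) := by
    have hder : ∀ z, HasDerivAt (fun z => u z * exp (-g z)) 0 z := by
      intro z
      have h1 : HasDerivAt u (deriv u z) z := hu.differentiableAt.hasDerivAt
      have h2 : HasDerivAt (fun z => exp (-g z)) (exp (-g z) * (-(deriv u z / u z))) z :=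
        ((hgd z).neg).cexp
      have h3 := h1.mul h2
      have h4 : deriv u z * exp (-g z) + u z * (exp (-g z) * (-(deriv u z / u z))) = 0 := by
        have := h0 z
        field_simp
        ring
      rw [← h4]
      exact h3
    intro z
    exact is_const_of_deriv_eq_zero (fun z => (hder z).differentiableAt)
      (fun z => (hder z).deriv) z 0
  set c : ℂ := u 0 * exp (-g 0) with hc
  have hc0 : c ≠ 0 := mul_ne_zero (h0 0) (exp_ne_zero _)
  refine ⟨fun z => g z + log c, ?_, ?_⟩
  · intro z
    exact ((hgd z).differentiableAt).add_const _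
  · intro z
    rw [exp_add, exp_log hc0, ← hconst z, exp_neg]
    field_simp [exp_ne_zero]

/-- two entire functions with the same zeros, with multiplicities -/
theorem ratio {F₁ F₂ : ℂ → ℂ} (h1 : Differentiable ℂ F₁) (h2 : Differentiable ℂ F₂)
    (hne : ∃ z, F₂ z ≠ 0) (hord : ∀ z, analyticOrderAt F₁ z = analyticOrderAt F₂ z) :
    ∃ g : ℂ → ℂ, Differentiable ℂ g ∧ ∀ z, F₁ z = exp (g z) * F₂ z := by
  have hfin : ∀ z, analyticOrderAt F₂ z ≠ ⊤ := by
    intro z htop
    obtain ⟨w, hw⟩ := hne
    apply hw
    have := AnalyticOnNhd.eqOn_zero_of_preconnected_of_eventuallyEq_zero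
      (f := F₂) (U := Set.univ) (fun z _ => h2.analyticAt z) isPreconnected_univ (mem_univ z)
      (analyticOrderAt_eq_top.1 htop)
    exact this (mem_univ w)
  have hq : MeromorphicOn (F₁ / F₂) univ := fun z _ =>
    (h1.analyticAt z).meromorphicAt.div (h2.analyticAt z).meromorphicAt
  have hqo : ∀ z, meromorphicOrderAt (F₁ / F₂) z = 0 := by
    intro z
    rw [meromorphicOrderAt_div (h1.analyticAt z).meromorphicAt (h2.analyticAt z).meromorphicAt,
      (h1.analyticAt z).meromorphicOrderAt_eq, (h2.analyticAt z).meromorphicOrderAt_eq, hord z]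
    obtain ⟨n, hn⟩ := ENat.ne_top_iff_exists.1 (hfin z)
    rw [← hn]
    simp
  set Q : ℂ → ℂ := toMeromorphicNFOn (F₁ / F₂) univ with hQ
  have hQNF : ∀ z, MeromorphicNFAt Q z := fun z =>
    meromorphicNFOn_toMeromorphicNFOn (F₁ / F₂) univ (mem_univ z)
  have hQo : ∀ z, meromorphicOrderAt Q z = 0 := by
    intro z
    rw [hQ, meromorphicOrderAt_toMeromorphicNFOn hq (mem_univ z), hqo z]
  have hQ0 : ∀ z, Q z ≠ 0 := fun z => ((hQNF z).meromorphicOrderAt_eq_zero_iff).1 (hQo z)
  have hQa : ∀ z, AnalyticAt ℂ Q z := fun z =>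
    ((hQNF z).meromorphicOrderAt_nonneg_iff_analyticAt).1 (by rw [hQo z])
  have hQd : Differentiable ℂ Q := fun z => (hQa z).differentiableAt
  obtain ⟨g, hg, hgQ⟩ := entire_log hQd hQ0
  refine ⟨g, hg, ?_⟩
  intro z
  rw [← hgQ z]
  have hev : (fun z => F₁ z) =ᶠ[𝓝[≠] z] (fun z => Q z * F₂ z) := by
    have e1 := hq.toMeromorphicNFOn_eq_self_on_nhdsNE (mem_univ z)
    have e2 : ∀ᶠ w in 𝓝[≠] z, F₂ w ≠ 0 := by
      rcases (h2.analyticAt z).eventually_eq_zero_or_eventually_ne_zero with h | h
      · exact absurd (analyticOrderAt_eq_top.2 h) (hfin z)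
      · exact h
    filter_upwards [e1, e2] with w hw1 hw2
    have : Q w = F₁ w / F₂ w := hw1
    rw [this]
    field_simp
  have hev2 := (ContinuousAt.eventuallyEq_nhds_iff_eventuallyEq_nhdsNE
    (h1.continuous.continuousAt) ((hQd.continuous.mul h2.continuous).continuousAt)).1 hev
  exact hev2.eq_of_nhds

/-- A form of Borel's theorem: if two linear combinations of exponentials of entire functions are
equal and not identically zero, then some exponent of the first one and some exponent of the second
one differ by a constant. -/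
theorem borel_match {I J : Type} [Fintype I] [Fintype J] [DecidableEq I] [DecidableEq J]
    (μ : I → ℂ → ℂ) (ν : J → ℂ → ℂ) (hμ : ∀ i, Differentiable ℂ (μ i))
    (hν : ∀ j, Differentiable ℂ (ν j)) (b : I → ℂ) (d : J → ℂ)
    (h : ∀ z, ∑ i, b i * exp (μ i z) = ∑ j, d j * exp (ν j z))
    (hne : ∃ z, ∑ i, b i * exp (μ i z) ≠ 0) :
    ∃ i j, ∃ c : ℂ, ∀ z, μ i z = ν j z + c := by
  by_contra hcon
  push Not at hcon
  have key := Pool.Agent.H159R3.Exp.borel_spec (B := ℂ → ℂ) (ι := I ⊕ J)
    (Sum.elim μ ν) (by rintro (i | j) <;> simp [hμ, hν])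
    (Sum.elim (fun i z => exp (μ i z)) (fun _ => 0))
    (by
      rintro (i | j) (i' | j') c hc
      · funext z
        simp only [Sum.elim_inl, Pi.smul_apply, smul_eq_mul]
        have := hc z
        simp only [Sum.elim_inl] at this
        rw [this, exp_add]; ring
      · exfalso
        obtain ⟨z, hz⟩ := hcon i j' c
        exact hz (hc z)
      · exfalso
        obtain ⟨z, hz⟩ := hcon i' j (-c)
        apply hz
        have := hc z
        simp only [Sum.elim_inl, Sum.elim_inr] at this
        rw [this]; ring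
      · simp)
    Finset.univ (Sum.elim b (fun j => - d j))
    (by
      intro z
      rw [Fintype.sum_sum_type]
      simp only [Sum.elim_inl, Sum.elim_inr, neg_mul, Finset.sum_neg_distrib]
      rw [h z]; ring)
  rw [Fintype.sum_sum_type] at key
  simp only [Sum.elim_inl, Sum.elim_inr, smul_zero, Finset.sum_const_zero, add_zero] at key
  obtain ⟨z, hz⟩ := hne
  apply hz
  have := congrFun key z
  simpa [Finset.sum_apply] using this

end Pool.Agent.TH735.QM
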